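import Mathlib
import Pool.Agent.Lib.MP_bbe012_lc.HC.Codes
import Pool.Agent.Lib.MP_bbe012_lc.HC.Search

/-!
# Volumes of sets defined by one cubic inequality: the codes of the reduction (definitions)

A polynomial is given as a sum of products, by the list of the lists of the factors (`SCode`).
One round of the reduction (`step`) replaces a product of at least four factors by two shorter
products, in four more variables, and lowers the exponent of the truncated power by two.
-/

namespace Pool.Agent.Lib.MP_bbe012_lc.CV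

open MeasureTheory Set HC

/-- A sum of products of polynomials. -/
abbrev SCode := List (List PCode)

/-- The product of a list of polynomials. -/
def pcProdL (L : List PCode) : PCode := L.foldr pcMul (pcNat 1)

/-- The polynomial given by a sum of products. -/
def flat (S : SCode) : PCode := S.flatMap pcProdL

/-- The opposite of a product. -/
def negL (L : List PCode) : List PCode := pcNeg (L.headD (pcNat 1)) :: L.tail

/-- All polynomials are truncated to the first `n` variables. -/
def trS (n : ℕ) (S : SCode) : SCode := S.map fun L => L.map (pcTrunc n)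

/-- The last product with at least four factors (the empty list if there is none), and the list of
the other products. -/
def pick (S : SCode) : List PCode × SCode :=
  S.foldr (fun L r => if r.1.length = 0 ∧ 4 ≤ L.length then (L, r.2) else (r.1, L :: r.2)) ([], [])

/-- The product of the first two factors. -/
def zC (L : List PCode) : PCode := pcMul (L.getD 0 []) (L.getD 1 [])

/-- The product of the other factors. -/
def eC (L : List PCode) : PCode := pcProdL (L.drop 2)

/-- The polynomial `T x_i`. -/
def uV (i T : ℕ) : PCode := pcMul (pcNat T) (pcVar i)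

/-- The size of the box for the variables `u`. -/
def tB (L : List PCode) (R : SCode) : ℕ :=
  1 + pcK (eC L) + pcK (zC L) + pcK (flat R) + pcK (eC L) * pcK (zC L)

/-- The polynomial `f = (u_1 + z)^2 - 2 e u_1 + u_2^2 - g`, where `2 z = e - z*`,
`u_1 = T x_n`, `u_2 = T x_(n+1)`, and `e`, `z*`, `g` are the values of `eC L`, `zC L`, `flat R`. -/
def fC (n T : ℕ) (L : List PCode) (R : SCode) : PCode :=
  pcMul (uV n T) (uV n T) ++ (pcMul (uV (n + 1) T) (uV (n + 1) T) ++
    (pcNeg (pcMul (uV n T) (eC L ++ zC L)) ++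
      (pcPow (pcMul [(qinv 1, [])] (eC L ++ pcNeg (zC L))) 2 ++ pcNeg (flat R))))

/-- The size of the box for the variables `y`. -/
def yB (n T : ℕ) (L : List PCode) (R : SCode) : ℕ :=
  1 + T + pcK (eC L) + pcK (zC L) + pcK (fC n T L R)

/-- The sum of products after one round; the new variables are `u_1 = T x_n`, `u_2 = T x_(n+1)`,
`y_1 = Y x_(n+2)`, `y_2 = Y x_(n+3)`. -/
def nextS (n T Y : ℕ) (L : List PCode) (R : SCode) : SCode :=
  R.map negL ++
    [[L.getD 0 [], L.getD 1 [], pcNeg (uV (n + 2) Y)],
      (uV (n + 2) Y ++ pcNeg (pcMul (pcNat 2) (uV n T))) :: L.drop 2,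
      [pcMul (pcNat 2) (uV n T), uV (n + 2) Y],
      [pcNeg (uV (n + 2) Y), uV (n + 2) Y],
      [pcNeg (uV (n + 3) Y), uV (n + 3) Y],
      [uV (n + 1) T, uV (n + 1) T]]

/-- The exact integral over the cube `(-1, 1)^n`, as a constant polynomial. -/
def pcInt (n : ℕ) (p : PCode) : PCode :=
  p.flatMap fun t => pcMul [(t.1, [])] (pcProdRange n fun i =>
    if t.2.getD i 0 % 2 = 1 then [] else [(((2, 0), t.2.getD i 0), [])])

/-- The new value of the polynomial in `π`. -/
def nextQ (n k T Y : ℕ) (f q : PCode) : PCode :=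
  pcMul [(qinv (Y ^ 2 * (k + 1) - 1), [])] (pcMul (pcVar 0) (pcInt (n + 2) (pcPow f (k + 1)) ++
    pcMul [(qinv (T ^ 2 * (k + 2) - 1), [])] (pcMul (pcVar 0) q)))

/-- The state: number of variables, sum of products, polynomial in `π`. -/
abbrev St := (ℕ × SCode) × PCode

/-- One round. -/
def step (k : ℕ) (s : St) : St :=
  ((s.1.1 + 4, nextS s.1.1 (tB (pick (trS s.1.1 s.1.2)).1 (pick (trS s.1.1 s.1.2)).2)
      (yB s.1.1 (tB (pick (trS s.1.1 s.1.2)).1 (pick (trS s.1.1 s.1.2)).2)
        (pick (trS s.1.1 s.1.2)).1 (pick (trS s.1.1 s.1.2)).2)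
      (pick (trS s.1.1 s.1.2)).1 (pick (trS s.1.1 s.1.2)).2),
    nextQ s.1.1 k (tB (pick (trS s.1.1 s.1.2)).1 (pick (trS s.1.1 s.1.2)).2)
      (yB s.1.1 (tB (pick (trS s.1.1 s.1.2)).1 (pick (trS s.1.1 s.1.2)).2)
        (pick (trS s.1.1 s.1.2)).1 (pick (trS s.1.1 s.1.2)).2)
      (fC s.1.1 (tB (pick (trS s.1.1 s.1.2)).1 (pick (trS s.1.1 s.1.2)).2)
        (pick (trS s.1.1 s.1.2)).1 (pick (trS s.1.1 s.1.2)).2) s.2)

/-- The state after `j` of `κ` rounds. -/
def run (κ : ℕ) (s : St) (j : ℕ) : St := j.rec s fun i t => step (2 * (κ - 1 - i)) t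

/-- The number of rounds needed. -/
def mu (S : SCode) : ℕ := (S.map fun L => L.length - 3).sum

/-! ### The initial state -/

/-- The factors of a term: the coefficient and the variables. -/
def exL (t : QCode × List ℕ) : List PCode :=
  [(t.1, [])] :: (List.range t.2.length).flatMap fun i => List.replicate (t.2.getD i 0) (pcVar i)

/-- The polynomial in `t = x_n` with the given coefficients. -/
def rowC (n : ℕ) (row : List QCode) : PCode :=
  pcSumRange row.length fun j => [(row.getD j (qnat 0), List.replicate n 0 ++ [j])]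

/-- The polynomial `P ∑ i, ρ_i(t) Q^i`. -/
def wC (n : ℕ) (P Q : PCode) (rows : List (List QCode)) : PCode :=
  pcMul (pcTrunc n P) (pcSumRange rows.length fun i =>
    pcMul (rowC n (rows.getD i [])) (pcPow (pcTrunc n Q) i))

/-- The coefficient number `k` of the row number `i`. -/
def cf (rows : List (List QCode)) (i k : ℕ) : QCode := (rows.getD i []).getD k (qnat 0)

/-- The coefficient of the term number `j`. -/
def vC (n r : ℕ) (P Q : PCode) (rows : List (List QCode)) (j : ℕ) : PCode :=
  pcMul (cstCode r j) (pcMul (pcTrunc n P) (pcSumRange rows.length fun i =>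
    pcMul [(cf rows i (r - j), [])] (pcPow (pcTrunc n Q) i)))

/-- The numerator without the power of `Q`. -/
def a1C (n r : ℕ) (P Q : PCode) (rows : List (List QCode)) : PCode :=
  pcSumRange (r + 1) fun j => pcMul (vC n r P Q rows j)
    (pcMul (pcPow (pcTrunc n Q ++ pcNeg (pcNat 1)) j)
      (pcProdRange r fun i => if i < j then pcNat 1 else eCode n Q i))

/-- A bound for `Q`. -/
def bQ (n : ℕ) (Q : PCode) : ℕ := 1 + pcK (pcTrunc n Q)

/-- The constant which is added. -/
def kC (n r : ℕ) (P Q : PCode) (rows : List (List QCode)) : ℕ :=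
  1 + bQ n Q ^ r * pcK (a1C n r P Q rows)

/-- The numerator `A = K D + Q^r A_1`. -/
def a2C (n r : ℕ) (P Q : PCode) (rows : List (List QCode)) : PCode :=
  pcMul (pcNat (kC n r P Q rows)) (dCode n r Q) ++
    pcMul (pcPow (pcTrunc n Q) r) (a1C n r P Q rows)

/-- The size of the box for the variables `t`. -/
def t0C (n r : ℕ) (P Q : PCode) (rows : List (List QCode)) : ℕ :=
  bQ n Q ^ (r + 1) * kC n r P Q rows

/-- The polynomial `Q^(r+1) A - D T (1 + x_(n+r))`. -/
def g1C (n r : ℕ) (P Q : PCode) (rows : List (List QCode)) : PCode :=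
  pcMul (pcPow (pcTrunc n Q) (r + 1)) (a2C n r P Q rows) ++
    pcNeg (pcMul (dCode n r Q) (pcMul (pcNat (t0C n r P Q rows)) (pcNat 1 ++ pcVar (n + r))))

/-- The polynomial `- A^2`. -/
def g2C (n r : ℕ) (P Q : PCode) (rows : List (List QCode)) : PCode :=
  pcNeg (pcMul (a2C n r P Q rows) (a2C n r P Q rows))

/-- The linear form `T ∑ i < m, (1 + x_(n+i))`. -/
def linC (n m T : ℕ) : PCode :=
  pcMul (pcNat T) (pcSumRange m fun i => pcNat 1 ++ pcVar (n + i))

/-- The initial sum of products. -/
def s0C (n r m : ℕ) (P Q : PCode) (rows : List (List QCode)) : SCode :=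
  (g1C n r P Q rows).map exL ++
    (g2C n r P Q rows).map fun t => linC (n + r + 1) m (t0C n r P Q rows) :: exL t

/-- The constant in the formula for the initial integral. -/
def c0C (m T : ℕ) : PCode :=
  pcMul (pcPow [(qinv (T - 1), [])] (m + 1)) (pcProdRange (m + 1) fun i => [(qinv (m + i), [])])

/-- The initial value of the polynomial in `π` (a constant). -/
def q0C (n r m : ℕ) (P Q : PCode) (rows : List (List QCode)) : PCode :=
  pcMul (c0C m (t0C n r P Q rows)) (pcMul (pcNat (kC n r P Q rows))
    (pcInt (n + r) (pcPow (pcTrunc n Q) ((r + 1) * (2 * m + 1)))))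

/-- Certificate `((r, κ), K), ((A, rows), gs)`. -/
abbrev CC := ((ℕ × ℕ) × ℕ) × ((PCode × List (List QCode)) × List PCode)

instance instPrimcodableCC : Primcodable CC := inferInstance

/-- The exponent attached to `r` and the number of rounds `κ`. -/
def nN (r κ : ℕ) : ℕ := (r + 1) * (2 * (2 * κ) + 1) + r

/-- The certificate for the functional equation. -/
def toHC (n : ℕ) (P Q : PCode) (c : CC) : HC :=
  (((c.1.1.1, nN c.1.1.1 c.1.1.2), c.1.2), (c.2.1.1, wC n P Q c.2.1.2), c.2.2)

/-- The verification of a certificate. -/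
def cCheck (n : ℕ) (P Q : PCode) (c : CC) : Prop :=
  1 ≤ c.1.1.2 ∧ hcCheck n P Q (toHC n P Q c) ∧
    mu (s0C n c.1.1.1 (2 * c.1.1.2) P Q c.2.1.2) ≤ c.1.1.2

instance (n : ℕ) (P Q : PCode) (c : CC) : Decidable (cCheck n P Q c) := by
  unfold cCheck; infer_instance

/-- The search for a certificate. -/
def cSearch (R : ℕ × PCode × PCode) : Part CC :=
  Nat.rfindOpt fun m => (Encodable.decode (α := CC) m).bind fun c =>
    if cCheck R.1 R.2.1 R.2.2 c then some c else none

/-- The initial state attached to a certificate. -/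
def st0 (R : ℕ × PCode × PCode) (c : CC) : St :=
  ((R.1 + c.1.1.1 + 1 + 2 * c.1.1.2, s0C R.1 c.1.1.1 (2 * c.1.1.2) R.2.1 R.2.2 c.2.1.2),
    q0C R.1 c.1.1.1 (2 * c.1.1.2) R.2.1 R.2.2 c.2.1.2)

/-- The final state. -/
def stF (R : ℕ × PCode × PCode) (c : CC) : St := run c.1.1.2 (st0 R c) c.1.1.2

/-- The cubic polynomial (with its number of variables) and the polynomial in `π` attached to a
certificate. -/
def cubicOf (R : ℕ × PCode × PCode) (c : CC) : (ℕ × PCode) × PCode :=
  (((stF R c).1.1, flat (stF R c).1.2), (stF R c).2)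

/-- Truncated powers. -/
noncomputable def pp (k : ℕ) (a : ℝ) : ℝ := if 0 < a then a ^ k else 0

/-- The integral of a truncated power of a polynomial over the cube. -/
noncomputable def II (n : ℕ) (p : PCode) (k : ℕ) : ℝ := ∫ x in cube n, pp k (pcEval n p x)

/-- `v` is an affine function of `π^k w`, with coefficients in `ℚ[π]` and `ℚ` (nonzero). -/
def Lin (v w : ℝ) (k : ℕ) : Prop :=
  ∃ (a : Polynomial ℚ) (b : ℚ), b ≠ 0 ∧ v = Polynomial.aeval Real.pi a + b * Real.pi ^ k * w

end Pool.Agent.Lib.MP_bbe012_lc.CV
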