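import Mathlib
import Pool.Agent.Lib.MP_bbe012_lc.CV.Defs
import Pool.Agent.Lib.MP_bbe012_lc.DerCode

/-!
# The degrees
-/

namespace Pool.Agent.Lib.MP_bbe012_lc.CV

open MvPolynomial HC

/-- All factors have degree at most one. -/
def Deg1 (m : ℕ) (S : SCode) : Prop := ∀ L ∈ S, ∀ p ∈ L, (pcPoly m p).totalDegree ≤ 1

theorem deg_neg (m : ℕ) (p : PCode) : (pcPoly m (pcNeg p)).totalDegree = (pcPoly m p).totalDegree := by
  rw [pcPoly_neg, totalDegree_neg]

theorem deg_append {m d : ℕ} {p q : PCode} (hp : (pcPoly m p).totalDegree ≤ d)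
    (hq : (pcPoly m q).totalDegree ≤ d) : (pcPoly m (p ++ q)).totalDegree ≤ d := by
  rw [pcPoly_append]
  exact (totalDegree_add _ _).trans (max_le hp hq)

theorem deg_mul {m a b : ℕ} {p q : PCode} (hp : (pcPoly m p).totalDegree ≤ a)
    (hq : (pcPoly m q).totalDegree ≤ b) : (pcPoly m (pcMul p q)).totalDegree ≤ a + b := by
  rw [pcPoly_mul]
  exact (totalDegree_mul _ _).trans (Nat.add_le_add hp hq)

theorem deg_const (m : ℕ) (c : QCode) : (pcPoly m [(c, [])]).totalDegree = 0 := by
  have h : expVec m [] = 0 := by ext i; simp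
  have h1 : pcPoly m [(c, [])] = C (qval c) := by
    simp only [pcPoly_cons, pcPoly_nil, add_zero, termPoly, h]
    rw [C_apply]
  rw [h1, totalDegree_C]

theorem Deg_nat (m k : ℕ) : (pcPoly m (pcNat k)).totalDegree = 0 := by
  rw [pcPoly_nat, totalDegree_C]

/-- Also for `i ≥ m` (then the polynomial is `1`). -/
theorem deg_var (m i : ℕ) : (pcPoly m (pcVar i)).totalDegree ≤ 1 := by
  by_cases h : i < m
  · rw [pcPoly_var h]
    exact (totalDegree_X _).le
  · have h1 : expVec m (List.replicate i 0 ++ [1]) = 0 := by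
      ext j
      rw [expVec_apply, getD_replicate_append_singleton, if_neg (by have := j.isLt; omega)]
      rfl
    have h2 : pcPoly m (pcVar i) = C 1 := by
      simp only [pcVar, pcPoly_cons, pcPoly_nil, add_zero, termPoly, qval_qnat, h1, Nat.cast_one]
      rw [C_apply]
    rw [h2, totalDegree_C]
    exact Nat.zero_le _

theorem Deg_trunc_rename {n m : ℕ} (h : n ≤ m) (p : PCode) :
    pcPoly m (pcTrunc n p) = rename (Fin.castLE h) (pcPoly n p) := by
  induction p with
  | nil => simp [pcTrunc]
  | cons t p ih =>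
    have : pcTrunc n (t :: p) = (t.1, t.2.take n) :: pcTrunc n p := rfl
    rw [this, pcPoly_cons, pcPoly_cons, ih, map_add]
    congr 1
    have h1 : expVec m (t.2.take n) = Finsupp.mapDomain (Fin.castLE h) (expVec n t.2) := by
      ext i
      rw [expVec_apply, getD_take]
      by_cases h2 : (i : ℕ) < n
      · rw [if_pos h2]
        have h3 : i = Fin.castLE h ⟨i, h2⟩ := by ext; rfl
        rw [h3, Finsupp.mapDomain_apply (Fin.castLE_injective h), expVec_apply]
        rfl
      · rw [if_neg h2, Finsupp.mapDomain_of_notMem_range]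
        rintro ⟨a, ha⟩
        apply h2
        rw [← ha]
        exact a.isLt
    rw [termPoly, termPoly, rename_monomial]
    simp only [h1]

/-- `pcPoly m (pcTrunc n p)` is the renaming of `pcPoly n p` (`pcPoly_trunc_castLE` in PP/RedB.lean; prove it here again with the help of
`pcPoly_trunc_hP` as a model, or directly for every term), `totalDegree_rename_le`. -/
theorem deg_trunc {n m d : ℕ} (h : n ≤ m) {p : PCode} (hp : (pcPoly n p).totalDegree ≤ d) :
    (pcPoly m (pcTrunc n p)).totalDegree ≤ d := by
  rw [Deg_trunc_rename h]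
  exact (totalDegree_rename_le _ _).trans hp

theorem Deg_pick_cons (L : List PCode) (S : SCode) : pick (L :: S) =
    if (pick S).1.length = 0 ∧ 4 ≤ L.length then (L, (pick S).2) else ((pick S).1, L :: (pick S).2) := rfl

/-- The factors of `(pick S).1` and of the lists of `(pick S).2` are factors of the lists of `S`. -/
theorem pick_mem {S : SCode} : (∀ p ∈ (pick S).1, ∃ L ∈ S, p ∈ L) ∧
    ∀ L ∈ (pick S).2, L ∈ S := by
  induction S with
  | nil => 
    constructor
    · intro p hp
      simp [pick] at hp
    · intro L hL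
      simp [pick] at hL
  | cons L S ih =>
    rw [Deg_pick_cons]
    split_ifs with h
    · constructor
      · intro p hp
        exact ⟨L, List.mem_cons_self, hp⟩
      · intro M hM
        exact List.mem_cons_of_mem _ (ih.2 M hM)
    · constructor
      · intro p hp
        obtain ⟨M, hM, hpM⟩ := ih.1 p hp
        exact ⟨M, List.mem_cons_of_mem _ hM, hpM⟩
      · intro M hM
        rcases List.mem_cons.1 hM with h1 | h1
        · rw [h1]
          exact List.mem_cons_self
        · exact List.mem_cons_of_mem _ (ih.2 M h1)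

theorem Deg_uV (m i T : ℕ) : (pcPoly m (uV i T)).totalDegree ≤ 1 := by
  have h := deg_mul (m := m) (a := 0) (b := 1) (p := pcNat T) (q := pcVar i) (Deg_nat m T).le (deg_var m i)
  simpa [uV] using h

theorem Deg_2uV (m i T : ℕ) : (pcPoly m (pcMul (pcNat 2) (uV i T))).totalDegree ≤ 1 := by
  have h := deg_mul (m := m) (a := 0) (b := 1) (p := pcNat 2) (q := uV i T) (Deg_nat m 2).le (Deg_uV m i T)
  simpa using h

theorem Deg_getD {m : ℕ} {L : List PCode} (h : ∀ p ∈ L, (pcPoly m p).totalDegree ≤ 1) (i : ℕ) :
    (pcPoly m (L.getD i [])).totalDegree ≤ 1 := by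
  by_cases hi : i < L.length
  · rw [List.getD_eq_getElem _ _ hi]
    exact h _ (List.getElem_mem hi)
  · rw [List.getD_eq_default _ _ (not_lt.1 hi)]
    simp

theorem Deg_negL {m : ℕ} {L : List PCode} (h : ∀ p ∈ L, (pcPoly m p).totalDegree ≤ 1) :
    ∀ p ∈ negL L, (pcPoly m p).totalDegree ≤ 1 := by
  intro p hp
  unfold negL at hp
  rcases List.mem_cons.1 hp with h1 | h1
  · rw [h1, deg_neg]
    cases L with
    | nil =>
      rw [List.headD_nil, Deg_nat]
      exact Nat.zero_le _
    | cons a L =>
      rw [List.headD_cons]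
      exact h a List.mem_cons_self
  · exact h p (List.mem_of_mem_tail h1)

theorem Deg_nextS {m n T Y : ℕ} {L : List PCode} {R : SCode} (hL : ∀ p ∈ L, (pcPoly m p).totalDegree ≤ 1)
    (hR : Deg1 m R) : Deg1 m (nextS n T Y L R) := by
  intro M hM
  unfold nextS at hM
  rcases List.mem_append.1 hM with h1 | h1
  · obtain ⟨K, hK, rfl⟩ := List.mem_map.1 h1
    exact Deg_negL (hR K hK)
  · simp only [List.mem_cons, List.not_mem_nil, or_false] at h1
    rcases h1 with h1 | h1 | h1 | h1 | h1 | h1
    · subst h1
      intro p hp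
      simp only [List.mem_cons, List.not_mem_nil, or_false] at hp
      rcases hp with h2 | h2 | h2
      · rw [h2]
        exact Deg_getD hL 0
      · rw [h2]
        exact Deg_getD hL 1
      · rw [h2, deg_neg]
        exact Deg_uV m _ _
    · subst h1
      intro p hp
      rcases List.mem_cons.1 hp with h2 | h2
      · rw [h2]
        refine deg_append (Deg_uV m _ _) ?_
        rw [deg_neg]
        exact Deg_2uV m _ _
      · exact hL p (List.mem_of_mem_drop h2)
    · subst h1
      intro p hp
      simp only [List.mem_cons, List.not_mem_nil, or_false] at hp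
      rcases hp with h2 | h2
      · rw [h2]
        exact Deg_2uV m _ _
      · rw [h2]
        exact Deg_uV m _ _
    · subst h1
      intro p hp
      simp only [List.mem_cons, List.not_mem_nil, or_false] at hp
      rcases hp with h2 | h2
      · rw [h2, deg_neg]
        exact Deg_uV m _ _
      · rw [h2]
        exact Deg_uV m _ _
    · subst h1
      intro p hp
      simp only [List.mem_cons, List.not_mem_nil, or_false] at hp
      rcases hp with h2 | h2
      · rw [h2, deg_neg]
        exact Deg_uV m _ _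
      · rw [h2]
        exact Deg_uV m _ _
    · subst h1
      intro p hp
      simp only [List.mem_cons, List.not_mem_nil, or_false, or_self] at hp
      rw [hp]
      exact Deg_uV m _ _

theorem Deg_trS {n m : ℕ} (h : n ≤ m) {S : SCode} (hS : Deg1 n S) : Deg1 m (trS n S) := by
  intro L hL
  unfold trS at hL
  obtain ⟨K, hK, rfl⟩ := List.mem_map.1 hL
  intro p hp
  obtain ⟨q, hq, rfl⟩ := List.mem_map.1 hp
  exact deg_trunc h (hS K hK q hq)

theorem deg1_step (k : ℕ) {s : St} (h : Deg1 s.1.1 s.1.2) :
    Deg1 (step k s).1.1 (step k s).1.2 := by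
  have h1 : Deg1 (s.1.1 + 4) (trS s.1.1 s.1.2) := Deg_trS (Nat.le_add_right _ _) h
  have h2 := pick_mem (S := trS s.1.1 s.1.2)
  change Deg1 (s.1.1 + 4) (nextS s.1.1 _ _ _ _)
  refine Deg_nextS ?_ ?_
  · intro p hp
    obtain ⟨L, hL, hpL⟩ := h2.1 p hp
    exact h1 L hL p hpL
  · intro L hL
    exact h1 L (h2.2 L hL)

theorem Deg_mu_trS (n : ℕ) (S : SCode) : mu (trS n S) = mu S := by
  unfold mu trS
  rw [List.map_map]
  congr 1
  refine List.map_congr_left fun L _ => ?_
  simp

theorem Deg_mu_negL (R : SCode) : mu (R.map negL) = mu R := by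
  unfold mu
  rw [List.map_map]
  congr 1
  refine List.map_congr_left fun L _ => ?_
  cases L with
  | nil => simp [negL]
  | cons a L => simp [negL]

theorem Deg_mu_cons (L : List PCode) (S : SCode) : mu (L :: S) = (L.length - 3) + mu S := by
  simp [mu]

theorem Deg_mu_append (S S' : SCode) : mu (S ++ S') = mu S + mu S' := by
  simp [mu]

/-- either no list has four elements or `pick` takes one of them away -/
theorem Deg_pick_mu (S : SCode) : ((pick S).1.length = 0 ∧ mu (pick S).2 = 0 ∧ mu S = 0) ∨
    (4 ≤ (pick S).1.length ∧ mu S = ((pick S).1.length - 3) + mu (pick S).2) := by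
  induction S with
  | nil =>
    left
    simp [pick, mu]
  | cons L S ih =>
    rw [Deg_pick_cons, Deg_mu_cons]
    split_ifs with h
    · right
      rcases ih with h1 | h1
      · refine ⟨h.2, ?_⟩
        rw [h1.2.1, h1.2.2]
      · exact absurd h.1 (by omega)
    · rcases ih with h1 | h1
      · left
        have h2 : ¬ 4 ≤ L.length := fun h3 => h ⟨h1.1, h3⟩
        refine ⟨h1.1, ?_, ?_⟩
        · change mu (L :: (pick S).2) = 0
          rw [Deg_mu_cons, h1.2.1]
          omega
        · rw [h1.2.2]
          omega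
      · right
        refine ⟨h1.1, ?_⟩
        change L.length - 3 + mu S = ((pick S).1.length - 3) + mu (L :: (pick S).2)
        rw [Deg_mu_cons, h1.2]
        omega

theorem Deg_mu_nextS (n T Y : ℕ) (L : List PCode) (R : SCode) :
    mu (nextS n T Y L R) = mu R + (L.length - 2 + 1 - 3) := by
  unfold nextS
  rw [Deg_mu_append, Deg_mu_negL]
  simp only [Deg_mu_cons, List.length_cons, List.length_nil, List.length_drop]
  have h0 : mu [] = 0 := rfl
  rw [h0]
  omega

/-- The number of the remaining rounds decreases. If no list has at least four elements then `mu` is `0` before and after the round. Otherwise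
the chosen list `L` has `L.length ≥ 4` and is replaced by lists of lengths `3` and `L.length - 1`; `negL` does not change `L.length - 3`. -/
theorem mu_step (k : ℕ) (s : St) : mu (step k s).1.2 ≤ mu s.1.2 - 1 := by
  change mu (nextS s.1.1 _ _ _ _) ≤ _
  rw [Deg_mu_nextS, ← Deg_mu_trS s.1.1 s.1.2]
  rcases Deg_pick_mu (trS s.1.1 s.1.2) with h | h
  · rw [h.1, h.2.1, h.2.2]
  · rw [h.2]
    omega

theorem deg1_run {κ : ℕ} {s : St} (h : Deg1 s.1.1 s.1.2) (j : ℕ) :
    Deg1 (run κ s j).1.1 (run κ s j).1.2 := by
  induction j with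
  | zero => exact h
  | succ j ih => exact deg1_step _ ih

theorem mu_run (κ : ℕ) (s : St) (j : ℕ) : mu (run κ s j).1.2 ≤ mu s.1.2 - j := by
  induction j with
  | zero => exact le_rfl
  | succ j ih =>
    have h1 : mu (run κ s (j + 1)).1.2 ≤ mu (run κ s j).1.2 - 1 := mu_step _ _
    omega

theorem Deg_prodL {m : ℕ} {L : List PCode} (h : ∀ p ∈ L, (pcPoly m p).totalDegree ≤ 1) :
    (pcPoly m (pcProdL L)).totalDegree ≤ L.length := by
  induction L with
  | nil =>
    have h1 : pcProdL [] = pcNat 1 := rfl
    rw [h1, Deg_nat]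
    exact Nat.zero_le _
  | cons p L ih =>
    have h1 : pcProdL (p :: L) = pcMul p (pcProdL L) := rfl
    rw [h1, List.length_cons, add_comm]
    exact deg_mul (h p List.mem_cons_self) (ih fun q hq => h q (List.mem_cons_of_mem _ hq))

/-- If `mu S = 0` all lists have at most three elements. -/
theorem deg_flat {m : ℕ} {S : SCode} (h : Deg1 m S) (hmu : mu S = 0) :
    (pcPoly m (flat S)).totalDegree ≤ 3 := by
  induction S with
  | nil =>
    have h1 : flat [] = [] := rfl
    rw [h1]
    simp
  | cons L S ih =>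
    rw [Deg_mu_cons] at hmu
    have h1 : flat (L :: S) = pcProdL L ++ flat S := by
      unfold flat
      rw [List.flatMap_cons]
    rw [h1]
    refine deg_append ?_ (ih (fun M hM => h M (List.mem_cons_of_mem _ hM)) (by omega))
    exact (Deg_prodL (h L List.mem_cons_self)).trans (by omega)

theorem Deg_exL (m : ℕ) (t : QCode × List ℕ) : ∀ p ∈ exL t, (pcPoly m p).totalDegree ≤ 1 := by
  intro p hp
  unfold exL at hp
  rcases List.mem_cons.1 hp with h1 | h1
  · rw [h1, deg_const]
    exact Nat.zero_le _
  · obtain ⟨i, _, hi⟩ := List.mem_flatMap.1 h1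
    rw [List.eq_of_mem_replicate hi]
    exact deg_var m i

theorem Deg_linC (M n m T : ℕ) : (pcPoly M (linC n m T)).totalDegree ≤ 1 := by
  unfold linC
  have h2 : (pcPoly M (pcSumRange m fun i => pcNat 1 ++ pcVar (n + i))).totalDegree ≤ 1 := by
    rw [pcPoly_sumRange]
    refine (totalDegree_finsetSum _ _).trans (Finset.sup_le fun i _ => ?_)
    refine deg_append ?_ (deg_var M _)
    rw [Deg_nat]
    exact Nat.zero_le _
  have h := deg_mul (m := M) (a := 0) (b := 1) (Deg_nat M T).le h2
  simpa using h

theorem deg1_s0C (M n r m : ℕ) (P Q : PCode) (rows : List (List QCode)) :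
    Deg1 M (s0C n r m P Q rows) := by
  intro L hL
  unfold s0C at hL
  rcases List.mem_append.1 hL with h1 | h1
  · obtain ⟨t, _, rfl⟩ := List.mem_map.1 h1
    exact Deg_exL M t
  · obtain ⟨t, _, rfl⟩ := List.mem_map.1 h1
    intro p hp
    rcases List.mem_cons.1 hp with h2 | h2
    · rw [h2]
      exact Deg_linC M _ _ _
    · exact Deg_exL M t p h2

/-- The final polynomial is at most cubic. -/
theorem deg_cubicOf {R : ℕ × PCode × PCode} {c : CC} (hc : cCheck R.1 R.2.1 R.2.2 c) :
    (pcPoly (cubicOf R c).1.1 (cubicOf R c).1.2).totalDegree ≤ 3 := by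
  change (pcPoly (run c.1.1.2 (st0 R c) c.1.1.2).1.1 (flat (run c.1.1.2 (st0 R c) c.1.1.2).1.2)).totalDegree ≤ 3
  refine deg_flat (deg1_run ?_ _) ?_
  · exact deg1_s0C _ _ _ _ _ _ _
  · have h1 := mu_run c.1.1.2 (st0 R c) c.1.1.2
    have h2 : mu (st0 R c).1.2 ≤ c.1.1.2 := hc.2.2
    omega

end Pool.Agent.Lib.MP_bbe012_lc.CV
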