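import Mathlib
import Pool.Agent.Lib.MP_bbe012_lc.CV.Defs
import Pool.Agent.Lib.MP_bbe012_lc.HC.LogB

/-!
# Integrals of truncated powers: one variable, and the disc
-/

namespace Pool.Agent.Lib.MP_bbe012_lc.CV

open MeasureTheory Set HC

theorem pp_nonneg (k : ℕ) (a : ℝ) : 0 ≤ pp k a := by
  unfold pp
  split_ifs with h
  · exact pow_nonneg h.le k
  · exact le_rfl

theorem pp_of_pos {k : ℕ} {a : ℝ} (h : 0 < a) : pp k a = a ^ k := if_pos h

theorem pp_of_nonpos {k : ℕ} {a : ℝ} (h : a ≤ 0) : pp k a = 0 := if_neg (not_lt.mpr h)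

theorem measurable_pp (k : ℕ) : Measurable (pp k) := by
  unfold pp
  exact Measurable.ite measurableSet_Ioi (measurable_id.pow_const k) measurable_const

/-- `|pp k a| ≤ (1 + B)^k` if `|a| ≤ B`. -/
theorem abs_pp_le {k : ℕ} {a B : ℝ} (h : |a| ≤ B) : |pp k a| ≤ (1 + B) ^ k := by
  have hB : 0 ≤ B := (abs_nonneg a).trans h
  rw [abs_of_nonneg (pp_nonneg k a)]
  unfold pp
  split_ifs with ha
  · exact pow_le_pow_left₀ ha.le (by linarith [le_abs_self a]) k
  · positivity

/-- A power is the difference of truncated powers: `a^(k+1) = pp (k+1) a + (-1)^(k+1) pp (k+1) (-a)`. -/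
theorem pow_eq_pp (k : ℕ) (a : ℝ) : a ^ (k + 1) = pp (k + 1) a + (-1) ^ (k + 1) * pp (k + 1) (-a) := by
  rcases lt_trichotomy a 0 with h | h | h
  · rw [pp_of_nonpos h.le, pp_of_pos (neg_pos.mpr h), zero_add, ← mul_pow, neg_one_mul, neg_neg]
  · subst h
    rw [neg_zero, pp_of_nonpos le_rfl]
    simp
  · rw [pp_of_pos h, pp_of_nonpos (neg_nonpos.mpr h.le), mul_zero, add_zero]

/-- Truncated powers of bounded measurable functions are integrable on the cube. -/
theorem integrableOn_pp {n : ℕ} (k : ℕ) {f : (Fin n → ℝ) → ℝ} (hf : Measurable f) {B : ℝ}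
    (hB : ∀ x ∈ cube n, |f x| ≤ B) : IntegrableOn (fun x => pp k (f x)) (cube n) := by
  refine Measure.integrableOn_of_bounded (M := (1 + B) ^ k)
    (by rw [volume_cube]; exact ENNReal.pow_ne_top ENNReal.ofNat_ne_top)
    ((measurable_pp k).comp hf).aestronglyMeasurable ?_
  rw [ae_restrict_iff' isOpen_cube.measurableSet]
  exact Filter.Eventually.of_forall fun x hx => by
    rw [Real.norm_eq_abs]
    exact abs_pp_le (hB x hx)

/-- A polynomial is bounded on the cube by `pcK` (`bd2_pcEval` in HC/BdB.lean, `Bd2` in HC/BdA.lean). -/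
theorem abs_pcEval_le {n : ℕ} (p : PCode) {x : Fin n → ℝ} (hx : x ∈ cube n) :
    |pcEval n p x| ≤ pcK p := by
  obtain ⟨f1, f2, h⟩ := bd2_pcEval n p
  exact (h x hx 0).1

theorem integrableOn_pp_pcEval (n k : ℕ) (p : PCode) :
    IntegrableOn (fun x => pp k (pcEval n p x)) (cube n) :=
  integrableOn_pp k (measurable_pcEval n p) fun _ hx => abs_pcEval_le p hx

/-- One variable. Substitution `τ ↦ T (1 + τ)`: the integral of `pp j (a - b t)` over `(0, 2T)`, divided by `T`; if `a ≤ 0` both sides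
are `0`; if `a > 0` the integrand vanishes for `t ≥ a / b` and `a / b ≤ 2 T`, so it is the integral of `(a - b t)^j` over `(0, a/b)`. -/
theorem integral_pp_line {a b T : ℝ} (hb : 0 < b) (hT : 0 < T) (h : a ≤ 2 * b * T) (j : ℕ) :
    ∫ τ in Ioo (-1 : ℝ) 1, pp j (a - b * (T * (1 + τ))) = 1 / (T * b * (j + 1)) * pp (j + 1) a := by
  have hbT : 0 < b * T := mul_pos hb hT
  rcases le_or_gt a 0 with ha | ha
  · rw [pp_of_nonpos ha, mul_zero]
    refine (setIntegral_congr_fun measurableSet_Ioo fun τ hτ => ?_).trans (integral_zero _ _)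
    refine pp_of_nonpos ?_
    have h1 : 0 ≤ 1 + τ := by linarith [hτ.1]
    have h2 : 0 ≤ b * (T * (1 + τ)) := by positivity
    linarith
  · rw [pp_of_pos ha]
    -- the point where the argument vanishes
    have hs0 : -1 < a / (b * T) - 1 := by
      have : 0 < a / (b * T) := div_pos ha hbT
      linarith
    have hs1 : a / (b * T) - 1 ≤ 1 := by
      have : a / (b * T) ≤ 2 := by
        rw [div_le_iff₀ hbT]
        linarith
      linarith
    have hval : ∀ τ : ℝ, 0 < a - b * (T * (1 + τ)) ↔ τ < a / (b * T) - 1 := by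
      intro τ
      have e : τ < a / (b * T) - 1 ↔ (τ + 1) * (b * T) < a := by
        rw [← lt_div_iff₀ hbT]
        exact lt_sub_iff_add_lt
      rw [e]
      constructor <;> intro h' <;> nlinarith
    have h1 : ∫ τ in Ioo (-1 : ℝ) 1, pp j (a - b * (T * (1 + τ)))
        = ∫ τ in Ioo (-1 : ℝ) (a / (b * T) - 1), (a - b * (T * (1 + τ))) ^ j := by
      rw [← integral_indicator measurableSet_Ioo, ← integral_indicator measurableSet_Ioo]
      refine integral_congr_ae (Filter.Eventually.of_forall fun τ => ?_)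
      simp only [indicator, mem_Ioo]
      by_cases h3 : τ < a / (b * T) - 1
      · by_cases h4 : -1 < τ
        · rw [if_pos ⟨h4, h3.trans_le hs1⟩, if_pos ⟨h4, h3⟩, pp_of_pos ((hval τ).2 h3)]
        · rw [if_neg fun h5 => h4 h5.1, if_neg fun h5 => h4 h5.1]
      · rw [if_neg (c := -1 < τ ∧ τ < a / (b * T) - 1) fun h5 => h3 h5.2]
        split_ifs with h6
        · exact pp_of_nonpos (not_lt.mp fun h7 => h3 ((hval τ).1 h7))
        · rfl
    rw [h1, ← integral_Ioc_eq_integral_Ioo, ← intervalIntegral.integral_of_le hs0.le]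
    have hd : ∀ τ ∈ uIcc (-1 : ℝ) (a / (b * T) - 1),
        HasDerivAt (fun τ : ℝ => -(1 / (b * T * (j + 1))) * (a - b * (T * (1 + τ))) ^ (j + 1))
          ((a - b * (T * (1 + τ))) ^ j) τ := by
      intro τ _
      have h2 : HasDerivAt (fun τ : ℝ => a - b * (T * (1 + τ))) (-(b * (T * 1))) τ :=
        (((hasDerivAt_id τ).const_add 1).const_mul T |>.const_mul b).const_sub a
      have h3 := (h2.pow (j + 1)).const_mul (-(1 / (b * T * (j + 1))))
      refine h3.congr_deriv ?_
      have hj : (j : ℝ) + 1 ≠ 0 := by positivity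
      have hb' : b ≠ 0 := hb.ne'
      have hT' : T ≠ 0 := hT.ne'
      push_cast
      field_simp
    have hc : Continuous fun τ : ℝ => (a - b * (T * (1 + τ))) ^ j := by fun_prop
    rw [intervalIntegral.integral_eq_sub_of_hasDerivAt hd (hc.intervalIntegrable _ _)]
    have hb' : b ≠ 0 := hb.ne'
    have hT' : T ≠ 0 := hT.ne'
    have e1 : a - b * (T * (1 + (a / (b * T) - 1))) = 0 := by
      field_simp
      ring
    have e2 : a - b * (T * (1 + -1)) = a := by ring
    rw [e1, e2, zero_pow (Nat.succ_ne_zero j), mul_zero, zero_sub, neg_mul, neg_neg, mul_comm b T]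

end Pool.Agent.Lib.MP_bbe012_lc.CV
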