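import Mathlib
import Pool.Agent.Lib.MP_bbe012_lc.HC.CertB

/-!
# A linear recurrence for the integrals of `P h^(t + i)`
-/

namespace Pool.Agent.Lib.MP_bbe012_lc.CV

open MvPolynomial HC

variable {n : ℕ}

/-- A recurrence: `∑ i ≤ D, c_i(t) P h^(t-1+i)` is a divergence, `c_0 ≠ 0`, `D ≥ 1`.
`exact_combination h0` (Ident2.lean) gives `r`; apply it to `w i = hP P * hP h ^ i`, `κ i = 0`: get `c`, `b ≠ 0`, `K`, `g` with
`β(b) ∑ i, β(c_i) (P h^i) h^(K+1) = divg h K g` and some `c_i ≠ 0`. Let `C_i = b * c_i` (`0` for `i > r`) and `i0` the least `i` with `C_i ≠ 0` (`Nat.find`).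
Apply `shiftP e` with `e = -(i0 + 1)` (CertA.lean: `shiftP_beta, shiftP_hP, CertA_mul, CertA_pow, CertA_sum, shiftP_divg` with `K' = K + i0 + 1`). The result is
the statement with `c_i := (C_(i+i0)).comp (X + C e)`, `D := r + 1` (the coefficients with large index are `0`), `K := K + i0 + 1`. Nonzero: `comp_X_add_C_eq_zero_iff`. -/
theorem exists_rec {h : MvPolynomial (Fin n) ℚ} (h0 : h ≠ 0) (P : MvPolynomial (Fin n) ℚ) :
    ∃ (D : ℕ) (c : ℕ → Polynomial ℚ) (K : ℕ) (g : Fin n → Pt n), 1 ≤ D ∧ c 0 ≠ 0 ∧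
      (∑ i ∈ Finset.range (D + 1), beta n (c i) * (hP P * hP h ^ i)) * hP h ^ K =
        divg h K g := by
  classical
  obtain ⟨r, hr⟩ := exact_combination h0
  obtain ⟨c0, ⟨j0, hj0⟩, b, hb, K, -, g, hg⟩ := hr (fun i => hP P * hP h ^ (i : ℕ)) (fun _ => 0)
  obtain ⟨C0, hC0⟩ : ∃ C0 : ℕ → Polynomial ℚ,
      C0 = fun i => if hi : i < r + 1 then b * c0 ⟨i, hi⟩ else 0 := ⟨_, rfl⟩
  have hC1 : ∀ i : Fin (r + 1), C0 i = b * c0 i := by
    intro i
    rw [hC0]
    exact dif_pos i.2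
  have hC2 : ∀ i, r + 1 ≤ i → C0 i = 0 := by
    intro i hi
    rw [hC0]
    exact dif_neg (not_lt.mpr hi)
  have hex : ∃ i, C0 i ≠ 0 := by
    refine ⟨j0, ?_⟩
    rw [hC1]
    refine mul_ne_zero hb fun h1 => hj0 ?_
    rw [h1, Polynomial.coeff_zero]
  obtain ⟨i0, hi0, hmin⟩ : ∃ i0, C0 i0 ≠ 0 ∧ ∀ i < i0, C0 i = 0 :=
    ⟨Nat.find hex, Nat.find_spec hex, fun i hi => not_not.mp (Nat.find_min hex hi)⟩
  have hi0r : i0 < r + 1 := by
    by_contra h1
    exact hi0 (hC2 i0 (not_lt.mp h1))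
  -- the identity as a sum over a range
  have h1 : (∑ i ∈ Finset.range (r + 1), beta n (C0 i) * (hP P * hP h ^ i)) * hP h ^ (K + 1) =
      divg h K g := by
    rw [← hg, Finset.sum_range, Finset.sum_mul, Finset.mul_sum]
    refine Finset.sum_congr rfl fun i _ => ?_
    rw [hC1, map_mul, Nat.sub_zero]
    ring
  have h2 : ∑ i ∈ Finset.range (r + 1), beta n (C0 i) * (hP P * hP h ^ i) =
      (∑ j ∈ Finset.range (r + 2), beta n (C0 (i0 + j)) * (hP P * hP h ^ j)) * hP h ^ i0 := by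
    have e1 : ∑ i ∈ Finset.range (r + 1), beta n (C0 i) * (hP P * hP h ^ i) =
        ∑ i ∈ Finset.range (i0 + (r + 2)), beta n (C0 i) * (hP P * hP h ^ i) := by
      refine Finset.sum_subset (Finset.range_subset_range.mpr (by omega)) fun i _ hi => ?_
      rw [hC2 i (not_lt.mp fun h3 => hi (Finset.mem_range.mpr h3)), map_zero, zero_mul]
    rw [e1, Finset.sum_range_add, Finset.sum_eq_zero (s := Finset.range i0), zero_add,
      Finset.sum_mul]
    · refine Finset.sum_congr rfl fun j _ => ?_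
      rw [pow_add]
      ring
    · intro i hi
      rw [hmin i (Finset.mem_range.mp hi), map_zero, zero_mul]
  rw [h2] at h1
  have h3 := congrArg (shiftP (-((i0 : ℚ) + 1))) h1
  have hK : ((K : ℕ) : ℚ) = ((K + i0 + 1 : ℕ) : ℚ) + (-((i0 : ℚ) + 1)) := by
    push_cast
    ring
  rw [shiftP_divg hK] at h3
  simp only [CertA_mul, CertA_pow, CertA_sum, shiftP_hP, shiftP_beta] at h3
  refine ⟨r + 1, fun j => (C0 (i0 + j)).comp (Polynomial.X + Polynomial.C (-((i0 : ℚ) + 1))),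
    K + i0 + 1, fun l => shiftP (-((i0 : ℚ) + 1)) (g l), by omega, ?_, ?_⟩
  · intro h4
    exact hi0 (Polynomial.comp_X_add_C_eq_zero_iff.mp h4)
  · rw [← h3, mul_assoc, ← pow_add]
    congr 2
    omega

/-- The recurrence translated by `M`: multiply by `h^M` (`divg_shift`, Codim.lean) and replace `t` by `t + M` (`shiftP M`, `shiftP_divg` with
`K + M = K + M` : the divergence `divg h (K + M) (g h^M)` becomes `divg h K (shiftP M ...)`). -/
theorem rec_shift {h P : MvPolynomial (Fin n) ℚ} {D : ℕ} {c : ℕ → Polynomial ℚ} {K : ℕ}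
    {g : Fin n → Pt n}
    (hr : (∑ i ∈ Finset.range (D + 1), beta n (c i) * (hP P * hP h ^ i)) * hP h ^ K =
      divg h K g) (M : ℕ) :
    ∃ g' : Fin n → Pt n,
      (∑ i ∈ Finset.range (D + 1), beta n ((c i).comp (Polynomial.X + Polynomial.C (M : ℚ))) *
        (hP P * hP h ^ (i + M))) * hP h ^ K = divg h K g' := by
  refine ⟨fun l => shiftP (M : ℚ) (g l * hP h ^ M), ?_⟩
  have h1 := congrArg (fun F => shiftP (M : ℚ) (F * hP h ^ M)) hr
  beta_reduce at h1
  rw [← divg_shift, shiftP_divg (show ((K + M : ℕ) : ℚ) = (K : ℚ) + (M : ℚ) by push_cast; ring)] at h1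
  simp only [CertA_mul, CertA_pow, CertA_sum, shiftP_hP, shiftP_beta] at h1
  simp only [CertA_mul, CertA_pow, shiftP_hP]
  rw [← h1, Finset.sum_mul, Finset.sum_mul, Finset.sum_mul]
  refine Finset.sum_congr rfl fun i _ => ?_
  rw [pow_add]
  ring

/-- Induction on `M`. `M = 0`: `ρ_0 = 1`, the others `0`, `K = 0`, `g = 0` (`D ≥ 1`). Step: from
`β(b_M) P h^K' = P (∑ i < D, β(ρ_i) h^i) h^(M+K') + divg h K' g'` and `rec_shift` (with `c'_i = c_i(t + M)`), multiply the first by `β(c'_0) h^K`: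
`c'_0 ρ_0 P h^M = - ρ_0 ∑ 1 ≤ i ≤ D, c'_i P h^(i+M) + divergence`, so the new coefficients are `ρ'_i = c'_0 ρ_(i+1) - ρ_0 c'_(i+1)` for `i + 1 < D` and
`ρ'_(D-1) = - ρ_0 c'_D`; the new `K` is `K' + K`. `divg_shift, divg_smul, divg_add` (see `chain` in HC/CertB.lean for a model). -/
theorem rec_chain {h P : MvPolynomial (Fin n) ℚ} {D : ℕ} (hD : 1 ≤ D) {c : ℕ → Polynomial ℚ} {K : ℕ}
    {g : Fin n → Pt n}
    (hr : (∑ i ∈ Finset.range (D + 1), beta n (c i) * (hP P * hP h ^ i)) * hP h ^ K =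
      divg h K g) (M : ℕ) :
    ∃ (ρ : ℕ → Polynomial ℚ) (K' : ℕ) (g' : Fin n → Pt n),
      beta n (∏ l ∈ Finset.range M, (c 0).comp (Polynomial.X + Polynomial.C (l : ℚ))) * hP P *
          hP h ^ K' =
        (hP P * ∑ i ∈ Finset.range D, beta n (ρ i) * hP h ^ i) * hP h ^ (M + K') +
          divg h K' g' := by
  obtain ⟨D', rfl⟩ : ∃ D', D = D' + 1 := ⟨D - 1, by omega⟩
  induction M with
  | zero =>
    refine ⟨fun i => if i = 0 then 1 else 0, 0, 0, ?_⟩
    rw [divg_zero, Finset.range_zero, Finset.prod_empty, Finset.sum_range_succ',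
      Finset.sum_eq_zero (s := Finset.range D')]
    · simp
    · intro i _
      simp
  | succ M ih =>
    obtain ⟨ρ, K1, g1, h1⟩ := ih
    obtain ⟨g2, h2⟩ := rec_shift hr M
    obtain ⟨c', hc'⟩ : ∃ c' : ℕ → Polynomial ℚ,
        c' = fun i => (c i).comp (Polynomial.X + Polynomial.C (M : ℚ)) := ⟨_, rfl⟩
    have hc'i : ∀ i, (c i).comp (Polynomial.X + Polynomial.C (M : ℚ)) = c' i := fun i => by rw [hc']
    simp only [hc'i] at h2
    refine ⟨fun i => (if i < D' then c' 0 * ρ (i + 1) else 0) - ρ 0 * c' (i + 1), K1 + K,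
      (fun l => beta n (c' 0) * (g1 l * hP h ^ K)) + (fun l => beta n (ρ 0) * (g2 l * hP h ^ K1)), ?_⟩
    have h3 : divg h (K1 + K) (fun l => g2 l * hP h ^ K1) = divg h K g2 * hP h ^ K1 := by
      rw [add_comm K1 K]
      exact divg_shift h K K1 g2
    -- the new sum
    have h4 : hP h * ∑ i ∈ Finset.range (D' + 1),
        beta n ((if i < D' then c' 0 * ρ (i + 1) else 0) - ρ 0 * c' (i + 1)) * hP h ^ i =
        beta n (c' 0) * (∑ i ∈ Finset.range (D' + 1), beta n (ρ i) * hP h ^ i) -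
          beta n (ρ 0) * (∑ i ∈ Finset.range (D' + 1 + 1), beta n (c' i) * hP h ^ i) := by
      have e1 : ∀ i, beta n ((if i < D' then c' 0 * ρ (i + 1) else 0) - ρ 0 * c' (i + 1)) * hP h ^ i =
          (if i < D' then beta n (c' 0) * (beta n (ρ (i + 1)) * hP h ^ i) else 0) -
            beta n (ρ 0) * (beta n (c' (i + 1)) * hP h ^ i) := by
        intro i
        split_ifs
        · rw [map_sub, map_mul, map_mul]
          ring
        · rw [map_sub, map_zero, map_mul]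
          ring
      rw [Finset.sum_congr rfl fun i _ => e1 i, Finset.sum_sub_distrib,
        Finset.sum_range_succ (fun i => if i < D' then
          beta n (c' 0) * (beta n (ρ (i + 1)) * hP h ^ i) else 0) D', if_neg (lt_irrefl D'), add_zero,
        Finset.sum_congr rfl fun i hi => if_pos (Finset.mem_range.mp hi),
        Finset.sum_range_succ' (fun i => beta n (ρ i) * hP h ^ i) D',
        Finset.sum_range_succ' (fun i => beta n (c' i) * hP h ^ i) (D' + 1)]
      rw [← Finset.mul_sum, ← Finset.mul_sum]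
      have e2 : ∀ (s : Finset ℕ) (f : ℕ → Polynomial ℚ),
          ∑ i ∈ s, beta n (f (i + 1)) * hP h ^ (i + 1) =
            hP h * ∑ i ∈ s, beta n (f (i + 1)) * hP h ^ i := by
        intro s f
        rw [Finset.mul_sum]
        refine Finset.sum_congr rfl fun i _ => ?_
        rw [pow_succ]
        ring
      rw [e2, e2]
      ring
    -- the recurrence
    have h5 : hP P * (∑ i ∈ Finset.range (D' + 1 + 1), beta n (c' i) * hP h ^ i) * hP h ^ (M + K) =
        divg h K g2 := by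
      rw [← h2, Finset.mul_sum, Finset.sum_mul, Finset.sum_mul]
      refine Finset.sum_congr rfl fun i _ => ?_
      rw [pow_add, pow_add]
      ring
    rw [← divg_add, divg_smul, divg_shift, divg_smul, h3, Finset.prod_range_succ, map_mul, hc'i]
    obtain ⟨S1, hS1⟩ : ∃ S1, S1 = ∑ i ∈ Finset.range (D' + 1),
        beta n ((if i < D' then c' 0 * ρ (i + 1) else 0) - ρ 0 * c' (i + 1)) * hP h ^ i := ⟨_, rfl⟩
    obtain ⟨S2, hS2⟩ : ∃ S2, S2 = ∑ i ∈ Finset.range (D' + 1), beta n (ρ i) * hP h ^ i := ⟨_, rfl⟩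
    obtain ⟨S3, hS3⟩ : ∃ S3, S3 = ∑ i ∈ Finset.range (D' + 1 + 1), beta n (c' i) * hP h ^ i :=
      ⟨_, rfl⟩
    rw [← hS1, ← hS2, ← hS3] at h4
    rw [← hS2] at h1
    rw [← hS3] at h5
    rw [← hS1]
    linear_combination (beta n (c' 0) * hP h ^ K) * h1 -
      (hP P * hP h ^ (M + K1 + K)) * h4 + (beta n (ρ 0) * hP h ^ K1) * h5

/-- The order of the product at `t = 0` is at most the degree (`natTrailingDegree_prodB` in HC/CertB.lean with `b = c.comp (X + C 1)`, `k = 0`, or copy the proof). -/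
theorem natTrailingDegree_prod {c : Polynomial ℚ} (hc : c ≠ 0) (M : ℕ) :
    (∏ l ∈ Finset.range M, c.comp (Polynomial.X + Polynomial.C (l : ℚ))).natTrailingDegree ≤
      c.natDegree ∧
    (∏ l ∈ Finset.range M, c.comp (Polynomial.X + Polynomial.C (l : ℚ))) ≠ 0 := by
  obtain ⟨b, hb⟩ : ∃ b : Polynomial ℚ, b = c.comp (Polynomial.X + Polynomial.C 1) := ⟨_, rfl⟩
  have hb0 : b ≠ 0 := by
    intro h1
    rw [hb] at h1
    exact hc (Polynomial.comp_X_add_C_eq_zero_iff.mp h1)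
  have h1 : ∀ l : ℕ, c.comp (Polynomial.X + Polynomial.C (l : ℚ)) = bsh b 0 l := by
    intro l
    rw [bsh, hb, Polynomial.comp_assoc]
    congr 1
    rw [Polynomial.add_comp, Polynomial.X_comp, Polynomial.C_comp, add_assoc, ← Polynomial.C_add]
    congr 2
    push_cast
    ring
  have h2 : (∏ l ∈ Finset.range M, c.comp (Polynomial.X + Polynomial.C (l : ℚ))) = prodB b 0 M := by
    rw [prodB]
    exact Finset.prod_congr rfl fun l _ => h1 l
  have h3 : b.natDegree = c.natDegree := by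
    rw [hb, Polynomial.natDegree_comp, Polynomial.natDegree_X_add_C, mul_one]
  rw [h2]
  refine ⟨?_, prodB_ne_zero hb0 0 M⟩
  rw [← h3]
  exact natTrailingDegree_prodB hb0 0 M

/-- Certificates of bounded complexity for all `N`. `r := (c 0).natDegree`. For given `N` take `rec_chain` with `M = N + 1`, `b` the product; `normalise`
(Check.lean): `C a * b = X ^ b.natTrailingDegree * (1 + X * A)`; multiply by `β(C a * X ^ (r - b.natTrailingDegree))` (`divg_smul`). -/
theorem exists_special {h : MvPolynomial (Fin n) ℚ} (h0 : h ≠ 0) (P : MvPolynomial (Fin n) ℚ) :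
    ∃ r D : ℕ, ∀ N : ℕ, ∃ (K : ℕ) (A : Polynomial ℚ) (ρ : ℕ → Polynomial ℚ) (g : Fin n → Pt n),
      beta n (Polynomial.X ^ r * (1 + Polynomial.X * A)) * hP P * hP h ^ K =
        (hP P * ∑ i ∈ Finset.range D, beta n (ρ i) * hP h ^ i) * hP h ^ (N + 1 + K) +
          divg h K g := by
  obtain ⟨D, c, K0, g0, hD, hc0, hr⟩ := exists_rec h0 P
  refine ⟨(c 0).natDegree, D, fun N => ?_⟩
  obtain ⟨ρ, K, g, hid⟩ := rec_chain hD hr (N + 1)
  obtain ⟨hdeg, hne⟩ := natTrailingDegree_prod hc0 (N + 1)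
  obtain ⟨b, hb⟩ : ∃ b : Polynomial ℚ,
    b = ∏ l ∈ Finset.range (N + 1), (c 0).comp (Polynomial.X + Polynomial.C (l : ℚ)) := ⟨_, rfl⟩
  rw [← hb] at hid hdeg hne
  obtain ⟨a, A, hA⟩ := normalise hne
  obtain ⟨s, hs⟩ := Nat.exists_eq_add_of_le hdeg
  have h1 : Polynomial.X ^ (c 0).natDegree * (1 + Polynomial.X * A) =
      (Polynomial.C a * Polynomial.X ^ s) * b := by
    rw [hs, pow_add]
    linear_combination (-(Polynomial.X ^ s : Polynomial ℚ)) * hA
  refine ⟨K, A, fun i => (Polynomial.C a * Polynomial.X ^ s) * ρ i,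
    fun l => beta n (Polynomial.C a * Polynomial.X ^ s) * g l, ?_⟩
  rw [h1, divg_smul, map_mul (beta n) (Polynomial.C a * Polynomial.X ^ s) b]
  have h2 : ∑ i ∈ Finset.range D, beta n ((Polynomial.C a * Polynomial.X ^ s) * ρ i) * hP h ^ i =
      beta n (Polynomial.C a * Polynomial.X ^ s) *
        ∑ i ∈ Finset.range D, beta n (ρ i) * hP h ^ i := by
    rw [Finset.mul_sum]
    refine Finset.sum_congr rfl fun i _ => ?_
    rw [map_mul (beta n) (Polynomial.C a * Polynomial.X ^ s) (ρ i)]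
    ring
  rw [h2]
  linear_combination (beta n (Polynomial.C a * Polynomial.X ^ s)) * hid

end Pool.Agent.Lib.MP_bbe012_lc.CV
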