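import Mathlib
import Pool.Agent.Lib.MP_bbe012_lc.CV.Defs

/-!
# The number of rounds depends only on the exponents
-/

namespace Pool.Agent.Lib.MP_bbe012_lc.CV

open HC

/-- Two codes have the same lists of exponents. -/
def Sh (p q : PCode) : Prop := p.map Prod.snd = q.map Prod.snd

theorem Sh.refl (p : PCode) : Sh p p := rfl

theorem Sh.append {p q p' q' : PCode} (h : Sh p p') (h' : Sh q q') : Sh (p ++ q) (p' ++ q') := by
  unfold Sh at *
  rw [List.map_append, List.map_append, h, h']

theorem Shape_neg (p : PCode) : (pcNeg p).map Prod.snd = p.map Prod.snd := by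
  unfold pcNeg
  rw [List.map_map]
  rfl

theorem Sh.neg {p p' : PCode} (h : Sh p p') : Sh (pcNeg p) (pcNeg p') := by
  unfold Sh at *
  rw [Shape_neg, Shape_neg, h]

theorem Shape_mul (p q : PCode) : (pcMul p q).map Prod.snd =
    (p.map Prod.snd).flatMap fun e => (q.map Prod.snd).map (expAdd e) := by
  unfold pcMul
  rw [List.map_flatMap, List.flatMap_map]
  refine congrArg (fun f => List.flatMap f p) (funext fun s => ?_)
  rw [List.map_map, List.map_map]
  rfl

/-- The exponents of a product: `(pcMul p q).map Prod.snd = (p.map Prod.snd).flatMap fun e => (q.map Prod.snd).map (expAdd e)`. -/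
theorem Sh.mul {p q p' q' : PCode} (h : Sh p p') (h' : Sh q q') : Sh (pcMul p q) (pcMul p' q') := by
  unfold Sh at *
  rw [Shape_mul, Shape_mul, h, h']

theorem Sh.pow {p p' : PCode} (h : Sh p p') (k : ℕ) : Sh (pcPow p k) (pcPow p' k) := by
  induction k with
  | zero => exact Sh.refl _
  | succ k ih => exact Sh.mul h ih

theorem Sh.const (c c' : QCode) : Sh [(c, [])] [(c', [])] := rfl

theorem Sh.nat (k k' : ℕ) : Sh (pcNat k) (pcNat k') := rfl

theorem Sh.sumRange {R : ℕ} {g g' : ℕ → PCode} (h : ∀ i, Sh (g i) (g' i)) :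
    Sh (pcSumRange R g) (pcSumRange R g') := by
  have key : ∀ L : List ℕ, Sh (L.foldr (fun l acc => g l ++ acc) []) (L.foldr (fun l acc => g' l ++ acc) []) := by
    intro L
    induction L with
    | nil => exact Sh.refl _
    | cons a L ih => exact Sh.append (h a) ih
  exact key _

/-- The number of rounds for a polynomial: a term with exponents `e` has `1 + ∑ e` factors. -/
theorem mu_map_exL {p p' : PCode} (h : Sh p p') : mu (p.map exL) = mu (p'.map exL) := by
  have key : ∀ p : PCode, mu (p.map exL) =
      ((p.map Prod.snd).map fun e => (exL (qnat 0, e)).length - 3).sum := by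
    intro p
    unfold mu
    rw [List.map_map, List.map_map]
    rfl
  rw [key, key]
  unfold Sh at h
  rw [h]

theorem mu_map_cons_exL {p p' : PCode} (l l' : PCode) (h : Sh p p') :
    mu (p.map fun t => l :: exL t) = mu (p'.map fun t => l' :: exL t) := by
  have key : ∀ (l : PCode) (p : PCode), mu (p.map fun t => l :: exL t) =
      ((p.map Prod.snd).map fun e => ((exL (qnat 0, e)).length + 1) - 3).sum := by
    intro l p
    unfold mu
    rw [List.map_map, List.map_map]
    rfl
  rw [key, key]
  unfold Sh at h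
  rw [h]

theorem mu_append (S S' : SCode) : mu (S ++ S') = mu S + mu S' := by
  unfold mu
  rw [List.map_append, List.sum_append]

/-- The number of rounds depends only on the number of the rows. -/
theorem mu_s0C_congr (n r m m' : ℕ) (P Q : PCode) {rows rows' : List (List QCode)}
    (h : rows.length = rows'.length) :
    mu (s0C n r m P Q rows) = mu (s0C n r m' P Q rows') := by
  have hv : ∀ j, Sh (vC n r P Q rows j) (vC n r P Q rows' j) := by
    intro j
    unfold vC
    rw [h]
    exact Sh.mul (Sh.refl _) (Sh.mul (Sh.refl _) (Sh.sumRange fun i =>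
      Sh.mul (Sh.const _ _) (Sh.refl _)))
  have h1 : Sh (a1C n r P Q rows) (a1C n r P Q rows') :=
    Sh.sumRange fun j => Sh.mul (hv j) (Sh.refl _)
  have h2 : Sh (a2C n r P Q rows) (a2C n r P Q rows') :=
    Sh.append (Sh.mul (Sh.nat _ _) (Sh.refl _)) (Sh.mul (Sh.refl _) h1)
  have h3 : Sh (g1C n r P Q rows) (g1C n r P Q rows') :=
    Sh.append (Sh.mul (Sh.refl _) h2)
      (Sh.neg (Sh.mul (Sh.refl _) (Sh.mul (Sh.nat _ _) (Sh.refl _))))
  have h4 : Sh (g2C n r P Q rows) (g2C n r P Q rows') := Sh.neg (Sh.mul h2 h2)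
  unfold s0C
  rw [mu_append, mu_append, mu_map_exL h3, mu_map_cons_exL _ _ h4]

end Pool.Agent.Lib.MP_bbe012_lc.CV
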