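import Mathlib
import Pool.Agent.Lib.MP_bbe012_lc.CV.Rec
import Pool.Agent.Lib.MP_bbe012_lc.CV.Shape
import Pool.Agent.Lib.MP_bbe012_lc.HC.Eval

/-!
# The certificates of bounded complexity
-/

namespace Pool.Agent.Lib.MP_bbe012_lc.CV

open MvPolynomial HC

/-- The polynomial in `t` with the given coefficients. -/
noncomputable def rowP (row : List QCode) : Polynomial ℚ :=
  ∑ j ∈ Finset.range row.length, Polynomial.monomial j (qval (row.getD j (qnat 0)))

theorem coeff_rowP (row : List QCode) (k : ℕ) : (rowP row).coeff k = qval (row.getD k (qnat 0)) := by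
  rw [rowP, Polynomial.finsetSum_coeff]
  simp only [Polynomial.coeff_monomial]
  rw [Finset.sum_ite_eq']
  split_ifs with h
  · rfl
  · rw [Finset.mem_range, not_lt] at h
    rw [List.getD_eq_default _ _ h, qval_qnat, Nat.cast_zero]

theorem exists_rowP (ρ : Polynomial ℚ) : ∃ row, rowP row = ρ := by
  choose f hf using exists_qval
  refine ⟨(List.range (ρ.natDegree + 1)).map fun j => f (ρ.coeff j), ?_⟩
  ext k
  rw [coeff_rowP]
  by_cases hk : k < ρ.natDegree + 1
  · rw [List.getD_eq_getElem?_getD, List.getElem?_map, List.getElem?_range hk]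
    exact hf _
  · rw [List.getD_eq_default _ _ (by simpa using hk), qval_qnat, Nat.cast_zero,
      Polynomial.coeff_eq_zero_of_natDegree_lt (by omega)]

/-- `pcPoly_sumRange` (DerCode.lean); the term `(c, replicate n 0 ++ [j])` is `C (qval c) * X_last ^ j = β (monomial j (qval c))`. -/
theorem pcPoly_rowC (n : ℕ) (row : List QCode) : pcPoly (n + 1) (rowC n row) = beta n (rowP row) := by
  rw [rowC, pcPoly_sumRange, rowP, map_sum, Finset.sum_range]
  refine Finset.sum_congr rfl fun j _ => ?_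
  have h1 : ([(row.getD (j : ℕ) (qnat 0), List.replicate n 0 ++ [(j : ℕ)])] : PCode) =
      pcShift n 1 [(row.getD (j : ℕ) (qnat 0), [(j : ℕ)])] := rfl
  have h2 : polyOf [(row.getD (j : ℕ) (qnat 0), [(j : ℕ)])] =
      Polynomial.monomial (j : ℕ) (qval (row.getD (j : ℕ) (qnat 0))) := by
    simp [polyOf, Polynomial.C_mul_X_pow_eq_monomial]
  rw [h1, pcPoly_shift_beta, h2]

/-- `pcPoly_mul`, `pcPoly_sumRange`, `pcPoly_trunc_hP` (DerCode.lean), `pcPoly_pow`. -/
theorem pcPoly_wC (n : ℕ) (P Q : PCode) (rows : List (List QCode)) :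
    pcPoly (n + 1) (wC n P Q rows) = hP (pcPoly n P) *
      ∑ i ∈ Finset.range rows.length, beta n (rowP (rows.getD i [])) * hP (pcPoly n Q) ^ i := by
  rw [wC, pcPoly_mul, pcPoly_trunc_hP, pcPoly_sumRange, Finset.sum_range]
  congr 1
  refine Finset.sum_congr rfl fun i _ => ?_
  rw [pcPoly_mul, pcPoly_pow, pcPoly_trunc_hP, pcPoly_rowC]

/-- The coefficient of `t^k`. Both `∑ k < R, t^k * pcEval n (coefT n k w) x` (`pcEval_coefT` in HC/Eval.lean) and
`P(x) ∑ i, ρ_i(t) Q(x)^i` (from `pcPoly_wC`, `evT_mul, evT_hP, evT_beta` in Region.lean) are equal for all real `t`; compare the coefficients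
(two polynomials in `t` with the same values, `Polynomial.funext`). -/
theorem pcEval_coefT_wC (n k : ℕ) (P Q : PCode) (rows : List (List QCode)) (x : Fin n → ℝ) :
    pcEval n (coefT n k (wC n P Q rows)) x = pcEval n P x *
      ∑ i ∈ Finset.range rows.length, (qval (cf rows i k) : ℝ) * pcEval n Q x ^ i := by
  set w := wC n P Q rows with hw
  have hR : pcDeg w < pcDeg w + k + 1 := by omega
  have h1 := fun t : ℝ => pcEval_coefT n w hR x t
  have h2 : ∀ t : ℝ, pcEval (n + 1) w (Fin.snoc x t : Fin (n + 1) → ℝ) = pcEval n P x *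
      ∑ i ∈ Finset.range rows.length,
        Polynomial.aeval t (rowP (rows.getD i [])) * pcEval n Q x ^ i := by
    intro t
    have e1 : pcEval (n + 1) w (Fin.snoc x t : Fin (n + 1) → ℝ) =
        evT (pcPoly (n + 1) w) t x := rfl
    rw [e1, hw, pcPoly_wC, evT_mul, evT_hP]
    have e2 : evT (∑ i ∈ Finset.range rows.length,
        beta n (rowP (rows.getD i [])) * hP (pcPoly n Q) ^ i) t x =
        ∑ i ∈ Finset.range rows.length,
          evT (beta n (rowP (rows.getD i [])) * hP (pcPoly n Q) ^ i) t x := by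
      unfold evT; exact map_sum _ _ _
    rw [e2]
    have e3 : evR (pcPoly n P) x = pcEval n P x := rfl
    rw [e3]
    congr 1
    refine Finset.sum_congr rfl fun i _ => ?_
    rw [evT_mul, evT_pow, evT_hP, evT_beta]
    rfl
  have h3 : (∑ j ∈ Finset.range (pcDeg w + k + 1),
      Polynomial.C (pcEval n (coefT n j w) x) * Polynomial.X ^ j : Polynomial ℝ) =
      Polynomial.C (pcEval n P x) * ∑ i ∈ Finset.range rows.length,
        Polynomial.C (pcEval n Q x ^ i) *
          (rowP (rows.getD i [])).map (algebraMap ℚ ℝ) := by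
    refine Polynomial.funext fun t => ?_
    rw [Polynomial.eval_finsetSum, Polynomial.eval_mul, Polynomial.eval_finsetSum,
      Polynomial.eval_C]
    have e4 : ∀ i, Polynomial.eval t (Polynomial.C (pcEval n Q x ^ i) *
        (rowP (rows.getD i [])).map (algebraMap ℚ ℝ)) =
        Polynomial.aeval t (rowP (rows.getD i [])) * pcEval n Q x ^ i := by
      intro i
      rw [Polynomial.eval_mul, Polynomial.eval_C, Polynomial.eval_map_algebraMap, mul_comm]
    simp only [e4]
    rw [← h2 t, h1 t]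
    refine Finset.sum_congr rfl fun j _ => ?_
    rw [Polynomial.eval_mul, Polynomial.eval_C, Polynomial.eval_pow, Polynomial.eval_X, mul_comm]
  have h4 := congrArg (fun p => Polynomial.coeff p k) h3
  simp only [Polynomial.finsetSum_coeff, Polynomial.coeff_C_mul, Polynomial.coeff_X_pow,
    Polynomial.coeff_map, coeff_rowP] at h4
  have h5 : (∑ j ∈ Finset.range (pcDeg w + k + 1),
      pcEval n (coefT n j w) x * (if k = j then (1 : ℝ) else 0)) =
      pcEval n (coefT n k w) x := by
    simp only [mul_ite, mul_one, mul_zero]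
    rw [Finset.sum_ite_eq, if_pos (Finset.mem_range.mpr (by omega))]
  rw [h5] at h4
  rw [h4]
  congr 1
  refine Finset.sum_congr rfl fun i _ => ?_
  rw [mul_comm]
  rfl

theorem Cert_const (m : ℕ) (c : QCode) (z : Fin m → ℝ) :
    pcEval m [(c, [])] z = (qval c : ℝ) := by
  rw [pcEval_cons, pcEval_nil]
  simp

/-- `pcEval_aCode`, `pcEval_wTerm`, `pcEval_cst`, `Eval_sumRange`, `Eval_trunc` (HC/Eval.lean), `pcEval_coefT_wC`; expand `a1C`, `vC`. -/
theorem pcEval_aCode_wC (n r N : ℕ) (P Q : PCode) (rows : List (List QCode)) (z : Fin (n + r) → ℝ) :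
    pcEval (n + r) (aCode n r N Q (wC n P Q rows)) z =
      pcEval (n + r) (pcTrunc n Q) z ^ N * pcEval (n + r) (a1C n r P Q rows) z := by
  have hv : ∀ j, pcEval (n + r) (vC n r P Q rows j) z =
      pcEval (n + r) (wTerm n r (wC n P Q rows) j) z := by
    intro j
    rw [pcEval_wTerm, pcEval_coefT_wC, vC, pcEval_mul, pcEval_mul, pcEval_cst, Eval_sumRange,
      Eval_trunc]
    congr 2
    refine Finset.sum_congr rfl fun i _ => ?_
    rw [pcEval_mul, pcEval_pow, Eval_trunc, Cert_const]
  have h : ∀ j : ℕ, pcEval (n + r) (pcProdRange r fun i => if i < j then pcNat 1 else eCode n Q i) z =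
      ∏ i : Fin r, if (i : ℕ) < j then 1 else
            EE (pcEval n Q fun l => z (Fin.castAdd r l)) (z (Fin.natAdd n i)) := by
    intro j
    rw [pcEval_prodRange]
    refine Finset.prod_congr rfl fun i _ => ?_
    split_ifs with h
    · rw [pcEval_nat]; norm_num
    · exact pcEval_eCode n r Q i z
  rw [pcEval_aCode, a1C, Eval_sumRange, Finset.mul_sum]
  refine Finset.sum_congr rfl fun j _ => ?_
  rw [pcEval_mul, pcEval_mul, pcEval_pow, pcEval_append, pcEval_neg, pcEval_nat, hv, h, Eval_trunc]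
  push_cast
  ring

/-- Existence of certificates. `exists_special` gives `r`, `D`; `κ := 1 + mu (s0C n r 0 P Q (List.replicate D []))`, `N := nN r κ`;
for this `N` take `K, A, ρ, g`; codes by `exists_polyOf`, `exists_rowP`, `exists_pcPoly`, `List.ofFn` (see `exists_hcCheck` in HC/Search.lean), `hcCheck_iff`, `pcPoly_wC`;
`3 r + 3 ≤ nN r κ` for `κ ≥ 1`; `mu_s0C_congr`. -/
theorem exists_cCheck {n : ℕ} (P : PCode) {Q : PCode} (hQ : pcPoly n Q ≠ 0) :
    ∃ c : CC, cCheck n P Q c := by
  obtain ⟨r, D, H⟩ := exists_special hQ (pcPoly n P)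
  obtain ⟨κ, hκ⟩ : ∃ κ, κ = 1 + mu (s0C n r 0 P Q (List.replicate D [])) := ⟨_, rfl⟩
  obtain ⟨K, A, ρ, g, hid⟩ := H (nN r κ)
  obtain ⟨Ac, hAc⟩ := exists_polyOf A
  choose rc hrc using fun i : ℕ => exists_rowP (ρ i)
  choose gc hgc using fun l : Fin n => exists_pcPoly (g l)
  obtain ⟨rows, hrows⟩ : ∃ rows : List (List QCode), rows = (List.range D).map rc := ⟨_, rfl⟩
  have hlen : rows.length = D := by rw [hrows]; simp
  have hgetD : ∀ i < D, rows.getD i [] = rc i := by
    intro i hi
    rw [hrows, List.getD_eq_getElem?_getD, List.getElem?_map, List.getElem?_range hi]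
    rfl
  have hκ1 : 1 ≤ κ := by omega
  refine ⟨(((r, κ), K), ((Ac, rows), List.ofFn gc)), hκ1, ?_, ?_⟩
  · change hcCheck n P Q (((r, nN r κ), K), (Ac, wC n P Q rows), List.ofFn gc)
    rw [hcCheck_iff, hAc, pcPoly_wC, hlen]
    refine ⟨?_, ?_⟩
    · have h5 : 5 ≤ 2 * (2 * κ) + 1 := by omega
      have h6 : (r + 1) * 5 ≤ (r + 1) * (2 * (2 * κ) + 1) := Nat.mul_le_mul_left _ h5
      unfold nN
      omega
    · have hgl : (fun l : Fin n => pcPoly (n + 1) ((List.ofFn gc).getD l [])) = g := by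
        ext1 l
        rw [← hgc l]
        congr 1
        simp [List.getD_eq_getElem?_getD]
      have hs : (∑ i ∈ Finset.range D, beta n (rowP (rows.getD i [])) * hP (pcPoly n Q) ^ i) =
          ∑ i ∈ Finset.range D, beta n (ρ i) * hP (pcPoly n Q) ^ i := by
        refine Finset.sum_congr rfl fun i hi => ?_
        rw [hgetD i (Finset.mem_range.mp hi), hrc]
      rw [hgl, hs]
      exact hid
  · change mu (s0C n r (2 * κ) P Q rows) ≤ κ
    have h7 : rows.length = (List.replicate D ([] : List QCode)).length := by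
      rw [hlen]; simp
    rw [mu_s0C_congr n r (2 * κ) 0 P Q h7]
    omega

/-- As `mem_hcSearch` in HC/Search.lean. -/
theorem mem_cSearch {R : ℕ × PCode × PCode} {c : CC} (h : c ∈ cSearch R) :
    cCheck R.1 R.2.1 R.2.2 c := by
  obtain ⟨m, hm⟩ := Nat.rfindOpt_spec h
  obtain ⟨c', _, h2⟩ := Option.bind_eq_some_iff.mp hm
  split_ifs at h2 with hc'
  rw [← Option.some_injective _ h2]
  exact hc'

/-- As `dom_hcSearch` in HC/Search.lean. -/
theorem dom_cSearch {R : ℕ × PCode × PCode} (hQ : pcPoly R.1 R.2.2 ≠ 0) : (cSearch R).Dom := by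
  obtain ⟨c, hc⟩ := exists_cCheck R.2.1 hQ
  refine Nat.rfindOpt_dom.mpr ⟨Encodable.encode c, c, ?_⟩
  rw [Encodable.encodek]
  change (if cCheck R.1 R.2.1 R.2.2 c then some c else none) = some c
  rw [if_pos hc]

end Pool.Agent.Lib.MP_bbe012_lc.CV
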