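import Mathlib
import Pool.Agent.Lib.MP_bbe012_lc.CV.Defs
import Pool.Agent.Lib.MP_bbe012_lc.HC.LogB

/-!
# Exact integration of polynomials over the cube
-/

namespace Pool.Agent.Lib.MP_bbe012_lc.CV

open MeasureTheory Set HC

/-- One variable: `∫ x in (-1, 1), x^e` is `0` for odd `e` and `2 / (e + 1)` for even `e`
(`integral_Ioc_eq_integral_Ioo`, `intervalIntegral.integral_of_le`, `integral_pow`). -/
theorem integral_pow_Ioo (e : ℕ) : ∫ s in Ioo (-1 : ℝ) 1, s ^ e =
    if e % 2 = 1 then 0 else 2 / ((e : ℝ) + 1) := by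
  rw [← integral_Ioc_eq_integral_Ioo, ← intervalIntegral.integral_of_le (by norm_num),
    integral_pow]
  split_ifs with h
  · have h1 : Even (e + 1) := by
      rw [Nat.even_iff]; omega
    rw [one_pow, h1.neg_one_pow]; simp
  · have h1 : Odd (e + 1) := by
      rw [Nat.odd_iff]; omega
    rw [one_pow, h1.neg_one_pow]; norm_num

/-- Induction on `p`: `pcEval_cons` (Eval.lean), `integral_cube_prod` (HC/LogA.lean), `integral_pow_Ioo`; integrability `LogB_aux2` (HC/LogB.lean),
`continuous_pcEval`; values: `pcEval_mul`, `pcEval_prodRange` (Ratio.lean), `pcEval_append`, `Finset.prod_range` / `Fin.prod_univ...`. -/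
theorem pcEval_pcInt (n m : ℕ) (p : PCode) (y : Fin m → ℝ) :
    pcEval m (pcInt n p) y = ∫ x in cube n, pcEval n p x := by
  induction p with
  | nil => simp [pcInt]
  | cons t p ih =>
    have h0 : pcInt n (t :: p) = pcMul [(t.1, [])] (pcProdRange n fun i =>
        if t.2.getD i 0 % 2 = 1 then [] else [(((2, 0), t.2.getD i 0), [])]) ++ pcInt n p := by
      simp [pcInt]
    have h1 : ∀ q : QCode, pcEval m [(q, [])] y = (qval q : ℝ) := by
      intro q
      rw [pcEval_cons]
      simp
    have h2 : ∀ x : Fin n → ℝ, pcEval n (t :: p) x =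
        (qval t.1 : ℝ) * (∏ i : Fin n, x i ^ t.2.getD i 0) + pcEval n p x :=
      fun x => pcEval_cons n t p x
    simp_rw [h2]
    rw [integral_add ((LogB_aux2 n (by fun_prop)).const_mul _)
      (LogB_aux2 n (continuous_pcEval n p)), integral_const_mul,
      integral_cube_prod n (fun i s => s ^ t.2.getD i 0), h0, pcEval_append, ih, pcEval_mul, h1,
      pcEval_prodRange]
    congr 2
    refine Finset.prod_congr rfl fun i _ => ?_
    rw [integral_pow_Ioo]
    split_ifs with h
    · simp
    · rw [h1]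
      simp [qval]

private theorem IntC_eval0 (q : PCode) (y : Fin 0 → ℝ) : ∃ r : ℚ, pcEval 0 q y = r := by
  induction q with
  | nil => exact ⟨0, by simp⟩
  | cons t p ih =>
    obtain ⟨r, hr⟩ := ih
    exact ⟨qval t.1 + r, by rw [pcEval_cons, hr]; simp⟩

/-- The value is rational (`pcEval_pcInt` for `m = 0`: `pcEval 0 q y = aeval y (pcPoly 0 q)` is rational, for instance `q` evaluated by
`MvPolynomial.aeval` at the only point of `Fin 0 → ℝ`, or by induction on `p`). -/
theorem pcInt_rat (n : ℕ) (p : PCode) : ∃ q : ℚ, ∫ x in cube n, pcEval n p x = q := by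
  obtain ⟨r, hr⟩ := IntC_eval0 (pcInt n p) (fun i => i.elim0)
  exact ⟨r, by rw [← hr, pcEval_pcInt]⟩

/-- The value does not depend on the point. -/
theorem pcEval_pcInt_congr (n m m' : ℕ) (p : PCode) (y : Fin m → ℝ) (y' : Fin m' → ℝ) :
    pcEval m (pcInt n p) y = pcEval m' (pcInt n p) y' := by
  rw [pcEval_pcInt, pcEval_pcInt]

end Pool.Agent.Lib.MP_bbe012_lc.CV
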