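import Mathlib
import Pool.Agent.Lib.MP_bbe012_lc.CV.Defs
import Pool.Agent.Lib.MP_bbe012_lc.Eval

/-!
# The values of sums of products
-/

namespace Pool.Agent.Lib.MP_bbe012_lc.CV

open MeasureTheory Set HC

/-- The code `p` depends only on the first `n` variables. -/
def Tr (n : ℕ) (p : PCode) : Prop :=
  ∀ (m : ℕ) (h : n ≤ m) (z : Fin m → ℝ), pcEval m p z = pcEval n p fun i => z (Fin.castLE h i)

theorem pcEval_prodL (m : ℕ) (L : List PCode) (x : Fin m → ℝ) :
    pcEval m (pcProdL L) x = (L.map fun p => pcEval m p x).prod := by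
  induction L with
  | nil => simp [pcProdL]
  | cons p L ih =>
    have h : pcProdL (p :: L) = pcMul p (pcProdL L) := rfl
    rw [h, pcEval_mul, ih, List.map_cons, List.prod_cons]

private theorem EvalS_flat_nil : flat [] = [] := rfl

private theorem EvalS_flat_cons (L : List PCode) (S : SCode) :
    flat (L :: S) = pcProdL L ++ flat S := by
  rw [flat, flat, List.flatMap_cons]

private theorem EvalS_flat_append (S S' : SCode) : flat (S ++ S') = flat S ++ flat S' := by
  rw [flat, flat, flat, List.flatMap_append]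

private theorem EvalS_prodL_cons (p : PCode) (L : List PCode) :
    pcProdL (p :: L) = pcMul p (pcProdL L) := rfl

theorem pcEval_flat (m : ℕ) (S : SCode) (x : Fin m → ℝ) :
    pcEval m (flat S) x = (S.map fun L => pcEval m (pcProdL L) x).sum := by
  induction S with
  | nil => rw [EvalS_flat_nil, pcEval_nil, List.map_nil, List.sum_nil]
  | cons L S ih => rw [EvalS_flat_cons, pcEval_append, ih, List.map_cons, List.sum_cons]

theorem pcEval_flat_append (m : ℕ) (S S' : SCode) (x : Fin m → ℝ) :
    pcEval m (flat (S ++ S')) x = pcEval m (flat S) x + pcEval m (flat S') x := by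
  rw [EvalS_flat_append, pcEval_append]

theorem pcEval_flat_cons (m : ℕ) (L : List PCode) (S : SCode) (x : Fin m → ℝ) :
    pcEval m (flat (L :: S)) x = pcEval m (pcProdL L) x + pcEval m (flat S) x := by
  rw [EvalS_flat_cons, pcEval_append]

private theorem EvalS_negL (m : ℕ) (L : List PCode) (x : Fin m → ℝ) :
    pcEval m (pcProdL (negL L)) x = - pcEval m (pcProdL L) x := by
  cases L with
  | nil =>
    have h : negL ([] : List PCode) = [pcNeg (pcNat 1)] := rfl
    rw [h, EvalS_prodL_cons, pcEval_mul, pcEval_neg, pcEval_nat, pcProdL, List.foldr_nil,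
      pcEval_nat]
    norm_num
  | cons p L =>
    have h : negL (p :: L) = pcNeg p :: L := rfl
    rw [h, EvalS_prodL_cons, EvalS_prodL_cons, pcEval_mul, pcEval_mul, pcEval_neg, neg_mul]

theorem pcEval_flat_neg (m : ℕ) (R : SCode) (x : Fin m → ℝ) :
    pcEval m (flat (R.map negL)) x = - pcEval m (flat R) x := by
  induction R with
  | nil => rw [List.map_nil, EvalS_flat_nil, pcEval_nil, neg_zero]
  | cons L R ih =>
    rw [List.map_cons, pcEval_flat_cons, pcEval_flat_cons, ih, EvalS_negL, neg_add]

private theorem EvalS_pick_cons (L : List PCode) (S : SCode) :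
    pick (L :: S) = if (pick S).1.length = 0 ∧ 4 ≤ L.length then (L, (pick S).2)
      else ((pick S).1, L :: (pick S).2) := rfl

/-- Induction on `S`. For `S = L :: S'`: if the list `(pick S').1` is empty and `4 ≤ L.length` then the choice is `L`, and
`pcProdL L = L_0 L_1 (L.drop 2)`; otherwise the choice is the same. For the empty list `zC [] ` has value `0`. -/
theorem pick_eval (m : ℕ) (S : SCode) (x : Fin m → ℝ) :
    pcEval m (flat S) x = pcEval m (eC (pick S).1) x * pcEval m (zC (pick S).1) x +
      pcEval m (flat (pick S).2) x := by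
  induction S with
  | nil =>
    have h1 : pick [] = ([], []) := rfl
    have h2 : zC [] = [] := rfl
    rw [h1, h2, EvalS_flat_nil, pcEval_nil, mul_zero, add_zero]
  | cons L S ih =>
    rw [EvalS_pick_cons, pcEval_flat_cons, ih]
    by_cases h : (pick S).1.length = 0 ∧ 4 ≤ L.length
    · rw [if_pos h]
      have h0 : (pick S).1 = [] := List.length_eq_zero_iff.mp h.1
      have h2 : zC [] = [] := rfl
      rw [h0, h2, pcEval_nil, mul_zero, zero_add]
      have h3 : pcEval m (pcProdL L) x = pcEval m (eC L) x * pcEval m (zC L) x := by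
        obtain ⟨p, q, L', rfl⟩ : ∃ p q L', L = p :: q :: L' := by
          match L, h.2 with
          | p :: q :: L', _ => exact ⟨p, q, L', rfl⟩
        have h4 : eC (p :: q :: L') = pcProdL L' := rfl
        have h5 : zC (p :: q :: L') = pcMul p q := rfl
        rw [h4, h5, EvalS_prodL_cons, EvalS_prodL_cons, pcEval_mul, pcEval_mul, pcEval_mul]
        ring
      rw [h3]
    · rw [if_neg h, pcEval_flat_cons]
      ring

theorem Tr.mul {n : ℕ} {p q : PCode} (hp : Tr n p) (hq : Tr n q) : Tr n (pcMul p q) := by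
  intro m h z
  rw [pcEval_mul, pcEval_mul, hp m h z, hq m h z]

theorem Tr.append {n : ℕ} {p q : PCode} (hp : Tr n p) (hq : Tr n q) : Tr n (p ++ q) := by
  intro m h z
  rw [pcEval_append, pcEval_append, hp m h z, hq m h z]

theorem Tr.neg {n : ℕ} {p : PCode} (hp : Tr n p) : Tr n (pcNeg p) := by
  intro m h z
  rw [pcEval_neg, pcEval_neg, hp m h z]

theorem Tr.nil (n : ℕ) : Tr n [] := by
  intro m h z
  rw [pcEval_nil, pcEval_nil]

theorem Tr.nat (n k : ℕ) : Tr n (pcNat k) := by
  intro m h z
  rw [pcEval_nat, pcEval_nat]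

private theorem EvalS_trunc_self (n : ℕ) (p : PCode) (x : Fin n → ℝ) :
    pcEval n (pcTrunc n p) x = pcEval n p x := by
  rw [pcEval_trunc le_rfl]
  rfl

/-- `pcEval_trunc` (Eval.lean), twice. -/
theorem tr_trunc (n : ℕ) (p : PCode) : Tr n (pcTrunc n p) := by
  intro m h z
  rw [pcEval_trunc h, EvalS_trunc_self]

private theorem EvalS_tr_prodL {n : ℕ} {L : List PCode} (h : ∀ p ∈ L, Tr n p) :
    Tr n (pcProdL L) := by
  induction L with
  | nil => exact Tr.nat n 1
  | cons p L ih =>
    rw [EvalS_prodL_cons]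
    exact Tr.mul (h p List.mem_cons_self) (ih fun q hq => h q (List.mem_cons_of_mem _ hq))

private theorem EvalS_tr_flat {n : ℕ} {S : SCode} (h : ∀ L ∈ S, ∀ p ∈ L, Tr n p) :
    Tr n (flat S) := by
  induction S with
  | nil => exact Tr.nil n
  | cons L S ih =>
    rw [EvalS_flat_cons]
    exact Tr.append (EvalS_tr_prodL (h L List.mem_cons_self))
      (ih fun q hq => h q (List.mem_cons_of_mem _ hq))

private theorem EvalS_tr_getD {n : ℕ} {L : List PCode} (h : ∀ p ∈ L, Tr n p) (i : ℕ) :
    Tr n (L.getD i []) := by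
  by_cases hi : i < L.length
  · rw [List.getD_eq_getElem _ _ hi]
    exact h _ (List.getElem_mem hi)
  · rw [List.getD_eq_default _ _ (not_lt.mp hi)]
    exact Tr.nil n

private theorem EvalS_tr_pick {n : ℕ} {S : SCode} (h : ∀ L ∈ S, ∀ p ∈ L, Tr n p) :
    (∀ p ∈ (pick S).1, Tr n p) ∧ ∀ L ∈ (pick S).2, ∀ p ∈ L, Tr n p := by
  induction S with
  | nil =>
    have h1 : pick [] = ([], []) := rfl
    rw [h1]
    exact ⟨fun p hp => absurd hp List.not_mem_nil, fun L hL => absurd hL List.not_mem_nil⟩
  | cons L S ih =>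
    obtain ⟨i1, i2⟩ := ih fun q hq => h q (List.mem_cons_of_mem _ hq)
    rw [EvalS_pick_cons]
    by_cases hc : (pick S).1.length = 0 ∧ 4 ≤ L.length
    · rw [if_pos hc]
      exact ⟨h L List.mem_cons_self, i2⟩
    · rw [if_neg hc]
      refine ⟨i1, fun L' hL' => ?_⟩
      rcases List.mem_cons.mp hL' with h' | h'
      · rw [h']
        exact h L List.mem_cons_self
      · exact i2 L' h'

/-- The factors of the chosen product and of the other products are elements of the lists of `S` (or the choice is empty):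
by induction on `S`, if all factors satisfy `Tr n`, so do those of `pick S`. -/
theorem tr_pick (n : ℕ) (S : SCode) :
    Tr n (eC (pick (trS n S)).1) ∧ Tr n (zC (pick (trS n S)).1) ∧ Tr n (flat (pick (trS n S)).2) := by
  have h : ∀ L ∈ trS n S, ∀ p ∈ L, Tr n p := by
    intro L hL p hp
    obtain ⟨L', _, rfl⟩ := List.mem_map.mp hL
    obtain ⟨q, _, rfl⟩ := List.mem_map.mp hp
    exact tr_trunc n q
  obtain ⟨h1, h2⟩ := EvalS_tr_pick h
  refine ⟨?_, ?_, EvalS_tr_flat h2⟩
  · exact EvalS_tr_prodL fun p hp => h1 p (List.mem_of_mem_drop hp)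
  · exact Tr.mul (EvalS_tr_getD h1 0) (EvalS_tr_getD h1 1)

theorem pcEval_flat_trS (n : ℕ) (S : SCode) (x : Fin n → ℝ) :
    pcEval n (flat (trS n S)) x = pcEval n (flat S) x := by
  rw [pcEval_flat, pcEval_flat, trS, List.map_map]
  congr 1
  refine List.map_congr_left fun L _ => ?_
  rw [Function.comp_apply, pcEval_prodL, pcEval_prodL, List.map_map]
  congr 1
  exact List.map_congr_left fun p _ => EvalS_trunc_self n p x

private theorem EvalS_var_of_le {m i : ℕ} (h : m ≤ i) (x : Fin m → ℝ) :
    pcEval m (pcVar i) x = 1 := by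
  rw [pcVar, pcEval_cons, pcEval_nil, qval_qnat, add_zero]
  have h1 : ∏ j : Fin m, x j ^ (List.replicate i 0 ++ [1]).getD (j : ℕ) 0 = 1 := by
    refine Finset.prod_eq_one fun j _ => ?_
    rw [getD_replicate_append_singleton, if_neg (by omega), pow_zero]
  rw [h1]
  norm_num

private theorem EvalS_prod_flatMap (f : PCode → ℝ) (g : ℕ → ℕ) (L : List ℕ) :
    ((L.flatMap fun i => List.replicate (g i) (pcVar i)).map f).prod =
      (L.map fun i => f (pcVar i) ^ g i).prod := by
  induction L with
  | nil => rfl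
  | cons a L ih =>
    rw [List.flatMap_cons, List.map_append, List.prod_append, ih, List.map_cons, List.prod_cons,
      List.map_replicate, List.prod_replicate]

private theorem EvalS_prod_range (f : ℕ → ℝ) (k : ℕ) :
    ((List.range k).map f).prod = ∏ i ∈ Finset.range k, f i := by
  induction k with
  | zero => rfl
  | succ k ih =>
    rw [List.range_succ, List.map_append, List.prod_append, ih, Finset.prod_range_succ,
      List.map_cons, List.map_nil, List.prod_singleton]

/-- `pcEval m (pcVar i) x` is `x_i` for `i < m` and `1` for `i ≥ m`. -/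
theorem pcEval_exL (m : ℕ) (t : QCode × List ℕ) (x : Fin m → ℝ) :
    pcEval m (pcProdL (exL t)) x = pcEval m [t] x := by
  rw [exL, EvalS_prodL_cons, pcEval_mul, pcEval_prodL, EvalS_prod_flatMap, EvalS_prod_range,
    pcEval_cons, pcEval_cons, pcEval_nil, add_zero, add_zero]
  have h1 : ∏ i : Fin m, x i ^ ([] : List ℕ).getD (i : ℕ) 0 = 1 := by
    refine Finset.prod_eq_one fun j _ => ?_
    rw [List.getD_nil, pow_zero]
  have h2 : ∏ i : Fin m, x i ^ t.2.getD (i : ℕ) 0 =
      ∏ i ∈ Finset.range m, pcEval m (pcVar i) x ^ t.2.getD i 0 := by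
    rw [← Fin.prod_univ_eq_prod_range (fun i => pcEval m (pcVar i) x ^ t.2.getD i 0) m]
    refine Finset.prod_congr rfl fun j _ => ?_
    rw [pcEval_var j.2]
  have h3 : ∏ i ∈ Finset.range t.2.length, pcEval m (pcVar i) x ^ t.2.getD i 0 =
      ∏ i ∈ Finset.range (max m t.2.length), pcEval m (pcVar i) x ^ t.2.getD i 0 := by
    refine Finset.prod_subset (Finset.range_subset_range.mpr (le_max_right _ _)) fun j _ hj => ?_
    rw [List.getD_eq_default _ _ (not_lt.mp fun hh => hj (Finset.mem_range.mpr hh)), pow_zero]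
  have h4 : ∏ i ∈ Finset.range m, pcEval m (pcVar i) x ^ t.2.getD i 0 =
      ∏ i ∈ Finset.range (max m t.2.length), pcEval m (pcVar i) x ^ t.2.getD i 0 := by
    refine Finset.prod_subset (Finset.range_subset_range.mpr (le_max_left _ _)) fun j _ hj => ?_
    rw [EvalS_var_of_le (not_lt.mp fun hh => hj (Finset.mem_range.mpr hh)), one_pow]
  rw [h1, h2, h3, h4, mul_one]

private theorem EvalS_sum_exL (m : ℕ) (A : PCode) (x : Fin m → ℝ) :
    pcEval m (flat (A.map exL)) x = pcEval m A x := by
  induction A with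
  | nil => rw [List.map_nil, EvalS_flat_nil]
  | cons t A ih =>
    rw [List.map_cons, pcEval_flat_cons, ih, pcEval_exL, pcEval_cons, pcEval_cons, pcEval_nil,
      add_zero]

private theorem EvalS_sum_exL' (m : ℕ) (l A : PCode) (x : Fin m → ℝ) :
    pcEval m (flat (A.map fun t => l :: exL t)) x = pcEval m l x * pcEval m A x := by
  induction A with
  | nil => rw [List.map_nil, EvalS_flat_nil, pcEval_nil, mul_zero]
  | cons t A ih =>
    rw [List.map_cons, pcEval_flat_cons, ih, EvalS_prodL_cons, pcEval_mul, pcEval_exL,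
      pcEval_cons, pcEval_cons, pcEval_nil, add_zero, mul_add]

/-- `pcEval_flat`, `pcEval_exL`, `pcEval_cons`, induction on the lists of terms. -/
theorem pcEval_s0C (M n r m : ℕ) (P Q : PCode) (rows : List (List QCode)) (x : Fin M → ℝ) :
    pcEval M (flat (s0C n r m P Q rows)) x = pcEval M (g1C n r P Q rows) x +
      pcEval M (linC (n + r + 1) m (t0C n r P Q rows)) x * pcEval M (g2C n r P Q rows) x := by
  rw [s0C, pcEval_flat_append, EvalS_sum_exL, EvalS_sum_exL']

end Pool.Agent.Lib.MP_bbe012_lc.CV
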