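import Mathlib
import Pool.Agent.Lib.MP_bbe012_lc.CV.EvalS
import Pool.Agent.Lib.MP_bbe012_lc.CV.Disc
import Pool.Agent.Lib.MP_bbe012_lc.HC.Eval

/-!
# The bounds for the initial polynomial
-/

namespace Pool.Agent.Lib.MP_bbe012_lc.CV

open MeasureTheory Set HC

variable {n r : ℕ} {P Q : PCode} {rows : List (List QCode)}

/-- `Eval_trunc` (HC/Eval.lean); the first `n` coordinates of a point of the cube are in the cube. -/
theorem q_pos (hQ : ∀ y ∈ cube n, 0 < pcEval n Q y) {z : Fin (n + r) → ℝ} (hz : z ∈ cube (n + r)) :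
    0 < pcEval (n + r) (pcTrunc n Q) z := by
  rw [Eval_trunc]
  exact hQ _ fun l => hz (Fin.castAdd r l)

theorem q_le {z : Fin (n + r) → ℝ} (hz : z ∈ cube (n + r)) :
    pcEval (n + r) (pcTrunc n Q) z ≤ bQ n Q := by
  have h1 := abs_pcEval_le (pcTrunc n Q) hz
  have h2 := le_abs_self (pcEval (n + r) (pcTrunc n Q) z)
  have h3 : ((bQ n Q : ℕ) : ℝ) = 1 + (pcK (pcTrunc n Q) : ℝ) := by
    unfold bQ
    push_cast
    ring
  rw [h3]
  linarith

theorem TopB_one_le {n : ℕ} {Q : PCode} : (1 : ℝ) ≤ (bQ n Q : ℝ) := by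
  have : 1 ≤ bQ n Q := by
    unfold bQ
    omega
  exact_mod_cast this

/-- `pcEval_dCode`, `le_mul_EE` (HC/LogA.lean) for every factor with `B = bQ n Q`. -/
theorem q_pow_le (hQ : ∀ y ∈ cube n, 0 < pcEval n Q y) {z : Fin (n + r) → ℝ}
    (hz : z ∈ cube (n + r)) :
    pcEval (n + r) (pcTrunc n Q) z ^ r ≤ (bQ n Q : ℝ) ^ r * pcEval (n + r) (dCode n r Q) z := by
  have h0 := q_pos (r := r) hQ hz
  have h1 := q_le (Q := Q) hz
  rw [pcEval_dCode]
  have e : pcEval (n + r) (pcTrunc n Q) z = pcEval n Q fun l => z (Fin.castAdd r l) :=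
    Eval_trunc n r Q z
  rw [e] at h0 h1 ⊢
  have h2 : (pcEval n Q fun l => z (Fin.castAdd r l)) ^ r =
      ∏ _i : Fin r, pcEval n Q fun l => z (Fin.castAdd r l) := by
    rw [Finset.prod_const, Finset.card_univ, Fintype.card_fin]
  have h3 : (bQ n Q : ℝ) ^ r = ∏ _i : Fin r, (bQ n Q : ℝ) := by
    rw [Finset.prod_const, Finset.card_univ, Fintype.card_fin]
  rw [h2, h3, ← Finset.prod_mul_distrib]
  refine Finset.prod_le_prod (fun i _ => h0.le) fun i _ => ?_
  exact le_mul_EE h0 TopB_one_le h1 (hz (Fin.natAdd n i))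

/-- The value of `a2C`: `A = K D + q^r A_1`. -/
theorem eval_a2C (z : Fin (n + r) → ℝ) : pcEval (n + r) (a2C n r P Q rows) z =
    kC n r P Q rows * pcEval (n + r) (dCode n r Q) z +
      pcEval (n + r) (pcTrunc n Q) z ^ r * pcEval (n + r) (a1C n r P Q rows) z := by
  unfold a2C
  rw [pcEval_append, pcEval_mul, pcEval_mul, pcEval_nat, pcEval_pow]

theorem TopB_D_nonneg {n r : ℕ} {Q : PCode} (hQ : ∀ y ∈ cube n, 0 < pcEval n Q y)
    {z : Fin (n + r) → ℝ} (hz : z ∈ cube (n + r)) : 0 ≤ pcEval (n + r) (dCode n r Q) z := by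
  rw [pcEval_dCode]
  exact Finset.prod_nonneg fun i _ => (Eval_EE_pos n r Q hQ hz i).le

/-- `D ≤ A ≤ 2 K D`, from `|q^r A_1| ≤ bQ^r D pcK (a1C)` and `K = 1 + bQ^r pcK (a1C)`. -/
theorem a2C_bounds (hQ : ∀ y ∈ cube n, 0 < pcEval n Q y) {z : Fin (n + r) → ℝ}
    (hz : z ∈ cube (n + r)) :
    pcEval (n + r) (dCode n r Q) z ≤ pcEval (n + r) (a2C n r P Q rows) z ∧
      pcEval (n + r) (a2C n r P Q rows) z ≤
        2 * kC n r P Q rows * pcEval (n + r) (dCode n r Q) z := by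
  have hD := TopB_D_nonneg (r := r) hQ hz
  have hq := q_pos (r := r) hQ hz
  have h1 := q_pow_le (r := r) hQ hz
  have h2 := abs_pcEval_le (a1C n r P Q rows) hz
  rw [eval_a2C]
  set D := pcEval (n + r) (dCode n r Q) z with hDd
  set q := pcEval (n + r) (pcTrunc n Q) z with hqd
  set A1 := pcEval (n + r) (a1C n r P Q rows) z with hA1
  have hK : ((kC n r P Q rows : ℕ) : ℝ) = 1 + (bQ n Q : ℝ) ^ r * (pcK (a1C n r P Q rows) : ℝ) := by
    unfold kC
    push_cast
    ring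
  have hqr : 0 ≤ q ^ r := pow_nonneg hq.le r
  have hk0 : (0 : ℝ) ≤ (pcK (a1C n r P Q rows) : ℝ) := Nat.cast_nonneg _
  have h3 : |q ^ r * A1| ≤ (bQ n Q : ℝ) ^ r * D * (pcK (a1C n r P Q rows) : ℝ) := by
    rw [abs_mul, abs_of_nonneg hqr]
    exact mul_le_mul h1 h2 (abs_nonneg _) (hqr.trans h1)
  have h4 := abs_le.1 h3
  have hb : (0 : ℝ) ≤ (bQ n Q : ℝ) ^ r := by positivity
  have h5 : 0 ≤ (bQ n Q : ℝ) ^ r * (pcK (a1C n r P Q rows) : ℝ) * D :=
    mul_nonneg (mul_nonneg hb hk0) hD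
  rw [hK]
  constructor
  · nlinarith [h4.1]
  · nlinarith [h4.2]

theorem one_le_t0C : 1 ≤ t0C n r P Q rows := by
  have h1 : 1 ≤ bQ n Q := by
    unfold bQ
    omega
  have h2 : 1 ≤ kC n r P Q rows := by
    unfold kC
    omega
  have h3 : 1 ≤ bQ n Q ^ (r + 1) := Nat.one_le_pow _ _ h1
  unfold t0C
  exact Nat.mul_pos h3 h2

/-- `q^(r+1) A ≤ bQ^(r+1) 2 K D = 2 T D`. -/
theorem a_le_one (hQ : ∀ y ∈ cube n, 0 < pcEval n Q y) {z : Fin (n + r) → ℝ}
    (hz : z ∈ cube (n + r)) :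
    pcEval (n + r) (pcTrunc n Q) z ^ (r + 1) * pcEval (n + r) (a2C n r P Q rows) z ≤
      2 * pcEval (n + r) (dCode n r Q) z * t0C n r P Q rows := by
  have hq := q_pos (r := r) hQ hz
  have h1 := q_le (Q := Q) hz
  have h2 := a2C_bounds (P := P) (rows := rows) hQ hz
  have hD := TopB_D_nonneg (r := r) hQ hz
  have h3 : pcEval (n + r) (pcTrunc n Q) z ^ (r + 1) ≤ (bQ n Q : ℝ) ^ (r + 1) :=
    pow_le_pow_left₀ hq.le h1 _
  have h4 := mul_le_mul h3 h2.2 (hD.trans h2.1) (by positivity : (0 : ℝ) ≤ (bQ n Q : ℝ) ^ (r + 1))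
  have h5 : ((t0C n r P Q rows : ℕ) : ℝ) = (bQ n Q : ℝ) ^ (r + 1) * (kC n r P Q rows : ℝ) := by
    unfold t0C
    push_cast
    ring
  rw [h5]
  linarith

/-- `q^(r+1) ≤ bQ^(r+1) D ≤ T A`, so `q^(r+1) A ≤ 2 A^2 T`. -/
theorem a_le_two (hQ : ∀ y ∈ cube n, 0 < pcEval n Q y) {z : Fin (n + r) → ℝ}
    (hz : z ∈ cube (n + r)) :
    pcEval (n + r) (pcTrunc n Q) z ^ (r + 1) * pcEval (n + r) (a2C n r P Q rows) z ≤
      2 * (pcEval (n + r) (a2C n r P Q rows) z ^ 2) * t0C n r P Q rows := by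
  have hq := q_pos (r := r) hQ hz
  have h1 := q_le (Q := Q) hz
  have h2 := a2C_bounds (P := P) (rows := rows) hQ hz
  have hD := TopB_D_nonneg (r := r) hQ hz
  have h0 := q_pow_le (r := r) hQ hz
  set q := pcEval (n + r) (pcTrunc n Q) z with hqd
  set D := pcEval (n + r) (dCode n r Q) z with hDd
  set A := pcEval (n + r) (a2C n r P Q rows) z with hAd
  have hA : 0 ≤ A := hD.trans h2.1
  have hb1 : (1 : ℝ) ≤ (bQ n Q : ℝ) := TopB_one_le
  have hb : (0 : ℝ) ≤ (bQ n Q : ℝ) := zero_le_one.trans hb1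
  have hk1 : (1 : ℝ) ≤ (kC n r P Q rows : ℝ) := by
    have : 1 ≤ kC n r P Q rows := by
      unfold kC
      omega
    exact_mod_cast this
  have h3 : q ^ (r + 1) ≤ (bQ n Q : ℝ) ^ (r + 1) * A := by
    rw [pow_succ, pow_succ]
    have h4 := mul_le_mul h0 h1 hq.le (by positivity : (0 : ℝ) ≤ (bQ n Q : ℝ) ^ r * D)
    have h5 := mul_le_mul_of_nonneg_left h2.1 (by positivity : (0 : ℝ) ≤ (bQ n Q : ℝ) ^ r * (bQ n Q : ℝ))
    linarith
  have h5 : ((t0C n r P Q rows : ℕ) : ℝ) = (bQ n Q : ℝ) ^ (r + 1) * (kC n r P Q rows : ℝ) := by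
    unfold t0C
    push_cast
    ring
  rw [h5]
  have h6 := mul_le_mul_of_nonneg_right h3 hA
  have h7 : (0 : ℝ) ≤ (bQ n Q : ℝ) ^ (r + 1) * A * A := by positivity
  have h8 := mul_le_mul_of_nonneg_left hk1 h7
  have h9 : 0 ≤ (bQ n Q : ℝ) ^ (r + 1) * A * A * (kC n r P Q rows : ℝ) := by positivity
  nlinarith

theorem TopB_tr_mono {N M : ℕ} (h : N ≤ M) {p : PCode} (hp : Tr N p) : Tr M p := by
  intro m hm z
  rw [hp m (h.trans hm) z, hp M h]
  rfl

theorem TopB_tr_pow {N : ℕ} {p : PCode} (hp : Tr N p) (k : ℕ) : Tr N (pcPow p k) := by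
  intro m hm z
  rw [pcEval_pow, pcEval_pow, hp m hm z]

theorem TopB_tr_var {N i : ℕ} (hi : i < N) : Tr N (pcVar i) := by
  intro m hm z
  rw [pcEval_var (hi.trans_le hm), pcEval_var hi]
  rfl

theorem TopB_tr_const (N : ℕ) (c : QCode) : Tr N [(c, [])] := by
  intro m hm z
  rw [pcEval_cons, pcEval_cons]
  simp

theorem TopB_tr_prodRange {N R : ℕ} {g : ℕ → PCode} (h : ∀ i < R, Tr N (g i)) :
    Tr N (pcProdRange R g) := by
  intro m hm z
  rw [pcEval_prodRange, pcEval_prodRange]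
  exact Finset.prod_congr rfl fun i _ => h i i.2 m hm z

theorem TopB_tr_sumRange {N R : ℕ} {g : ℕ → PCode} (h : ∀ i < R, Tr N (g i)) :
    Tr N (pcSumRange R g) := by
  intro m hm z
  rw [Eval_sumRange, Eval_sumRange]
  exact Finset.sum_congr rfl fun i hi => h i (Finset.mem_range.1 hi) m hm z

theorem TopB_tr_trunc (n r : ℕ) (Q : PCode) : Tr (n + r) (pcTrunc n Q) :=
  TopB_tr_mono (Nat.le_add_right n r) (tr_trunc n Q)

theorem TopB_tr_eCode {n r : ℕ} {Q : PCode} {i : ℕ} (hi : i < r) : Tr (n + r) (eCode n Q i) := by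
  unfold eCode
  have hv : Tr (n + r) (pcVar (n + i)) := TopB_tr_var (by omega)
  exact ((Tr.nat _ _).append hv.neg).append ((TopB_tr_trunc n r Q).mul ((Tr.nat _ _).append hv))

/-- The codes depend only on the first `n + r` variables, in the sense of `Tr` (EvalS.lean): they are built from `pcTrunc n`, constants and the variables
`x_(n+i)` with `i < r`. For the variable: `Tr N (pcVar i)` for `i < N`. For sums and products over ranges: induction on the list. -/
theorem tr_dCode (n r : ℕ) (Q : PCode) : Tr (n + r) (dCode n r Q) := by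
  unfold dCode
  exact TopB_tr_prodRange fun i hi => TopB_tr_eCode hi

theorem tr_a2C (n r : ℕ) (P Q : PCode) (rows : List (List QCode)) :
    Tr (n + r) (a2C n r P Q rows) := by
  unfold a2C
  refine ((Tr.nat _ _).mul (tr_dCode n r Q)).append ((TopB_tr_pow (TopB_tr_trunc n r Q) r).mul ?_)
  unfold a1C
  refine TopB_tr_sumRange fun j _ => Tr.mul ?_ (Tr.mul ?_ ?_)
  · unfold vC cstCode
    refine Tr.mul (Tr.mul (TopB_tr_prodRange fun i _ => TopB_tr_const _ _)
      (TopB_tr_pow (TopB_tr_const _ _) _)) (Tr.mul (TopB_tr_trunc n r P)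
        (TopB_tr_sumRange fun i _ => Tr.mul (TopB_tr_const _ _)
          (TopB_tr_pow (TopB_tr_trunc n r Q) i)))
  · exact TopB_tr_pow ((TopB_tr_trunc n r Q).append (Tr.nat _ _).neg) j
  · refine TopB_tr_prodRange fun i hi => ?_
    split_ifs
    · exact Tr.nat _ _
    · exact TopB_tr_eCode hi

theorem tr_q (n r : ℕ) (Q : PCode) : Tr (n + r) (pcTrunc n Q) := by
  exact TopB_tr_trunc n r Q

/-- The value of the initial polynomial at the point with the coordinates `z`, `τ0`, `τ`: `pcEval_s0C`, the definitions of `g1C`, `g2C`, `linC`, and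
`tr_dCode`, `tr_a2C`, `tr_q`. -/
theorem eval_s0C (n r m : ℕ) (P Q : PCode) (rows : List (List QCode)) (z : Fin (n + r) → ℝ)
    (τ0 : Fin 1 → ℝ) (τ : Fin m → ℝ) :
    pcEval (n + r + 1 + m) (flat (s0C n r m P Q rows)) (Fin.append (Fin.append z τ0) τ) =
      (pcEval (n + r) (pcTrunc n Q) z ^ (r + 1) * pcEval (n + r) (a2C n r P Q rows) z -
        pcEval (n + r) (dCode n r Q) z * (t0C n r P Q rows * (1 + τ0 0))) -
        pcEval (n + r) (a2C n r P Q rows) z ^ 2 * (t0C n r P Q rows * ∑ i, (1 + τ i)) := by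
  have hle : n + r ≤ n + r + 1 + m := by omega
  have hx : (fun i => (Fin.append (Fin.append z τ0) τ : Fin (n + r + 1 + m) → ℝ)
      (Fin.castLE hle i)) = z := by
    funext i
    have e1 : Fin.castLE hle i = Fin.castAdd m (Fin.castAdd 1 i) := rfl
    rw [e1, Fin.append_left, Fin.append_left]
  have hq := tr_q n r Q (n + r + 1 + m) hle (Fin.append (Fin.append z τ0) τ)
  have ha := tr_a2C n r P Q rows (n + r + 1 + m) hle (Fin.append (Fin.append z τ0) τ)
  have hd := tr_dCode n r Q (n + r + 1 + m) hle (Fin.append (Fin.append z τ0) τ)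
  rw [hx] at hq ha hd
  have hv0 : pcEval (n + r + 1 + m) (pcVar (n + r)) (Fin.append (Fin.append z τ0) τ) = τ0 0 := by
    rw [pcEval_var (by omega)]
    have e1 : (⟨n + r, by omega⟩ : Fin (n + r + 1 + m)) =
        Fin.castAdd m (Fin.natAdd (n + r) (0 : Fin 1)) := rfl
    rw [e1, Fin.append_left, Fin.append_right]
  have hl : pcEval (n + r + 1 + m) (linC (n + r + 1) m (t0C n r P Q rows))
      (Fin.append (Fin.append z τ0) τ) = t0C n r P Q rows * ∑ i, (1 + τ i) := by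
    unfold linC
    rw [pcEval_mul, pcEval_nat, Eval_sumRange, Finset.sum_range]
    congr 1
    refine Finset.sum_congr rfl fun i _ => ?_
    have h : n + r + 1 + (i : ℕ) < n + r + 1 + m := by
      have := i.2
      omega
    rw [pcEval_append, pcEval_nat, pcEval_var h]
    have e1 : (⟨n + r + 1 + (i : ℕ), h⟩ : Fin (n + r + 1 + m)) = Fin.natAdd (n + r + 1) i := rfl
    rw [e1, Fin.append_right]
    push_cast
    ring
  rw [pcEval_s0C, hl]
  unfold g1C g2C
  rw [pcEval_append, pcEval_mul, pcEval_pow, pcEval_neg, pcEval_mul, pcEval_mul, pcEval_nat,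
    pcEval_append, pcEval_nat, pcEval_neg, pcEval_mul, hq, ha, hd, hv0]
  push_cast
  ring

end Pool.Agent.Lib.MP_bbe012_lc.CV
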