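import Mathlib
import Pool.Agent.Lib.MP_bbe012_lc.CV.TopB
import Pool.Agent.Lib.MP_bbe012_lc.CV.IntC
import Pool.Agent.Lib.MP_bbe012_lc.CV.Cert
import Pool.Agent.Lib.MP_bbe012_lc.HC.Sum

/-!
# The initial integral
-/

namespace Pool.Agent.Lib.MP_bbe012_lc.CV

open MeasureTheory Set HC

/-- An integral over `cube 1` (`integral_cube_prod` in HC/LogA.lean with `r = 1`). -/
theorem integral_cube_one (φ : ℝ → ℝ) : ∫ s in cube 1, φ (s 0) = ∫ s in Ioo (-1 : ℝ) 1, φ s := by
  have h := integral_cube_prod 1 (fun _ => φ)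
  simpa using h

theorem Top_integrable_add (a b : ℕ) (G : (Fin (a + b) → ℝ) → ℝ)
    (hG : IntegrableOn G (cube (a + b))) :
    IntegrableOn (fun x => ∫ s in cube b, G (Fin.append x s)) (cube a) := by
  have hsymm : ∀ (x : Fin a → ℝ) (s : Fin b → ℝ), (split a b).symm (x, s) = Fin.append x s := by
    intro x s
    rw [MeasurableEquiv.symm_apply_eq, split_apply]
    ext i
    · simp
    · simp
  have hind : ∀ (x : Fin a → ℝ) (s : Fin b → ℝ), (cube (a + b)).indicator G (Fin.append x s)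
      = (cube a).indicator (fun x => (cube b).indicator (fun s => G (Fin.append x s)) s) x := by
    intro x s
    have h1 : Fin.append x s ∈ cube (a + b) ↔ x ∈ cube a ∧ s ∈ cube b := by
      constructor
      · intro h
        refine ⟨fun i => ?_, fun i => ?_⟩
        · have := h (Fin.castAdd b i)
          rwa [Fin.append_left] at this
        · have := h (Fin.natAdd a i)
          rwa [Fin.append_right] at this
      · rintro ⟨h1, h2⟩
        exact Sum_append_mem h1 h2
    by_cases hx : x ∈ cube a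
    · by_cases hs : s ∈ cube b
      · rw [indicator_of_mem (h1.2 ⟨hx, hs⟩), indicator_of_mem hx, indicator_of_mem hs]
      · rw [indicator_of_notMem (fun h => hs (h1.1 h).2), indicator_of_mem hx, indicator_of_notMem hs]
    · rw [indicator_of_notMem (fun h => hx (h1.1 h).1), indicator_of_notMem hx]
  have hF : Integrable ((cube (a + b)).indicator G) :=
    (integrable_indicator_iff (Sum_cube_meas _)).2 hG
  have hmp := (measurePreserving_split a b).symm
  have hF2 : Integrable (fun w : (Fin a → ℝ) × (Fin b → ℝ) =>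
      (cube (a + b)).indicator G ((split a b).symm w)) := hmp.integrable_comp_of_integrable hF
  rw [Measure.volume_eq_prod] at hF2
  have h3 := hF2.integral_prod_left
  rw [← integrable_indicator_iff (Sum_cube_meas a)]
  refine h3.congr (Filter.Eventually.of_forall fun x => ?_)
  simp only [hsymm, hind]
  by_cases hx : x ∈ cube a
  · simp only [indicator_of_mem hx]
    rw [integral_indicator (Sum_cube_meas b)]
  · simp only [indicator_of_notMem hx]
    exact integral_zero _ _

/-- Several variables. Induction on `m`: `integral_cube_add m 1` (integrability `integrableOn_pp`), `integral_cube_one`, `integral_pp_line`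
for `a - b T ∑ i < m, (1 + τ_i) ≤ a`. -/
theorem integral_pp_lines {a b T : ℝ} (hb : 0 < b) (hT : 0 < T) (h : a ≤ 2 * b * T) (m j : ℕ) :
    ∫ τ in cube m, pp j (a - b * (T * ∑ i, (1 + τ i))) =
      1 / ((T * b) ^ m * ∏ i ∈ Finset.range m, ((j : ℝ) + i + 1)) * pp (j + m) a := by
  induction m generalizing j with
  | zero =>
    have e : ∀ τ : Fin 0 → ℝ, pp j (a - b * (T * ∑ i, (1 + τ i))) = pp j a := by
      intro τ
      simp
    simp only [e]
    rw [setIntegral_const, measureReal_def, volume_cube]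
    simp
  | succ m ih =>
    have hint : IntegrableOn (fun τ : Fin (m + 1) → ℝ => pp j (a - b * (T * ∑ i, (1 + τ i))))
        (cube (m + 1)) := by
      refine integrableOn_pp (B := |a| + b * (T * ∑ _i : Fin (m + 1), 2)) j (by fun_prop) ?_
      intro τ hτ
      have h0 : 0 ≤ ∑ i, (1 + τ i) := Finset.sum_nonneg fun i _ => by linarith [(hτ i).1]
      have h1 : ∑ i, (1 + τ i) ≤ ∑ _i : Fin (m + 1), (2 : ℝ) :=
        Finset.sum_le_sum fun i _ => by linarith [(hτ i).2]
      have h2 : 0 ≤ b * (T * ∑ i, (1 + τ i)) := by positivity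
      have h3 : b * (T * ∑ i, (1 + τ i)) ≤ b * (T * ∑ _i : Fin (m + 1), (2 : ℝ)) := by gcongr
      rw [abs_le]
      constructor
      · linarith [neg_abs_le a]
      · linarith [le_abs_self a]
    rw [integral_cube_add m 1 _ hint]
    have e1 : ∀ x ∈ cube m, ∫ s in cube 1, pp j (a - b * (T * ∑ i,
        (1 + (Fin.append x s : Fin (m + 1) → ℝ) i))) =
        1 / (T * b * (j + 1)) * pp (j + 1) (a - b * (T * ∑ i, (1 + x i))) := by
      intro x hx
      have e2 : ∀ s : Fin 1 → ℝ, pp j (a - b * (T * ∑ i,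
          (1 + (Fin.append x s : Fin (m + 1) → ℝ) i))) =
          (fun t => pp j ((a - b * (T * ∑ i, (1 + x i))) - b * (T * (1 + t)))) (s 0) := by
        intro s
        rw [Fin.sum_univ_add]
        simp only [Fin.append_left, Fin.append_right, Finset.univ_unique, Fin.default_eq_zero,
          Finset.sum_singleton]
        congr 1
        ring
      simp only [e2]
      rw [integral_cube_one (fun t => pp j ((a - b * (T * ∑ i, (1 + x i))) - b * (T * (1 + t))))]
      refine integral_pp_line hb hT ?_ j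
      have h0 : 0 ≤ ∑ i, (1 + x i) := Finset.sum_nonneg fun i _ => by linarith [(hx i).1]
      have h2 : 0 ≤ b * (T * ∑ i, (1 + x i)) := by positivity
      linarith
    rw [setIntegral_congr_fun (Sum_cube_meas m) e1, integral_const_mul, ih (j + 1)]
    rw [Finset.prod_range_succ']
    have e3 : ∏ i ∈ Finset.range m, (((j + 1 : ℕ) : ℝ) + i + 1) =
        ∏ i ∈ Finset.range m, ((j : ℝ) + ((i + 1 : ℕ) : ℝ) + 1) := by
      refine Finset.prod_congr rfl fun i _ => ?_
      push_cast
      ring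
    have e4 : j + 1 + m = j + (m + 1) := by ring
    rw [e3, e4, ← mul_assoc, one_div_mul_one_div]
    congr 2
    push_cast
    ring

/-- The initial integral: `integral_cube_add (n + r + 1) m`, `eval_s0C`, `integral_pp_lines` (with `b = A^2`, `j = m`; the value
`a' = q^(r+1) A - D T (1 + τ0)` is at most `q^(r+1) A`, `a_le_two`), then `integral_cube_add (n + r) 1`, `integral_pp_line` with `b = D`, `j = 2 m` (`a_le_one`);
`pp (2m+1) a = a^(2m+1)` for `a = q^(r+1) A > 0`. Integrability: `integrableOn_pp_pcEval` for the total space; for the intermediate function `integrableOn_pp` times a bounded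
continuous positive function (`A ≥ D > 0` is not bounded below: write the intermediate function as `∫ τ, ...` and use `Integrable.integral_prod_left` as in the
proof of `integral_cube_add`, or multiply out: `integral_cube_add` needs the integrability of the inner integral, which follows from Fubini's theorem; alternatively
split `n + r + 1 + m` as `(n + r) + (1 + m)` at once, so that the outer function is integrated once and the inner integral over `cube (1 + m)` for fixed `z` is split by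
`integral_cube_add 1 m` with bounded integrands). -/
theorem II_s0C (n r m : ℕ) (P Q : PCode) (rows : List (List QCode))
    (hQ : ∀ y ∈ cube n, 0 < pcEval n Q y) :
    II (n + r + 1 + m) (flat (s0C n r m P Q rows)) m =
      1 / ((t0C n r P Q rows : ℝ) ^ (m + 1) * ∏ i ∈ Finset.range (m + 1), ((m : ℝ) + i + 1)) *
        ∫ z in cube (n + r), pcEval (n + r) (pcTrunc n Q) z ^ ((r + 1) * (2 * m + 1)) *
          pcEval (n + r) (a2C n r P Q rows) z / pcEval (n + r) (dCode n r Q) z := by
  obtain ⟨T, hT⟩ : ∃ T : ℝ, T = (t0C n r P Q rows : ℝ) := ⟨_, rfl⟩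
  have hT1 : (1 : ℝ) ≤ T := by
    rw [hT]
    exact_mod_cast one_le_t0C
  have hT0 : 0 < T := by linarith
  obtain ⟨c1, hc1⟩ : ∃ c1 : ℝ, c1 = ∏ i ∈ Finset.range m, ((m : ℝ) + i + 1) := ⟨_, rfl⟩
  have hc0 : 0 < c1 := by
    rw [hc1]
    exact Finset.prod_pos fun i _ => by positivity
  have hint := integrableOn_pp_pcEval (n + r + 1 + m) m (flat (s0C n r m P Q rows))
  have hF := Top_integrable_add (n + r + 1) m _ hint
  obtain ⟨F, hFd⟩ : ∃ F : (Fin (n + r + 1) → ℝ) → ℝ, F = fun x => ∫ s in cube m,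
    pp m (pcEval (n + r + 1 + m) (flat (s0C n r m P Q rows)) (Fin.append x s)) := ⟨_, rfl⟩
  rw [← hFd] at hF
  have e1 : ∀ z ∈ cube (n + r), ∀ τ ∈ cube 1, F (Fin.append z τ) =
      1 / ((T * pcEval (n + r) (a2C n r P Q rows) z ^ 2) ^ m * c1) *
        pp (2 * m) (pcEval (n + r) (pcTrunc n Q) z ^ (r + 1) * pcEval (n + r) (a2C n r P Q rows) z -
          pcEval (n + r) (dCode n r Q) z * (T * (1 + τ 0))) := by
    intro z hz τ hτ
    have hD := dCode_pos n r Q hQ hz
    have hA : 0 < pcEval (n + r) (a2C n r P Q rows) z := lt_of_lt_of_le hD (a2C_bounds hQ hz).1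
    have h2 := a_le_two (P := P) (rows := rows) hQ hz
    rw [← hT] at h2
    have h3 : 0 ≤ pcEval (n + r) (dCode n r Q) z * (T * (1 + τ 0)) := by
      have : 0 < 1 + τ 0 := by linarith [(hτ 0).1]
      positivity
    rw [hFd]
    simp only [eval_s0C, ← hT]
    rw [integral_pp_lines (pow_pos hA 2) hT0 (by linarith) m m, ← hc1, two_mul]
  have e2 : ∀ z ∈ cube (n + r), ∫ s in cube 1, F (Fin.append z s) =
      1 / (T ^ (m + 1) * (c1 * ((m : ℝ) + m + 1))) *
        (pcEval (n + r) (pcTrunc n Q) z ^ ((r + 1) * (2 * m + 1)) *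
          pcEval (n + r) (a2C n r P Q rows) z / pcEval (n + r) (dCode n r Q) z) := by
    intro z hz
    have hD := dCode_pos n r Q hQ hz
    have hA : 0 < pcEval (n + r) (a2C n r P Q rows) z := lt_of_lt_of_le hD (a2C_bounds hQ hz).1
    have hq := q_pos hQ hz
    have h1 := a_le_one (P := P) (rows := rows) hQ hz
    rw [← hT] at h1
    rw [setIntegral_congr_fun (Sum_cube_meas 1) (e1 z hz), integral_const_mul,
      integral_cube_one (fun t => pp (2 * m) (pcEval (n + r) (pcTrunc n Q) z ^ (r + 1) *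
        pcEval (n + r) (a2C n r P Q rows) z - pcEval (n + r) (dCode n r Q) z * (T * (1 + t)))),
      integral_pp_line hD hT0 h1 (2 * m), pp_of_pos (by positivity)]
    obtain ⟨A, hAd⟩ : ∃ A, A = pcEval (n + r) (a2C n r P Q rows) z := ⟨_, rfl⟩
    obtain ⟨D, hDd⟩ : ∃ D, D = pcEval (n + r) (dCode n r Q) z := ⟨_, rfl⟩
    obtain ⟨q, hqd⟩ : ∃ q, q = pcEval (n + r) (pcTrunc n Q) z := ⟨_, rfl⟩
    rw [← hAd] at hA ⊢
    rw [← hDd] at hD ⊢
    rw [← hqd] at hq ⊢
    have h5 : (m : ℝ) + m + 1 ≠ 0 := by positivity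
    have h6 : (2 * (m : ℝ) + 1) ≠ 0 := by positivity
    have h7 : (m : ℝ) + m + 1 = 2 * m + 1 := by ring
    have h8 : (q ^ (r + 1) * A) ^ (2 * m + 1) = q ^ ((r + 1) * (2 * m + 1)) * (A ^ (2 * m) * A) := by
      rw [mul_pow, ← pow_mul, ← pow_succ]
    have h9 : (T * A ^ 2) ^ m = T ^ m * A ^ (2 * m) := by
      rw [mul_pow, ← pow_mul]
    rw [h7, h8, h9]
    push_cast
    field_simp
    ring
  unfold II
  rw [integral_cube_add (n + r + 1) m _ hint]
  have e3 : (fun x => ∫ s in cube m,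
    pp m (pcEval (n + r + 1 + m) (flat (s0C n r m P Q rows)) (Fin.append x s))) = F := hFd.symm
  rw [e3, integral_cube_add (n + r) 1 F hF, setIntegral_congr_fun (Sum_cube_meas _) e2,
    integral_const_mul, Finset.prod_range_succ, ← hc1, ← hT]

/-- The value of the constant. -/
theorem eval_c0C (m : ℕ) {T : ℕ} (hT : 1 ≤ T) (y : Fin 1 → ℝ) : pcEval 1 (c0C m T) y =
    1 / ((T : ℝ) ^ (m + 1) * ∏ i ∈ Finset.range (m + 1), ((m : ℝ) + i + 1)) := by
  rw [c0C, pcEval_mul, pcEval_pow, pcEval_prodRange, Eval_qinv]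
  have h1 : (((T - 1 : ℕ) : ℝ) + 1) = T := by
    rw [Nat.cast_sub hT]
    simp
  have h2 : (∏ i : Fin (m + 1), pcEval 1 [(qinv (m + (i : ℕ)), [])] y) =
      ∏ i : Fin (m + 1), 1 / ((m : ℝ) + (i : ℕ) + 1) := by
    refine Finset.prod_congr rfl fun i _ => ?_
    rw [Eval_qinv]
    push_cast
    ring
  rw [h1, h2, Fin.prod_univ_eq_prod_range (fun i => 1 / ((m : ℝ) + (i : ℕ) + 1)) (m + 1),
    Finset.prod_div_distrib, Finset.prod_const_one, one_div_pow, one_div_mul_one_div]

theorem Top_nN (r κ : ℕ) : nN r κ = (r + 1) * (2 * (2 * κ) + 1) + r := rfl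

/-- The integrand of the initial integral. -/
theorem Top_split (n r κ : ℕ) (P Q : PCode) (rows : List (List QCode))
    (hQ : ∀ y ∈ cube n, 0 < pcEval n Q y) {z : Fin (n + r) → ℝ} (hz : z ∈ cube (n + r)) :
    pcEval (n + r) (pcTrunc n Q) z ^ ((r + 1) * (2 * (2 * κ) + 1)) *
      pcEval (n + r) (a2C n r P Q rows) z / pcEval (n + r) (dCode n r Q) z =
      kC n r P Q rows * pcEval (n + r) (pcPow (pcTrunc n Q) ((r + 1) * (2 * (2 * κ) + 1))) z +
        pcEval (n + r) (aCode n r (nN r κ) Q (wC n P Q rows)) z /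
          pcEval (n + r) (dCode n r Q) z := by
  have hD := dCode_pos n r Q hQ hz
  rw [pcEval_aCode_wC, eval_a2C, pcEval_pow, Top_nN, pow_add]
  field_simp

theorem Top_measurable (n r κ : ℕ) (P Q : PCode) (rows : List (List QCode)) :
    Measurable (fun z => pcEval (n + r) (aCode n r (nN r κ) Q (wC n P Q rows)) z /
      pcEval (n + r) (dCode n r Q) z) :=
  (measurable_pcEval _ _).div (measurable_pcEval _ _)

theorem Top_integrable (n r κ : ℕ) (P Q : PCode) (rows : List (List QCode))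
    (hQ : ∀ y ∈ cube n, 0 < pcEval n Q y) :
    IntegrableOn (fun z => pcEval (n + r) (aCode n r (nN r κ) Q (wC n P Q rows)) z /
      pcEval (n + r) (dCode n r Q) z) (cube (n + r)) := by
  have hfin : volume (cube (n + r)) ≠ ⊤ := by
    rw [volume_cube]
    exact ENNReal.pow_ne_top (by simp)
  refine Measure.integrableOn_of_bounded (M := (bQ n Q : ℝ) ^ ((r + 1) * (2 * (2 * κ) + 1)) *
    ((bQ n Q : ℝ) ^ r * pcK (a1C n r P Q rows))) hfin
    (Top_measurable n r κ P Q rows).aestronglyMeasurable ?_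
  rw [ae_restrict_iff' (Sum_cube_meas _)]
  refine Filter.Eventually.of_forall fun z hz => ?_
  have hD := dCode_pos n r Q hQ hz
  have hq := q_pos hQ hz
  have hq1 := q_le (Q := Q) hz
  have hqr := q_pow_le hQ hz
  have hA := abs_pcEval_le (a1C n r P Q rows) hz
  rw [pcEval_aCode_wC, Top_nN, pow_add, Real.norm_eq_abs, abs_div, abs_of_pos hD, div_le_iff₀ hD,
    abs_mul, abs_mul, abs_of_pos (pow_pos hq _), abs_of_pos (pow_pos hq _)]
  have h1 : pcEval (n + r) (pcTrunc n Q) z ^ ((r + 1) * (2 * (2 * κ) + 1)) ≤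
      (bQ n Q : ℝ) ^ ((r + 1) * (2 * (2 * κ) + 1)) := pow_le_pow_left₀ hq.le hq1 _
  have h2 : 0 ≤ |pcEval (n + r) (a1C n r P Q rows) z| := abs_nonneg _
  have h3 : (0 : ℝ) ≤ (bQ n Q : ℝ) ^ r * pcEval (n + r) (dCode n r Q) z := by positivity
  have h4 : (0 : ℝ) ≤ (bQ n Q : ℝ) ^ ((r + 1) * (2 * (2 * κ) + 1)) := by positivity
  calc pcEval (n + r) (pcTrunc n Q) z ^ ((r + 1) * (2 * (2 * κ) + 1)) *
        pcEval (n + r) (pcTrunc n Q) z ^ r * |pcEval (n + r) (a1C n r P Q rows) z|
      ≤ (bQ n Q : ℝ) ^ ((r + 1) * (2 * (2 * κ) + 1)) *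
        ((bQ n Q : ℝ) ^ r * pcEval (n + r) (dCode n r Q) z) * pcK (a1C n r P Q rows) :=
        mul_le_mul (mul_le_mul h1 hqr (pow_pos hq _).le h4) hA h2 (mul_nonneg h4 h3)
    _ = _ := by ring

/-- The initial state. `II_s0C` for `m = 2 κ`; `A / D = K + q^r A_1 / D` (`eval_a2C`); `∫ q^e K = K ∫ q^e`, exact integral `pcEval_pcInt`;
`q^e q^r A_1 / D = aCode / dCode` with the exponent `N = nN r κ = e + r` (`pcEval_aCode_wC`), integrable (bounded: `|q^r A_1 / D|` is bounded by `a2C_bounds`-like estimates),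
`integral_ratio` (HC/Sum.lean). -/
theorem st0_spec {R : ℕ × PCode × PCode} {c : CC} (hc : cCheck R.1 R.2.1 R.2.2 c)
    (H : Region (pcPoly R.1 R.2.2) (cube R.1))
    (hint : IntegrableOn (fun x => pcEval R.1 R.2.1 x / pcEval R.1 R.2.2 x) (cube R.1)) :
    ∃ c0 q : ℚ, c0 ≠ 0 ∧ pcEval 1 (st0 R c).2 (fun _ => Real.pi) = q ∧
      II (st0 R c).1.1 (flat (st0 R c).1.2) (2 * c.1.1.2) =
        q + c0 * ∫ x in cube R.1, pcEval R.1 R.2.1 x / pcEval R.1 R.2.2 x := by
  obtain ⟨⟨⟨r, κ⟩, K0⟩, ⟨A0, rows⟩, gs⟩ := c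
  obtain ⟨n, P, Q⟩ := R
  obtain ⟨_, hhc, _⟩ := hc
  change hcCheck n P Q (((r, nN r κ), K0), (A0, wC n P Q rows), gs) at hhc
  change IntegrableOn (fun x => pcEval n P x / pcEval n Q x) (cube n) at hint
  change Region (pcPoly n Q) (cube n) at H
  have hQ : ∀ y ∈ cube n, 0 < pcEval n Q y := fun y hy => H.pos y hy
  have hII := II_s0C n r (2 * κ) P Q rows hQ
  have hG := Top_integrable n r κ P Q rows hQ
  have hrat := integral_ratio hhc H hint hG
  obtain ⟨qi, hqi⟩ := pcInt_rat (n + r) (pcPow (pcTrunc n Q) ((r + 1) * (2 * (2 * κ) + 1)))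
  have hT1 : 1 ≤ t0C n r P Q rows := one_le_t0C
  have hpos : (0 : ℚ) < (t0C n r P Q rows : ℚ) ^ (2 * κ + 1) *
      ∏ i ∈ Finset.range (2 * κ + 1), (((2 * κ : ℕ) : ℚ) + i + 1) := by
    have h1 : (0 : ℚ) < (t0C n r P Q rows : ℚ) := by exact_mod_cast hT1
    have h2 : (0 : ℚ) < ∏ i ∈ Finset.range (2 * κ + 1), (((2 * κ : ℕ) : ℚ) + i + 1) :=
      Finset.prod_pos fun i _ => by positivity
    positivity
  refine ⟨1 / ((t0C n r P Q rows : ℚ) ^ (2 * κ + 1) *
      ∏ i ∈ Finset.range (2 * κ + 1), (((2 * κ : ℕ) : ℚ) + i + 1)),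
    1 / ((t0C n r P Q rows : ℚ) ^ (2 * κ + 1) *
      ∏ i ∈ Finset.range (2 * κ + 1), (((2 * κ : ℕ) : ℚ) + i + 1)) * (kC n r P Q rows * qi),
    (one_div_pos.2 hpos).ne', ?_, ?_⟩
  · change pcEval 1 (q0C n r (2 * κ) P Q rows) (fun _ => Real.pi) = _
    rw [q0C, pcEval_mul, pcEval_mul, pcEval_nat, eval_c0C (2 * κ) hT1, pcEval_pcInt, hqi]
    push_cast
    ring
  · change II (n + r + 1 + 2 * κ) (flat (s0C n r (2 * κ) P Q rows)) (2 * κ) =
      _ + _ * ∫ x in cube n, pcEval n P x / pcEval n Q x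
    rw [hII, setIntegral_congr_fun (Sum_cube_meas _)
      (fun z hz => Top_split n r κ P Q rows hQ hz), integral_add _ hG, integral_const_mul, hqi,
      hrat]
    · push_cast
      ring
    · exact (LogB_aux2 _ (continuous_pcEval _ _)).const_mul _

end Pool.Agent.Lib.MP_bbe012_lc.CV
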