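import Mathlib
import Pool.Agent.Lib.MP_bbe012_lc.CV.Disc

/-!
# Integrals of truncated powers over a disc
-/

namespace Pool.Agent.Lib.MP_bbe012_lc.CV

open MeasureTheory Set HC

/-- The radial integral. -/
theorem Disc2_radial {a : ℝ} (ha : 0 < a) (k : ℕ) :
    ∫ r in Ioi (0 : ℝ), r * pp k (a - r ^ 2) = a ^ (k + 1) / (2 * (k + 1)) := by
  have hk : (k : ℝ) + 1 ≠ 0 := by positivity
  have hs : 0 < √a := Real.sqrt_pos.mpr ha
  have hsq : √a ^ 2 = a := Real.sq_sqrt ha.le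
  have h1 : ∫ r in Ioi (0 : ℝ), r * pp k (a - r ^ 2) = ∫ r in Ioo (0 : ℝ) (√a), r * pp k (a - r ^ 2) := by
    refine setIntegral_eq_of_subset_of_forall_sdiff_eq_zero measurableSet_Ioi Ioo_subset_Ioi_self ?_
    intro r hr
    obtain ⟨hr1, hr2⟩ := hr
    have h2 : √a ≤ r := by
      by_contra hcon
      exact hr2 ⟨hr1, not_le.mp hcon⟩
    have h3 : a - r ^ 2 ≤ 0 := by
      have h4 : √a ^ 2 ≤ r ^ 2 := pow_le_pow_left₀ hs.le h2 2
      rw [hsq] at h4
      linarith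
    rw [pp_of_nonpos h3, mul_zero]
  have h2 : ∫ r in Ioo (0 : ℝ) (√a), r * pp k (a - r ^ 2) = ∫ r in Ioo (0 : ℝ) (√a), r * (a - r ^ 2) ^ k := by
    refine setIntegral_congr_fun measurableSet_Ioo ?_
    intro r hr
    have h3 : 0 < a - r ^ 2 := by
      have h4 : r ^ 2 < √a ^ 2 := pow_lt_pow_left₀ hr.2 hr.1.le (by norm_num)
      rw [hsq] at h4
      linarith
    show r * pp k (a - r ^ 2) = r * (a - r ^ 2) ^ k
    rw [pp_of_pos h3]
  have h3 : ∫ r in Ioo (0 : ℝ) (√a), r * (a - r ^ 2) ^ k = ∫ r in (0 : ℝ)..(√a), r * (a - r ^ 2) ^ k := by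
    rw [intervalIntegral.integral_of_le hs.le, integral_Ioc_eq_integral_Ioo]
  have h4 : ∫ r in (0 : ℝ)..(√a), r * (a - r ^ 2) ^ k =
      (-(a - √a ^ 2) ^ (k + 1) / (2 * ((k : ℝ) + 1))) - (-(a - 0 ^ 2) ^ (k + 1) / (2 * ((k : ℝ) + 1))) := by
    have hd : ∀ r ∈ uIcc (0 : ℝ) (√a), HasDerivAt (fun r : ℝ => -(a - r ^ 2) ^ (k + 1) / (2 * ((k : ℝ) + 1)))
        (r * (a - r ^ 2) ^ k) r := by
      intro r _
      have h5 : HasDerivAt (fun r : ℝ => a - r ^ 2) (-(2 * r)) r := by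
        have h6 := (hasDerivAt_pow 2 r).const_sub a
        simpa using h6
      have h7 := (h5.pow (k + 1)).neg.div_const (2 * ((k : ℝ) + 1))
      refine h7.congr_deriv ?_
      simp only [Nat.add_sub_cancel]
      push_cast
      field_simp
    have hi : IntervalIntegrable (fun r : ℝ => r * (a - r ^ 2) ^ k) volume 0 (√a) :=
      (by fun_prop : Continuous fun r : ℝ => r * (a - r ^ 2) ^ k).intervalIntegrable _ _
    exact intervalIntegral.integral_eq_sub_of_hasDerivAt hd hi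
  rw [h1, h2, h3, h4, hsq, sub_self, zero_pow (Nat.succ_ne_zero k), neg_zero, zero_div, zero_pow (two_ne_zero), sub_zero]
  ring

/-- The integral over the plane: `∫ pp k (a - |w|^2) = π a^(k+1) / (k + 1)` for `a > 0` (polar coordinates: `integral_comp_polarCoord_symm`, or
`MeasureTheory.integral_fun_norm_addHaar` for the complex plane, or layers and `Complex.volume_ball`). -/
theorem integral_pp_plane (a : ℝ) (k : ℕ) :
    ∫ w : ℝ × ℝ, pp k (a - (w.1 ^ 2 + w.2 ^ 2)) = Real.pi / (k + 1) * pp (k + 1) a := by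
  have hk : (k : ℝ) + 1 ≠ 0 := by positivity
  rcases le_or_gt a 0 with ha | ha
  · have h1 : (fun w : ℝ × ℝ => pp k (a - (w.1 ^ 2 + w.2 ^ 2))) = fun _ => 0 := by
      funext w
      exact pp_of_nonpos (by nlinarith [sq_nonneg w.1, sq_nonneg w.2])
    rw [h1, integral_zero, pp_of_nonpos ha, mul_zero]
  · rw [← integral_comp_polarCoord_symm (fun w : ℝ × ℝ => pp k (a - (w.1 ^ 2 + w.2 ^ 2)))]
    have h1 : ∫ p in polarCoord.target, p.1 • pp k (a - ((polarCoord.symm p).1 ^ 2 + (polarCoord.symm p).2 ^ 2)) =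
        ∫ p in Ioi (0 : ℝ) ×ˢ Ioo (-Real.pi) Real.pi, (p.1 * pp k (a - p.1 ^ 2)) * (fun _ : ℝ => (1 : ℝ)) p.2 := by
      refine setIntegral_congr_fun (measurableSet_Ioi.prod measurableSet_Ioo) ?_
      intro p _
      show p.1 • pp k (a - ((polarCoord.symm p).1 ^ 2 + (polarCoord.symm p).2 ^ 2)) = (p.1 * pp k (a - p.1 ^ 2)) * 1
      rw [polarCoord_symm_apply]
      have h2 : (p.1 * Real.cos p.2) ^ 2 + (p.1 * Real.sin p.2) ^ 2 = p.1 ^ 2 := by
        have h3 := Real.cos_sq_add_sin_sq p.2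
        calc (p.1 * Real.cos p.2) ^ 2 + (p.1 * Real.sin p.2) ^ 2 =
            p.1 ^ 2 * (Real.cos p.2 ^ 2 + Real.sin p.2 ^ 2) := by ring
          _ = p.1 ^ 2 := by rw [h3, mul_one]
      show p.1 • pp k (a - ((p.1 * Real.cos p.2) ^ 2 + (p.1 * Real.sin p.2) ^ 2)) = (p.1 * pp k (a - p.1 ^ 2)) * 1
      rw [h2, smul_eq_mul, mul_one]
    rw [h1, Measure.volume_eq_prod,
      setIntegral_prod_mul (fun r : ℝ => r * pp k (a - r ^ 2)) (fun _ : ℝ => (1 : ℝ)) (Ioi 0) (Ioo (-Real.pi) Real.pi),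
      Disc2_radial ha k, pp_of_pos ha]
    have h2 : ∫ _ in Ioo (-Real.pi) Real.pi, (1 : ℝ) = 2 * Real.pi := by
      rw [setIntegral_const, smul_eq_mul, mul_one, Real.volume_real_Ioo_of_le (by linarith [Real.pi_pos])]
      ring
    rw [h2]
    field_simp

/-- The same for a disc in the box, in scaled coordinates. The integrand vanishes for `v` outside of `cube 2`
(as `|Y v_0 - c| < √a` implies `|Y v_0| < |c| + √a ≤ Y`), so the integral over `cube 2` is the integral over `Fin 2 → ℝ`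
(`MeasurableEquiv.finTwoArrow`, `volume_preserving_finTwoArrow`), then translate and scale
(`integral_sub_right_eq_self`, `Measure.integral_comp_smul`, or the one variable versions with Fubini). -/
theorem integral_pp_disc {a c Y : ℝ} (hY : 0 < Y) (h : |c| + √a ≤ Y) (k : ℕ) :
    ∫ v in cube 2, pp k (a - ((Y * v 0 - c) ^ 2 + (Y * v 1) ^ 2)) =
      Real.pi / (Y ^ 2 * (k + 1)) * pp (k + 1) a := by
  have hk : (k : ℝ) + 1 ≠ 0 := by positivity
  have hsa : 0 ≤ √a := Real.sqrt_nonneg a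
  have key : ∀ s : ℝ, √a ≤ |s| → a ≤ s ^ 2 := by
    intro s hs
    rcases le_or_gt a 0 with ha | ha
    · nlinarith [sq_nonneg s]
    · have h1 : √a ^ 2 ≤ |s| ^ 2 := pow_le_pow_left₀ hsa hs 2
      rw [Real.sq_sqrt ha.le, sq_abs] at h1
      exact h1
  have h1 : ∫ v in cube 2, pp k (a - ((Y * v 0 - c) ^ 2 + (Y * v 1) ^ 2)) =
      ∫ v : Fin 2 → ℝ, pp k (a - ((Y * v 0 - c) ^ 2 + (Y * v 1) ^ 2)) := by
    refine setIntegral_eq_integral_of_forall_compl_eq_zero ?_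
    intro v hv
    refine pp_of_nonpos ?_
    have hv' : ∃ i : Fin 2, ¬ v i ∈ Ioo (-1 : ℝ) 1 := by
      by_contra hcon
      apply hv
      intro i
      by_contra hi
      exact hcon ⟨i, hi⟩
    obtain ⟨i, hi⟩ := hv'
    have habs : 1 ≤ |v i| := by
      by_contra hcon
      exact hi (abs_lt.mp (not_le.mp hcon))
    have hYv : Y ≤ |Y * v i| := by
      rw [abs_mul, abs_of_pos hY]
      nlinarith
    fin_cases i
    · have h2 : √a ≤ |Y * v 0 - c| := by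
        have h3 : |Y * v 0| - |c| ≤ |Y * v 0 - c| := abs_sub_abs_le_abs_sub _ _
        have h4 : Y ≤ |Y * v 0| := hYv
        linarith
      have h5 := key _ h2
      nlinarith [sq_nonneg (Y * v 1)]
    · have h2 : √a ≤ |Y * v 1| := by
        have h4 : Y ≤ |Y * v 1| := hYv
        have h5 := abs_nonneg c
        linarith
      have h5 := key _ h2
      nlinarith [sq_nonneg (Y * v 0 - c)]
  have h2 : ∫ v : Fin 2 → ℝ, pp k (a - ((Y * v 0 - c) ^ 2 + (Y * v 1) ^ 2)) =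
      ∫ w : ℝ × ℝ, pp k (a - ((Y * w.1 - c) ^ 2 + (Y * w.2) ^ 2)) :=
    (volume_preserving_finTwoArrow ℝ).integral_comp'
      (fun w : ℝ × ℝ => pp k (a - ((Y * w.1 - c) ^ 2 + (Y * w.2) ^ 2)))
  have h3 : ∫ w : ℝ × ℝ, pp k (a - ((Y * w.1 - c) ^ 2 + (Y * w.2) ^ 2)) =
      |(Y ^ Module.finrank ℝ (ℝ × ℝ))⁻¹| • ∫ w : ℝ × ℝ, pp k (a - ((w.1 - c) ^ 2 + w.2 ^ 2)) :=
    Measure.integral_comp_smul volume (fun w : ℝ × ℝ => pp k (a - ((w.1 - c) ^ 2 + w.2 ^ 2))) Y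
  have h4 : ∫ w : ℝ × ℝ, pp k (a - ((w.1 - c) ^ 2 + w.2 ^ 2)) =
      ∫ w : ℝ × ℝ, pp k (a - (w.1 ^ 2 + w.2 ^ 2)) := by
    have h5 := integral_sub_right_eq_self (μ := (volume : Measure (ℝ × ℝ)))
      (fun w : ℝ × ℝ => pp k (a - (w.1 ^ 2 + w.2 ^ 2))) ((c, 0) : ℝ × ℝ)
    rw [← h5]
    refine integral_congr_ae (Filter.Eventually.of_forall fun w => ?_)
    show pp k (a - ((w.1 - c) ^ 2 + w.2 ^ 2)) = pp k (a - ((w - ((c, 0) : ℝ × ℝ)).1 ^ 2 + (w - ((c, 0) : ℝ × ℝ)).2 ^ 2))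
    rw [Prod.fst_sub, Prod.snd_sub, sub_zero]
  have hfin : Module.finrank ℝ (ℝ × ℝ) = 2 := by
    rw [Module.finrank_prod, Module.finrank_self]
  rw [h1, h2, h3, h4, integral_pp_plane, hfin, abs_of_pos (by positivity), smul_eq_mul]
  field_simp

end Pool.Agent.Lib.MP_bbe012_lc.CV
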