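import Mathlib
import Pool.Agent.Lib.MP_bbe012_lc.CV.EvalS

/-!
# The values of the polynomials of one round
-/

namespace Pool.Agent.Lib.MP_bbe012_lc.CV

open MeasureTheory Set HC

private theorem StepE_app {n k : ℕ} {p : PCode} (hp : Tr n p) (x : Fin n → ℝ) (u : Fin k → ℝ) :
    pcEval (n + k) p (Fin.append x u) = pcEval n p x := by
  rw [hp (n + k) (Nat.le_add_right n k)]
  congr 1
  funext i
  exact Fin.append_left x u i

private theorem StepE_app2 {n k l : ℕ} {p : PCode} (hp : Tr n p) (x : Fin n → ℝ)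
    (u : Fin k → ℝ) (v : Fin l → ℝ) :
    pcEval (n + k + l) p (Fin.append (Fin.append x u) v) = pcEval n p x := by
  rw [hp (n + k + l) (by omega)]
  congr 1
  funext i
  exact (Fin.append_left (Fin.append x u) v (Fin.castAdd k i)).trans (Fin.append_left x u i)

private theorem StepE_var {n k : ℕ} (x : Fin n → ℝ) (u : Fin k → ℝ) (j : ℕ) (hj : j < k) :
    pcEval (n + k) (pcVar (n + j)) (Fin.append x u) = u ⟨j, hj⟩ := by
  rw [pcEval_var (by omega)]
  exact Fin.append_right x u ⟨j, hj⟩

private theorem StepE_var2 {n k l : ℕ} (x : Fin n → ℝ) (u : Fin k → ℝ) (v : Fin l → ℝ) (j : ℕ)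
    (hj : j < k) :
    pcEval (n + k + l) (pcVar (n + j)) (Fin.append (Fin.append x u) v) = u ⟨j, hj⟩ := by
  rw [pcEval_var (by omega)]
  exact (Fin.append_left (Fin.append x u) v (Fin.natAdd n ⟨j, hj⟩)).trans
    (Fin.append_right x u ⟨j, hj⟩)

private theorem StepE_half {n : ℕ} (x : Fin n → ℝ) : pcEval n [(qinv 1, [])] x = 1 / 2 := by
  rw [pcEval_cons]
  simp [qval, qinv]
  norm_num

/-- The value of `f` (with `e`, `z`, `g` the values of `eC L`, `zC L`, `flat R` at `x`):
`f = (T u_0 - (e + z) / 2)^2 + (T u_1)^2 - (e z + g)`. -/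
theorem eval_fC (n T : ℕ) {L : List PCode} {R : SCode} (he : Tr n (eC L)) (hz : Tr n (zC L))
    (hR : Tr n (flat R)) (x : Fin n → ℝ) (u : Fin 2 → ℝ) :
    pcEval (n + 2) (fC n T L R) (Fin.append x u) =
      ((T * u 0 - (pcEval n (eC L) x + pcEval n (zC L) x) / 2) ^ 2 + (T * u 1) ^ 2) -
        (pcEval n (eC L) x * pcEval n (zC L) x + pcEval n (flat R) x) := by
  have h0 : pcEval (n + 2) (uV n T) (Fin.append x u) = T * u 0 := by
    rw [uV, pcEval_mul, pcEval_nat]
    exact congrArg _ (StepE_var x u 0 (by norm_num))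
  have h1 : pcEval (n + 2) (uV (n + 1) T) (Fin.append x u) = T * u 1 := by
    rw [uV, pcEval_mul, pcEval_nat]
    exact congrArg _ (StepE_var x u 1 (by norm_num))
  simp only [fC, pcEval_append, pcEval_mul, pcEval_neg, pcEval_pow, h0, h1, StepE_half,
    StepE_app he, StepE_app hz, StepE_app hR]
  ring

/-- The value of the polynomial after one round. -/
theorem eval_nextS (n T Y : ℕ) {L : List PCode} {R : SCode} (he : Tr n (eC L)) (hz : Tr n (zC L))
    (hR : Tr n (flat R)) (x : Fin n → ℝ) (u v : Fin 2 → ℝ) :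
    pcEval (n + 2 + 2) (flat (nextS n T Y L R)) (Fin.append (Fin.append x u) v) =
      pcEval (n + 2) (fC n T L R) (Fin.append x u) -
        ((Y * v 0 - (T * u 0 + (pcEval n (eC L) x - pcEval n (zC L) x) / 2)) ^ 2 +
          (Y * v 1) ^ 2) := by
  have h0 : pcEval (n + 2 + 2) (uV n T) (Fin.append (Fin.append x u) v) = T * u 0 := by
    rw [uV, pcEval_mul, pcEval_nat]
    exact congrArg _ (StepE_var2 x u v 0 (by norm_num))
  have h1 : pcEval (n + 2 + 2) (uV (n + 1) T) (Fin.append (Fin.append x u) v) = T * u 1 := by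
    rw [uV, pcEval_mul, pcEval_nat]
    exact congrArg _ (StepE_var2 x u v 1 (by norm_num))
  have h2 : pcEval (n + 2 + 2) (uV (n + 2) Y) (Fin.append (Fin.append x u) v) = Y * v 0 := by
    rw [uV, pcEval_mul, pcEval_nat]
    exact congrArg _ (StepE_var (Fin.append x u) v 0 (by norm_num))
  have h3 : pcEval (n + 2 + 2) (uV (n + 3) Y) (Fin.append (Fin.append x u) v) = Y * v 1 := by
    rw [uV, pcEval_mul, pcEval_nat]
    exact congrArg _ (StepE_var (Fin.append x u) v 1 (by norm_num))
  have hz' : pcEval (n + 2 + 2) (L.getD 0 []) (Fin.append (Fin.append x u) v) *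
      pcEval (n + 2 + 2) (L.getD 1 []) (Fin.append (Fin.append x u) v) = pcEval n (zC L) x := by
    rw [← StepE_app2 hz x u v, zC, pcEval_mul]
  have he' : pcEval (n + 2 + 2) (pcProdL (L.drop 2)) (Fin.append (Fin.append x u) v) =
      pcEval n (eC L) x := StepE_app2 he x u v
  have hnil : pcEval (n + 2 + 2) (flat []) (Fin.append (Fin.append x u) v) = 0 := by
    simp [flat]
  have hc : ∀ (a : PCode) (M : List PCode), pcEval (n + 2 + 2) (pcProdL (a :: M))
      (Fin.append (Fin.append x u) v) = pcEval (n + 2 + 2) a (Fin.append (Fin.append x u) v) *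
        pcEval (n + 2 + 2) (pcProdL M) (Fin.append (Fin.append x u) v) := by
    intro a M
    rw [pcProdL, List.foldr_cons, pcEval_mul]
    rfl
  have hn : pcEval (n + 2 + 2) (pcProdL []) (Fin.append (Fin.append x u) v) = 1 := by
    rw [pcProdL, List.foldr_nil, pcEval_nat]; simp
  rw [eval_fC n T he hz hR, nextS, pcEval_flat_append, pcEval_flat_neg, StepE_app2 hR]
  simp only [pcEval_flat_cons, hnil, hc, hn, he', pcEval_append, pcEval_neg, pcEval_mul,
    pcEval_nat, h0, h1, h2, h3]
  have h5 : pcEval (n + 2 + 2) (L.getD 0 []) (Fin.append (Fin.append x u) v) *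
      (pcEval (n + 2 + 2) (L.getD 1 []) (Fin.append (Fin.append x u) v) * (-(Y * v 0) * 1)) =
      pcEval n (zC L) x * (-(Y * v 0)) := by
    rw [← hz']; ring
  rw [h5]
  push_cast
  ring

end Pool.Agent.Lib.MP_bbe012_lc.CV
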