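import Mathlib
import Pool.Agent.Lib.MP_bbe012_lc.CV.StepE
import Pool.Agent.Lib.MP_bbe012_lc.CV.Disc2
import Pool.Agent.Lib.MP_bbe012_lc.CV.IntC

/-!
# The integral of one round
-/

namespace Pool.Agent.Lib.MP_bbe012_lc.CV

open MeasureTheory Set HC

theorem StepI_append_mem {n m : ℕ} {x : Fin n → ℝ} (hx : x ∈ cube n) {u : Fin m → ℝ}
    (hu : u ∈ cube m) : Fin.append x u ∈ cube (n + m) := by
  intro i
  refine Fin.addCases (fun i => ?_) (fun i => ?_) i
  · rw [Fin.append_left]; exact hx i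
  · rw [Fin.append_right]; exact hu i

theorem StepI_append_eq {n m : ℕ} (w : Fin (n + m) → ℝ) :
    Fin.append (fun i => w (Fin.castAdd m i)) (fun i => w (Fin.natAdd n i)) = w := by
  funext i
  refine Fin.addCases (fun i => ?_) (fun i => ?_) i
  · rw [Fin.append_left]
  · rw [Fin.append_right]

theorem StepI_cube_meas (m : ℕ) : MeasurableSet (cube m) := by
  have : cube m = Set.pi univ fun _ => Ioo (-1 : ℝ) 1 := by
    ext z
    simp [cube]
  rw [this]
  exact MeasurableSet.univ_pi fun _ => measurableSet_Ioo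

theorem StepI_qinv (m i : ℕ) (z : Fin m → ℝ) :
    pcEval m [(qinv i, [])] z = 1 / ((i : ℝ) + 1) := by
  rw [pcEval_cons, pcEval_nil]
  simp [qinv, qval]

theorem StepI_sqrt_le (a K : ℝ) (h : |a| ≤ K) : √a ≤ (1 + K) / 2 := by
  have h0 : 0 ≤ |a| := abs_nonneg a
  have h1 : √a ≤ √|a| := Real.sqrt_le_sqrt (le_abs_self a)
  have h2 : √|a| ^ 2 = |a| := Real.sq_sqrt h0
  nlinarith [sq_nonneg (√|a| - 1)]

/-- The inner integral over `v`: `eval_nextS`, `integral_pp_disc` with `a = f`, `c = T u_0 + (e - z) / 2`. Bounds (`abs_pcEval_le`):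
`|u_0| ≤ 1`, `|e| ≤ pcK (eC L)`, `|z| ≤ pcK (zC L)`, `√f ≤ 1 + |f| ≤ 1 + pcK (fC n T L R)` at the point `Fin.append x u` of `cube (n + 2)`. -/
theorem inner_v (n T k : ℕ) {L : List PCode} {R : SCode} (he : Tr n (eC L)) (hz : Tr n (zC L))
    (hR : Tr n (flat R)) {x : Fin n → ℝ} (hx : x ∈ cube n) {u : Fin 2 → ℝ} (hu : u ∈ cube 2) :
    ∫ v in cube 2, pp k (pcEval (n + 2 + 2) (flat (nextS n T (yB n T L R) L R))
        (Fin.append (Fin.append x u) v)) =
      Real.pi / ((yB n T L R : ℝ) ^ 2 * (k + 1)) *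
        pp (k + 1) (pcEval (n + 2) (fC n T L R) (Fin.append x u)) := by
  have h1 : ∀ v : Fin 2 → ℝ, pp k (pcEval (n + 2 + 2) (flat (nextS n T (yB n T L R) L R))
      (Fin.append (Fin.append x u) v)) =
      pp k (pcEval (n + 2) (fC n T L R) (Fin.append x u) -
        ((((yB n T L R : ℕ) : ℝ) * v 0 - (T * u 0 + (pcEval n (eC L) x - pcEval n (zC L) x) / 2)) ^ 2 +
          (((yB n T L R : ℕ) : ℝ) * v 1) ^ 2)) := by
    intro v
    rw [eval_nextS n T (yB n T L R) he hz hR x u v]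
  simp only [h1]
  have hYeq : ((yB n T L R : ℕ) : ℝ) = 1 + T + pcK (eC L) + pcK (zC L) + pcK (fC n T L R) := by
    rw [yB]; push_cast; ring
  have hT0 : (0 : ℝ) ≤ T := Nat.cast_nonneg T
  have hE := abs_pcEval_le (eC L) hx
  have hZ := abs_pcEval_le (zC L) hx
  have hF := abs_pcEval_le (fC n T L R) (StepI_append_mem hx hu)
  have hK : (0 : ℝ) ≤ pcK (fC n T L R) := Nat.cast_nonneg _
  have hKe : (0 : ℝ) ≤ pcK (eC L) := Nat.cast_nonneg _
  have hKz : (0 : ℝ) ≤ pcK (zC L) := Nat.cast_nonneg _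
  have hY : (0 : ℝ) < ((yB n T L R : ℕ) : ℝ) := by
    rw [hYeq]; positivity
  have hs := StepI_sqrt_le _ _ hF
  have hu0 : |u 0| ≤ 1 := by
    rw [abs_le]; exact ⟨(hu 0).1.le, (hu 0).2.le⟩
  have hTu : |(T : ℝ) * u 0| ≤ T := by
    rw [abs_mul, abs_of_nonneg hT0]
    nlinarith
  have hc : |(T : ℝ) * u 0 + (pcEval n (eC L) x - pcEval n (zC L) x) / 2| ≤
      T + (pcK (eC L) + pcK (zC L)) / 2 := by
    rw [abs_le] at hTu hE hZ ⊢
    constructor <;> linarith [hTu.1, hTu.2, hE.1, hE.2, hZ.1, hZ.2]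
  refine integral_pp_disc hY ?_ k
  rw [hYeq]
  linarith

/-- The second part of the inner integral over `u`. -/
theorem StepI_inner (n k : ℕ) {L : List PCode} {R : SCode} (he : Tr n (eC L))
    (hz : Tr n (zC L)) (hR : Tr n (flat R)) {x : Fin n → ℝ} (hx : x ∈ cube n) :
    ∫ u in cube 2, pp (k + 1) (-(pcEval (n + 2) (fC n (tB L R) L R) (Fin.append x u))) =
        Real.pi / ((tB L R : ℝ) ^ 2 * (k + 2)) *
          pp (k + 2) (pcEval n (eC L) x * pcEval n (zC L) x + pcEval n (flat R) x) := by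
  have h1 : ∀ u : Fin 2 → ℝ, pp (k + 1) (-(pcEval (n + 2) (fC n (tB L R) L R) (Fin.append x u))) =
      pp (k + 1) ((pcEval n (eC L) x * pcEval n (zC L) x + pcEval n (flat R) x) -
        ((((tB L R : ℕ) : ℝ) * u 0 - (pcEval n (eC L) x + pcEval n (zC L) x) / 2) ^ 2 +
          (((tB L R : ℕ) : ℝ) * u 1) ^ 2)) := by
    intro u
    rw [eval_fC n (tB L R) he hz hR x u]
    congr 1
    ring
  simp only [h1]
  have hYeq : ((tB L R : ℕ) : ℝ) = 1 + pcK (eC L) + pcK (zC L) + pcK (flat R) +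
      pcK (eC L) * pcK (zC L) := by
    rw [tB]; push_cast; ring
  have hE := abs_pcEval_le (eC L) hx
  have hZ := abs_pcEval_le (zC L) hx
  have hF := abs_pcEval_le (flat R) hx
  have hK : (0 : ℝ) ≤ pcK (flat R) := Nat.cast_nonneg _
  have hKe : (0 : ℝ) ≤ pcK (eC L) := Nat.cast_nonneg _
  have hKz : (0 : ℝ) ≤ pcK (zC L) := Nat.cast_nonneg _
  have hY : (0 : ℝ) < ((tB L R : ℕ) : ℝ) := by
    rw [hYeq]; positivity
  have ha : |pcEval n (eC L) x * pcEval n (zC L) x + pcEval n (flat R) x| ≤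
      pcK (eC L) * pcK (zC L) + pcK (flat R) := by
    refine (abs_add_le _ _).trans (add_le_add ?_ hF)
    rw [abs_mul]
    exact mul_le_mul hE hZ (abs_nonneg _) hKe
  have hs := StepI_sqrt_le _ _ ha
  have hc : |(pcEval n (eC L) x + pcEval n (zC L) x) / 2| ≤ (pcK (eC L) + pcK (zC L)) / 2 := by
    rw [abs_le] at hE hZ ⊢
    constructor <;> linarith [hE.1, hE.2, hZ.1, hZ.2]
  have hKK : (0 : ℝ) ≤ pcK (eC L) * pcK (zC L) := mul_nonneg hKe hKz
  have h2 := integral_pp_disc (a := pcEval n (eC L) x * pcEval n (zC L) x + pcEval n (flat R) x)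
    (c := (pcEval n (eC L) x + pcEval n (zC L) x) / 2) (Y := ((tB L R : ℕ) : ℝ)) hY
    (by rw [hYeq]; linarith) (k + 1)
  rw [h2]
  push_cast
  ring

theorem StepI_pp_split {k : ℕ} (hk : Even k) (a : ℝ) :
    pp (k + 1) a = a ^ (k + 1) + pp (k + 1) (-a) := by
  have h := pow_eq_pp k a
  rw [(hk.add_one).neg_one_pow] at h
  linarith

/-- The inner integral over `u` for even `k`: `eval_fC`, `pow_eq_pp k f` with `(-1)^(k+1) = -1`:
`pp (k+1) f = f^(k+1) + pp (k+1) (-f)`, and `-f = (e z + g) - ((T u_0 - (e+z)/2)^2 + (T u_1)^2)`, `integral_pp_disc` with `Y = T = tB L R`,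
`c = (e + z) / 2`, `a = e z + g`. Bounds: `|c| ≤ (pcK e + pcK z) / 2`, `√a ≤ (1 + |a|) / 2` hence `|c| + √a ≤ tB L R`. -/
theorem inner_u (n k : ℕ) (hk : Even k) {L : List PCode} {R : SCode} (he : Tr n (eC L))
    (hz : Tr n (zC L)) (hR : Tr n (flat R)) {x : Fin n → ℝ} (hx : x ∈ cube n) :
    ∫ u in cube 2, pp (k + 1) (pcEval (n + 2) (fC n (tB L R) L R) (Fin.append x u)) =
      (∫ u in cube 2, (pcEval (n + 2) (fC n (tB L R) L R) (Fin.append x u)) ^ (k + 1)) +
        Real.pi / ((tB L R : ℝ) ^ 2 * (k + 2)) *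
          pp (k + 2) (pcEval n (eC L) x * pcEval n (zC L) x + pcEval n (flat R) x) := by
  have hcont : Continuous fun u : Fin 2 → ℝ =>
      pcEval (n + 2) (fC n (tB L R) L R) (Fin.append x u) := by
    refine (continuous_pcEval _ _).comp ?_
    refine continuous_pi fun i => ?_
    refine Fin.addCases (fun i => ?_) (fun i => ?_) i
    · simp only [Fin.append_left]; exact continuous_const
    · simp only [Fin.append_right]; exact continuous_apply i
  have hI1 : IntegrableOn (fun u : Fin 2 → ℝ =>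
      (pcEval (n + 2) (fC n (tB L R) L R) (Fin.append x u)) ^ (k + 1)) (cube 2) :=
    LogB_aux2 2 (hcont.pow (k + 1))
  have hI2 : IntegrableOn (fun u : Fin 2 → ℝ =>
      pp (k + 1) (-(pcEval (n + 2) (fC n (tB L R) L R) (Fin.append x u)))) (cube 2) := by
    refine integrableOn_pp (k + 1) (B := pcK (fC n (tB L R) L R)) hcont.measurable.neg ?_
    intro u hu
    rw [abs_neg]
    exact abs_pcEval_le _ (StepI_append_mem hx hu)
  rw [← StepI_inner n k he hz hR hx, ← integral_add hI1 hI2]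
  refine integral_congr_ae (Filter.Eventually.of_forall fun u => ?_)
  exact StepI_pp_split hk _

/-- One round, for the choice `L`, `R`. Fubini's theorem `integral_cube_add` (HC/LogB.lean) for `n + 2 + 2` and `n + 2` (the type `Fin (n + 4)` is
definitionally `Fin (n + 2 + 2)`, use `show`), integrability `integrableOn_pp_pcEval` and `LogB_aux2`, `continuous_pcEval`; `pcEval_pow`. -/
theorem round_integral (n k : ℕ) (hk : Even k) {L : List PCode} {R : SCode} (he : Tr n (eC L))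
    (hz : Tr n (zC L)) (hR : Tr n (flat R)) :
    II (n + 4) (flat (nextS n (tB L R) (yB n (tB L R) L R) L R)) k =
      Real.pi / ((yB n (tB L R) L R : ℝ) ^ 2 * (k + 1)) *
        ((∫ x in cube (n + 2), pcEval (n + 2) (pcPow (fC n (tB L R) L R) (k + 1)) x) +
          Real.pi / ((tB L R : ℝ) ^ 2 * (k + 2)) *
            ∫ x in cube n, pp (k + 2) (pcEval n (eC L) x * pcEval n (zC L) x +
              pcEval n (flat R) x)) := by
  have hA : II (n + 4) (flat (nextS n (tB L R) (yB n (tB L R) L R) L R)) k =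
      ∫ w in cube (n + 2), ∫ v in cube 2,
        pp k (pcEval (n + 2 + 2) (flat (nextS n (tB L R) (yB n (tB L R) L R) L R))
          (Fin.append w v)) :=
    integral_cube_add (n + 2) 2 _ (integrableOn_pp_pcEval (n + 2 + 2) k _)
  have hB : ∀ w ∈ cube (n + 2), ∫ v in cube 2,
        pp k (pcEval (n + 2 + 2) (flat (nextS n (tB L R) (yB n (tB L R) L R) L R))
          (Fin.append w v)) =
      Real.pi / ((yB n (tB L R) L R : ℝ) ^ 2 * (k + 1)) *
        pp (k + 1) (pcEval (n + 2) (fC n (tB L R) L R) w) := by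
    intro w hw
    have h := inner_v n (tB L R) k he hz hR (x := fun i => w (Fin.castAdd 2 i))
      (fun i => hw (Fin.castAdd 2 i)) (u := fun i => w (Fin.natAdd n i)) (fun i => hw (Fin.natAdd n i))
    rw [StepI_append_eq w] at h
    exact h
  rw [hA, setIntegral_congr_fun (StepI_cube_meas (n + 2)) hB, integral_const_mul]
  congr 1
  have hI1 : IntegrableOn (fun w : Fin (n + 2) → ℝ =>
      pcEval (n + 2) (pcPow (fC n (tB L R) L R) (k + 1)) w) (cube (n + 2)) :=
    LogB_aux2 (n + 2) (continuous_pcEval _ _)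
  have hI2 : IntegrableOn (fun w : Fin (n + 2) → ℝ =>
      pp (k + 1) (-(pcEval (n + 2) (fC n (tB L R) L R) w))) (cube (n + 2)) := by
    refine integrableOn_pp (k + 1) (B := pcK (fC n (tB L R) L R)) (measurable_pcEval _ _).neg ?_
    intro u hu
    rw [abs_neg]
    exact abs_pcEval_le _ hu
  have hC : ∫ w in cube (n + 2), pp (k + 1) (pcEval (n + 2) (fC n (tB L R) L R) w) =
      (∫ w in cube (n + 2), pcEval (n + 2) (pcPow (fC n (tB L R) L R) (k + 1)) w) +
        ∫ w in cube (n + 2), pp (k + 1) (-(pcEval (n + 2) (fC n (tB L R) L R) w)) := by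
    rw [← integral_add hI1 hI2]
    refine integral_congr_ae (Filter.Eventually.of_forall fun w => ?_)
    show pp (k + 1) (pcEval (n + 2) (fC n (tB L R) L R) w) =
      pcEval (n + 2) (pcPow (fC n (tB L R) L R) (k + 1)) w +
        pp (k + 1) (-(pcEval (n + 2) (fC n (tB L R) L R) w))
    rw [pcEval_pow]
    exact StepI_pp_split hk _
  rw [hC]
  congr 1
  rw [integral_cube_add n 2 _ hI2, ← integral_const_mul]
  refine setIntegral_congr_fun (StepI_cube_meas n) fun x hx => ?_
  exact StepI_inner n k he hz hR hx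

/-- One round for a state: `tr_pick`, `round_integral`, `pick_eval` for `trS n S`, `pcEval_flat_trS`. -/
theorem step_integral (k : ℕ) (hk : Even k) (s : St) :
    ∃ (T Y : ℕ) (q : ℚ), 1 ≤ T ∧ 1 ≤ Y ∧
      II (step k s).1.1 (flat (step k s).1.2) k =
        Real.pi / ((Y : ℝ) ^ 2 * (k + 1)) *
          (q + Real.pi / ((T : ℝ) ^ 2 * (k + 2)) * II s.1.1 (flat s.1.2) (k + 2)) ∧
      pcEval 1 (step k s).2 (fun _ => Real.pi) =
        Real.pi / ((Y : ℝ) ^ 2 * (k + 1)) *
          (q + Real.pi / ((T : ℝ) ^ 2 * (k + 2)) * pcEval 1 s.2 fun _ => Real.pi) := by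
  obtain ⟨⟨n, S⟩, Q⟩ := s
  obtain ⟨he, hz, hR⟩ := tr_pick n S
  set L := (pick (trS n S)).1 with hL
  set R := (pick (trS n S)).2 with hRd
  obtain ⟨q, hq⟩ := pcInt_rat (n + 2) (pcPow (fC n (tB L R) L R) (k + 1))
  have hT : 1 ≤ tB L R := by unfold tB; omega
  have hY : 1 ≤ yB n (tB L R) L R := by unfold yB; omega
  refine ⟨tB L R, yB n (tB L R) L R, q, hT, hY, ?_, ?_⟩
  · have h := round_integral n k hk he hz hR
    rw [hq] at h
    have h2 : ∫ x in cube n, pp (k + 2) (pcEval n (eC L) x * pcEval n (zC L) x +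
              pcEval n (flat R) x) = II n (flat S) (k + 2) := by
      refine integral_congr_ae (Filter.Eventually.of_forall fun x => ?_)
      show pp (k + 2) (pcEval n (eC L) x * pcEval n (zC L) x + pcEval n (flat R) x) =
        pp (k + 2) (pcEval n (flat S) x)
      rw [← pick_eval n (trS n S) x, pcEval_flat_trS]
    rw [h2] at h
    exact h
  · have hq' : pcEval 1 (pcInt (n + 2) (pcPow (fC n (tB L R) L R) (k + 1))) (fun _ => Real.pi) = q := by
      rw [pcEval_pcInt, hq]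
    show pcEval 1 (nextQ n k (tB L R) (yB n (tB L R) L R) (fC n (tB L R) L R) Q) (fun _ => Real.pi) = _
    have hinv : ∀ N : ℕ, 1 ≤ N → pcEval 1 [(qinv (N - 1), [])] (fun _ : Fin 1 => Real.pi) = 1 / (N : ℝ) := by
      intro N hN
      rw [StepI_qinv]
      congr 1
      rw [Nat.cast_sub hN]
      push_cast
      ring
    have h1 : 1 ≤ (yB n (tB L R) L R) ^ 2 * (k + 1) := Nat.mul_pos (by positivity) (Nat.succ_pos k)
    have h2 : 1 ≤ (tB L R) ^ 2 * (k + 2) := Nat.mul_pos (by positivity) (by omega)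
    rw [nextQ, pcEval_mul, pcEval_mul, pcEval_append, pcEval_mul, pcEval_mul, hq', hinv _ h1, hinv _ h2,
      pcEval_var (by omega : 0 < 1)]
    push_cast
    ring

end Pool.Agent.Lib.MP_bbe012_lc.CV
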