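import Mathlib
import Pool.Agent.Lib.MP_bbe012_lc.CV.Defs
import Pool.Agent.Lib.MP_bbe012_lc.HC.PrimB

/-!
# One round is primitive recursive
-/

namespace Pool.Agent.Lib.MP_bbe012_lc.CV

open Primrec HC

variable {α : Type} [Primcodable α]

/-- `list_foldr`. -/
theorem pr_prodL {L : α → List PCode} (hL : Primrec L) : Primrec fun a => pcProdL (L a) :=
  list_foldr hL (const (pcNat 1)) (pr_mul (fst.comp snd) (snd.comp snd)).to₂

/-- `list_flatMap`. -/
theorem pr_flat {S : α → SCode} (hS : Primrec S) : Primrec fun a => flat (S a) :=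
  list_flatMap hS (pr_prodL snd).to₂

private theorem Prim_headD {L : α → List PCode} (hL : Primrec L) :
    Primrec fun a => (L a).headD (pcNat 1) := by
  have h : Primrec fun a => (L a).head?.getD (pcNat 1) :=
    option_getD.comp (list_head?.comp hL) (const (pcNat 1))
  refine h.of_eq fun a => ?_
  cases L a <;> rfl

/-- `list_headD` or `list_getD`, `list_tail`. -/
theorem pr_negL {L : α → List PCode} (hL : Primrec L) : Primrec fun a => negL (L a) :=
  list_cons.comp (pr_neg (Prim_headD hL)) (list_tail.comp hL)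

theorem pr_trS {n : α → ℕ} {S : α → SCode} (hn : Primrec n) (hS : Primrec S) :
    Primrec fun a => trS (n a) (S a) := by
  have h1 : Primrec₂ fun (p : α × List PCode) (q : PCode) => pcTrunc (n p.1) q :=
    (pr_trunc (hn.comp (fst.comp fst)) snd).to₂
  have h2 : Primrec₂ fun (a : α) (L : List PCode) => L.map (pcTrunc (n a)) :=
    (list_map (f := fun p : α × List PCode => p.2)
      (g := fun (p : α × List PCode) (q : PCode) => pcTrunc (n p.1) q) snd h1).to₂
  exact list_map hS h2

/-- `list_foldr`, `Primrec.ite`. -/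
theorem pr_pick {S : α → SCode} (hS : Primrec S) : Primrec fun a => pick (S a) := by
  have hc : PrimrecPred fun z : α × (List PCode × (List PCode × SCode)) =>
      z.2.2.1.length = 0 ∧ 4 ≤ z.2.1.length :=
    (Primrec.eq.comp (list_length.comp (fst.comp (snd.comp snd))) (const 0)).and
      (nat_le.comp (const 4) (list_length.comp (fst.comp snd)))
  have h : Primrec fun z : α × (List PCode × (List PCode × SCode)) =>
      if z.2.2.1.length = 0 ∧ 4 ≤ z.2.1.length then (z.2.1, z.2.2.2)
        else (z.2.2.1, z.2.1 :: z.2.2.2) :=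
    Primrec.ite hc (pair (fst.comp snd) (snd.comp (snd.comp snd)))
      (pair (fst.comp (snd.comp snd)) (list_cons.comp (fst.comp snd) (snd.comp (snd.comp snd))))
  exact list_foldr hS (const ([], [])) h.to₂

theorem pr_zC {L : α → List PCode} (hL : Primrec L) : Primrec fun a => zC (L a) :=
  pr_mul ((list_getD []).comp hL (const 0)) ((list_getD []).comp hL (const 1))

private theorem Prim_drop2 {L : α → List PCode} (hL : Primrec L) :
    Primrec fun a => (L a).drop 2 := by
  refine (list_tail.comp (list_tail.comp hL)).of_eq fun a => ?_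
  rcases L a with _ | ⟨x, _ | ⟨y, t⟩⟩ <;> rfl

/-- `L.drop 2 = L.tail.tail`. -/
theorem pr_eC {L : α → List PCode} (hL : Primrec L) : Primrec fun a => eC (L a) :=
  pr_prodL (Prim_drop2 hL)

theorem pr_uV {i T : α → ℕ} (hi : Primrec i) (hT : Primrec T) : Primrec fun a => uV (i a) (T a) :=
  pr_mul (pr_natv hT) (pr_var hi)

theorem pr_tB {L : α → List PCode} {R : α → SCode} (hL : Primrec L) (hR : Primrec R) :
    Primrec fun a => tB (L a) (R a) := by
  have h1 : Primrec fun a => pcK (eC (L a)) := primrec_pcK.comp (pr_eC hL)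
  have h2 : Primrec fun a => pcK (zC (L a)) := primrec_pcK.comp (pr_zC hL)
  have h3 : Primrec fun a => pcK (flat (R a)) := primrec_pcK.comp (pr_flat hR)
  exact nat_add.comp (nat_add.comp (nat_add.comp (nat_add.comp (const 1) h1) h2) h3)
    (nat_mul.comp h1 h2)

theorem pr_fC {n T : α → ℕ} {L : α → List PCode} {R : α → SCode} (hn : Primrec n) (hT : Primrec T)
    (hL : Primrec L) (hR : Primrec R) : Primrec fun a => fC (n a) (T a) (L a) (R a) := by
  have hu : Primrec fun a => uV (n a) (T a) := pr_uV hn hT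
  have hv : Primrec fun a => uV (n a + 1) (T a) := pr_uV (succ.comp hn) hT
  have he := pr_eC hL
  have hz := pr_zC hL
  exact pr_append (pr_mul hu hu) (pr_append (pr_mul hv hv)
    (pr_append (pr_neg (pr_mul hu (pr_append he hz)))
      (pr_append (pr_pow (pr_mul (const _) (pr_append he (pr_neg hz))) (const 2))
        (pr_neg (pr_flat hR)))))

theorem pr_yB {n T : α → ℕ} {L : α → List PCode} {R : α → SCode} (hn : Primrec n) (hT : Primrec T)
    (hL : Primrec L) (hR : Primrec R) : Primrec fun a => yB (n a) (T a) (L a) (R a) := by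
  have h1 : Primrec fun a => pcK (eC (L a)) := primrec_pcK.comp (pr_eC hL)
  have h2 : Primrec fun a => pcK (zC (L a)) := primrec_pcK.comp (pr_zC hL)
  have h3 : Primrec fun a => pcK (fC (n a) (T a) (L a) (R a)) :=
    primrec_pcK.comp (pr_fC hn hT hL hR)
  exact nat_add.comp (nat_add.comp (nat_add.comp (nat_add.comp (const 1) hT) h1) h2) h3

private theorem Prim_two {p q : α → PCode} (hp : Primrec p) (hq : Primrec q) :
    Primrec fun a => [p a, q a] :=
  list_cons.comp hp (list_cons.comp hq (const []))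

theorem pr_nextS {n T Y : α → ℕ} {L : α → List PCode} {R : α → SCode} (hn : Primrec n)
    (hT : Primrec T) (hY : Primrec Y) (hL : Primrec L) (hR : Primrec R) :
    Primrec fun a => nextS (n a) (T a) (Y a) (L a) (R a) := by
  have hu : Primrec fun a => uV (n a) (T a) := pr_uV hn hT
  have hv : Primrec fun a => uV (n a + 1) (T a) := pr_uV (succ.comp hn) hT
  have hy : Primrec fun a => uV (n a + 2) (Y a) := pr_uV (nat_add.comp hn (const 2)) hY
  have hw : Primrec fun a => uV (n a + 3) (Y a) := pr_uV (nat_add.comp hn (const 3)) hY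
  have h2u : Primrec fun a => pcMul (pcNat 2) (uV (n a) (T a)) := pr_mul (pr_nat 2) hu
  have hneg : Primrec₂ fun (_ : α) (M : List PCode) => negL M := (pr_negL snd).to₂
  have hA : Primrec fun a => (R a).map negL := list_map hR hneg
  have h1 : Primrec fun a => [(L a).getD 0 [], (L a).getD 1 [], pcNeg (uV (n a + 2) (Y a))] :=
    list_cons.comp ((list_getD []).comp hL (const 0))
      (Prim_two ((list_getD []).comp hL (const 1)) (pr_neg hy))
  have h2 : Primrec fun a => (uV (n a + 2) (Y a) ++ pcNeg (pcMul (pcNat 2) (uV (n a) (T a)))) ::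
      (L a).drop 2 := list_cons.comp (pr_append hy (pr_neg h2u)) (Prim_drop2 hL)
  exact list_append.comp hA (list_cons.comp h1 (list_cons.comp h2
    (list_cons.comp (Prim_two h2u hy) (list_cons.comp (Prim_two (pr_neg hy) hy)
      (list_cons.comp (Prim_two (pr_neg hw) hw) (list_cons.comp (Prim_two hv hv) (const [])))))))

theorem pr_pcInt {n : α → ℕ} {p : α → PCode} (hn : Primrec n) (hp : Primrec p) :
    Primrec fun a => pcInt (n a) (p a) := by
  have hg : Primrec fun z : (α × (QCode × List ℕ)) × ℕ => z.1.2.2.getD z.2 0 :=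
    (list_getD 0).comp (snd.comp (snd.comp fst)) snd
  have hc : PrimrecPred fun z : (α × (QCode × List ℕ)) × ℕ => z.1.2.2.getD z.2 0 % 2 = 1 :=
    Primrec.eq.comp (nat_mod.comp hg (const 2)) (const 1)
  have h1 : Primrec fun z : (α × (QCode × List ℕ)) × ℕ =>
      if z.1.2.2.getD z.2 0 % 2 = 1 then ([] : PCode) else [(((2, 0), z.1.2.2.getD z.2 0), [])] :=
    Primrec.ite hc (const []) (list_cons.comp (pair (pair (const (2, 0)) hg) (const [])) (const []))
  have h2 : Primrec fun z : α × (QCode × List ℕ) => pcProdRange (n z.1) fun i =>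
      if z.2.2.getD i 0 % 2 = 1 then [] else [(((2, 0), z.2.2.getD i 0), [])] :=
    pr_prodRange (g := fun (z : α × (QCode × List ℕ)) i =>
      if z.2.2.getD i 0 % 2 = 1 then [] else [(((2, 0), z.2.2.getD i 0), [])]) (hn.comp fst) h1.to₂
  have h3 : Primrec fun z : α × (QCode × List ℕ) => ([(z.2.1, [])] : PCode) :=
    list_cons.comp (pair (fst.comp snd) (const [])) (const [])
  exact list_flatMap hp (pr_mul h3 h2).to₂

theorem pr_nextQ {n k T Y : α → ℕ} {f q : α → PCode} (hn : Primrec n) (hk : Primrec k)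
    (hT : Primrec T) (hY : Primrec Y) (hf : Primrec f) (hq : Primrec q) :
    Primrec fun a => nextQ (n a) (k a) (T a) (Y a) (f a) (q a) := by
  have h0 : Primrec fun _ : α => pcVar 0 := const _
  have hq1 {c : α → ℕ} (hc : Primrec c) : Primrec fun a => ([(qinv (c a), [])] : PCode) :=
    list_cons.comp (pair (pair (const (1, 0)) hc) (const [])) (const [])
  have ha : Primrec fun a => Y a ^ 2 * (k a + 1) - 1 :=
    nat_sub.comp (nat_mul.comp (pr_natPow hY (const 2)) (succ.comp hk)) (const 1)
  have hb : Primrec fun a => T a ^ 2 * (k a + 2) - 1 :=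
    nat_sub.comp (nat_mul.comp (pr_natPow hT (const 2)) (nat_add.comp hk (const 2))) (const 1)
  exact pr_mul (hq1 ha) (pr_mul h0 (pr_append (pr_pcInt (nat_add.comp hn (const 2))
    (pr_pow hf (succ.comp hk))) (pr_mul (hq1 hb) (pr_mul h0 hq))))

theorem primrec_step : Primrec₂ step := by
  have hk : Primrec fun z : ℕ × St => z.1 := fst
  have hn : Primrec fun z : ℕ × St => z.2.1.1 := fst.comp (fst.comp snd)
  have hS : Primrec fun z : ℕ × St => z.2.1.2 := snd.comp (fst.comp snd)
  have hq : Primrec fun z : ℕ × St => z.2.2 := snd.comp snd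
  have hp : Primrec fun z : ℕ × St => pick (trS z.2.1.1 z.2.1.2) := pr_pick (pr_trS hn hS)
  have hL : Primrec fun z : ℕ × St => (pick (trS z.2.1.1 z.2.1.2)).1 := fst.comp hp
  have hR : Primrec fun z : ℕ × St => (pick (trS z.2.1.1 z.2.1.2)).2 := snd.comp hp
  have hT : Primrec fun z : ℕ × St =>
      tB (pick (trS z.2.1.1 z.2.1.2)).1 (pick (trS z.2.1.1 z.2.1.2)).2 := pr_tB hL hR
  have hY := pr_yB hn hT hL hR
  exact pair (pair (nat_add.comp hn (const 4)) (pr_nextS hn hT hY hL hR))
    (pr_nextQ hn hk hT hY (pr_fC hn hT hL hR) hq)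

/-- `nat_rec'`. -/
theorem pr_run {κ j : α → ℕ} {s : α → St} (hκ : Primrec κ) (hs : Primrec s) (hj : Primrec j) :
    Primrec fun a => run (κ a) (s a) (j a) := by
  refine nat_rec' (f := j) (g := s) (h := fun a (q : ℕ × St) => step (2 * (κ a - 1 - q.1)) q.2)
    hj hs ?_
  have h1 : Primrec fun z : α × (ℕ × St) => 2 * (κ z.1 - 1 - z.2.1) :=
    nat_mul.comp (const 2) (nat_sub.comp (nat_sub.comp (hκ.comp fst) (const 1)) (fst.comp snd))
  exact (primrec_step.comp h1 (snd.comp snd)).to₂

end Pool.Agent.Lib.MP_bbe012_lc.CV
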