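import Mathlib
import Pool.Agent.Lib.MP_bbe012_lc.CV.Prim

/-!
# The search and the cubic polynomial are computable
-/

namespace Pool.Agent.Lib.MP_bbe012_lc.CV

open Primrec HC

variable {α : Type} [Primcodable α]

private theorem PrimB_rep {β : Type} [Primcodable β] {k : α → ℕ} {x : α → β} (hk : Primrec k)
    (hx : Primrec x) : Primrec fun a => List.replicate (k a) (x a) := by
  have h : Primrec fun a => (List.range (k a)).map fun _ => x a :=
    list_map (g := fun a _ => x a) (list_range.comp hk) (hx.comp fst).to₂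
  refine h.of_eq fun a => ?_
  rw [List.map_const', List.length_range]

theorem pr_mu {S : α → SCode} (hS : Primrec S) : Primrec fun a => mu (S a) := by
  have h : Primrec fun a => (S a).foldr (fun L s => (L.length - 3) + s) 0 :=
    list_foldr (f := S) (g := fun _ => 0)
      (h := fun (_ : α) (q : List PCode × ℕ) => (q.1.length - 3) + q.2) hS (const 0)
      (nat_add.comp (nat_sub.comp (list_length.comp (fst.comp snd)) (const 3))
        (snd.comp snd)).to₂
  refine h.of_eq fun a => ?_
  unfold mu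
  induction S a with
  | nil => rfl
  | cons L T ih => rw [List.foldr_cons, List.map_cons, List.sum_cons, ih]

theorem primrec_exL : Primrec exL := by
  have h1 : Primrec₂ fun (t : QCode × List ℕ) (i : ℕ) =>
      List.replicate (t.2.getD i 0) (pcVar i) :=
    (PrimB_rep ((list_getD 0).comp (snd.comp fst) snd) (pr_var snd)).to₂
  have h2 : Primrec fun t : QCode × List ℕ =>
      (List.range t.2.length).flatMap fun i => List.replicate (t.2.getD i 0) (pcVar i) :=
    list_flatMap (list_range.comp (list_length.comp snd)) h1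
  exact list_cons.comp (pr_const1 fst) h2

private theorem PrimB_rowC {n : α → ℕ} {row : α → List QCode} (hn : Primrec n)
    (hr : Primrec row) : Primrec fun a => rowC (n a) (row a) := by
  have h : Primrec₂ fun (a : α) (j : ℕ) =>
      ([((row a).getD j (qnat 0), List.replicate (n a) 0 ++ [j])] : PCode) :=
    list_cons.comp (pair ((list_getD (qnat 0)).comp (hr.comp fst) snd)
      (list_append.comp (PrimB_rep (hn.comp fst) (const 0)) (list_cons.comp snd (const []))))
      (const [])
  exact pr_sumRange (g := fun a j => [((row a).getD j (qnat 0), List.replicate (n a) 0 ++ [j])])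
    (list_length.comp hr) h

theorem pr_wC {n : α → ℕ} {P Q : α → PCode} {rows : α → List (List QCode)} (hn : Primrec n)
    (hP : Primrec P) (hQ : Primrec Q) (hr : Primrec rows) :
    Primrec fun a => wC (n a) (P a) (Q a) (rows a) := by
  have h : Primrec₂ fun (a : α) (i : ℕ) =>
      pcMul (rowC (n a) ((rows a).getD i [])) (pcPow (pcTrunc (n a) (Q a)) i) :=
    pr_mul (PrimB_rowC (hn.comp fst) ((list_getD []).comp (hr.comp fst) snd))
      (pr_pow (pr_trunc (hn.comp fst) (hQ.comp fst)) snd)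
  exact pr_mul (pr_trunc hn hP) (pr_sumRange (g := fun a i =>
    pcMul (rowC (n a) ((rows a).getD i [])) (pcPow (pcTrunc (n a) (Q a)) i))
    (list_length.comp hr) h)

private theorem PrimB_cf {rows : α → List (List QCode)} {i k : α → ℕ} (hr : Primrec rows)
    (hi : Primrec i) (hk : Primrec k) : Primrec fun a => cf (rows a) (i a) (k a) :=
  (list_getD (qnat 0)).comp ((list_getD []).comp hr hi) hk

private theorem PrimB_vC {n r j : α → ℕ} {P Q : α → PCode} {rows : α → List (List QCode)}
    (hn : Primrec n) (hr : Primrec r) (hP : Primrec P) (hQ : Primrec Q) (hrows : Primrec rows)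
    (hj : Primrec j) : Primrec fun a => vC (n a) (r a) (P a) (Q a) (rows a) (j a) := by
  have h : Primrec₂ fun (a : α) (i : ℕ) =>
      pcMul [(cf (rows a) i (r a - j a), [])] (pcPow (pcTrunc (n a) (Q a)) i) :=
    pr_mul (pr_const1 (PrimB_cf (hrows.comp fst) snd (nat_sub.comp (hr.comp fst) (hj.comp fst))))
      (pr_pow (pr_trunc (hn.comp fst) (hQ.comp fst)) snd)
  exact pr_mul (pr_cst hr hj) (pr_mul (pr_trunc hn hP) (pr_sumRange (g := fun a i =>
    pcMul [(cf (rows a) i (r a - j a), [])] (pcPow (pcTrunc (n a) (Q a)) i))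
    (list_length.comp hrows) h))

theorem pr_a1C {n r : α → ℕ} {P Q : α → PCode} {rows : α → List (List QCode)} (hn : Primrec n)
    (hr : Primrec r) (hP : Primrec P) (hQ : Primrec Q) (hrows : Primrec rows) :
    Primrec fun a => a1C (n a) (r a) (P a) (Q a) (rows a) := by
  have hp : Primrec₂ fun (a : α) (j : ℕ) => pcProdRange (r a) fun i =>
      if i < j then pcNat 1 else eCode (n a) (Q a) i := by
    have h1 : Primrec₂ fun (b : α × ℕ) (i : ℕ) =>
        if i < b.2 then pcNat 1 else eCode (n b.1) (Q b.1) i :=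
      Primrec.ite (nat_lt.comp snd (snd.comp fst)) (pr_nat 1)
        (pr_eCode (hn.comp (fst.comp fst)) (hQ.comp (fst.comp fst)) snd)
    exact pr_prodRange (g := fun (b : α × ℕ) i =>
      if i < b.2 then pcNat 1 else eCode (n b.1) (Q b.1) i) (hr.comp fst) h1
  have hv : Primrec₂ fun (a : α) (j : ℕ) => vC (n a) (r a) (P a) (Q a) (rows a) j :=
    PrimB_vC (hn.comp fst) (hr.comp fst) (hP.comp fst) (hQ.comp fst) (hrows.comp fst) snd
  have hb : Primrec₂ fun (a : α) (j : ℕ) =>
      pcPow (pcTrunc (n a) (Q a) ++ pcNeg (pcNat 1)) j :=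
    pr_pow (pr_append (pr_trunc (hn.comp fst) (hQ.comp fst)) (pr_neg (pr_nat 1))) snd
  exact pr_sumRange (g := fun a j => pcMul (vC (n a) (r a) (P a) (Q a) (rows a) j)
    (pcMul (pcPow (pcTrunc (n a) (Q a) ++ pcNeg (pcNat 1)) j)
      (pcProdRange (r a) fun i => if i < j then pcNat 1 else eCode (n a) (Q a) i)))
    (succ.comp hr) (pr_mul hv (pr_mul hb hp))

private theorem PrimB_bQ {n : α → ℕ} {Q : α → PCode} (hn : Primrec n) (hQ : Primrec Q) :
    Primrec fun a => bQ (n a) (Q a) :=
  nat_add.comp (const 1) (primrec_pcK.comp (pr_trunc hn hQ))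

theorem pr_kC {n r : α → ℕ} {P Q : α → PCode} {rows : α → List (List QCode)} (hn : Primrec n)
    (hr : Primrec r) (hP : Primrec P) (hQ : Primrec Q) (hrows : Primrec rows) :
    Primrec fun a => kC (n a) (r a) (P a) (Q a) (rows a) :=
  nat_add.comp (const 1) (nat_mul.comp (pr_natPow (PrimB_bQ hn hQ) hr)
    (primrec_pcK.comp (pr_a1C hn hr hP hQ hrows)))

theorem pr_a2C {n r : α → ℕ} {P Q : α → PCode} {rows : α → List (List QCode)} (hn : Primrec n)
    (hr : Primrec r) (hP : Primrec P) (hQ : Primrec Q) (hrows : Primrec rows) :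
    Primrec fun a => a2C (n a) (r a) (P a) (Q a) (rows a) :=
  pr_append (pr_mul (pr_natv (pr_kC hn hr hP hQ hrows)) (pr_dCode hn hr hQ))
    (pr_mul (pr_pow (pr_trunc hn hQ) hr) (pr_a1C hn hr hP hQ hrows))

theorem pr_t0C {n r : α → ℕ} {P Q : α → PCode} {rows : α → List (List QCode)} (hn : Primrec n)
    (hr : Primrec r) (hP : Primrec P) (hQ : Primrec Q) (hrows : Primrec rows) :
    Primrec fun a => t0C (n a) (r a) (P a) (Q a) (rows a) :=
  nat_mul.comp (pr_natPow (PrimB_bQ hn hQ) (succ.comp hr)) (pr_kC hn hr hP hQ hrows)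

private theorem PrimB_g1C {n r : α → ℕ} {P Q : α → PCode} {rows : α → List (List QCode)}
    (hn : Primrec n) (hr : Primrec r) (hP : Primrec P) (hQ : Primrec Q) (hrows : Primrec rows) :
    Primrec fun a => g1C (n a) (r a) (P a) (Q a) (rows a) :=
  pr_append (pr_mul (pr_pow (pr_trunc hn hQ) (succ.comp hr)) (pr_a2C hn hr hP hQ hrows))
    (pr_neg (pr_mul (pr_dCode hn hr hQ) (pr_mul (pr_natv (pr_t0C hn hr hP hQ hrows))
      (pr_append (pr_nat 1) (pr_var (nat_add.comp hn hr))))))

private theorem PrimB_g2C {n r : α → ℕ} {P Q : α → PCode} {rows : α → List (List QCode)}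
    (hn : Primrec n) (hr : Primrec r) (hP : Primrec P) (hQ : Primrec Q) (hrows : Primrec rows) :
    Primrec fun a => g2C (n a) (r a) (P a) (Q a) (rows a) :=
  pr_neg (pr_mul (pr_a2C hn hr hP hQ hrows) (pr_a2C hn hr hP hQ hrows))

private theorem PrimB_linC {n m T : α → ℕ} (hn : Primrec n) (hm : Primrec m) (hT : Primrec T) :
    Primrec fun a => linC (n a) (m a) (T a) := by
  have h : Primrec₂ fun (a : α) (i : ℕ) => pcNat 1 ++ pcVar (n a + i) :=
    pr_append (pr_nat 1) (pr_var (nat_add.comp (hn.comp fst) snd))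
  exact pr_mul (pr_natv hT) (pr_sumRange (g := fun a i => pcNat 1 ++ pcVar (n a + i)) hm h)

theorem pr_s0C {n r m : α → ℕ} {P Q : α → PCode} {rows : α → List (List QCode)} (hn : Primrec n)
    (hr : Primrec r) (hm : Primrec m) (hP : Primrec P) (hQ : Primrec Q) (hrows : Primrec rows) :
    Primrec fun a => s0C (n a) (r a) (m a) (P a) (Q a) (rows a) := by
  have h1 : Primrec fun a => (g1C (n a) (r a) (P a) (Q a) (rows a)).map exL :=
    list_map (PrimB_g1C hn hr hP hQ hrows) (primrec_exL.comp snd).to₂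
  have hl : Primrec fun a => linC (n a + r a + 1) (m a) (t0C (n a) (r a) (P a) (Q a) (rows a)) :=
    PrimB_linC (succ.comp (nat_add.comp hn hr)) hm (pr_t0C hn hr hP hQ hrows)
  have h3 : Primrec₂ fun (a : α) (t : QCode × List ℕ) =>
      linC (n a + r a + 1) (m a) (t0C (n a) (r a) (P a) (Q a) (rows a)) :: exL t :=
    list_cons.comp (hl.comp fst) (primrec_exL.comp snd)
  have h2 : Primrec fun a => (g2C (n a) (r a) (P a) (Q a) (rows a)).map fun t =>
      linC (n a + r a + 1) (m a) (t0C (n a) (r a) (P a) (Q a) (rows a)) :: exL t :=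
    list_map (PrimB_g2C hn hr hP hQ hrows) h3
  exact list_append.comp h1 h2

private theorem PrimB_qinv {i : α → ℕ} (hi : Primrec i) : Primrec fun a => qinv (i a) :=
  pair (const (1, 0)) hi

private theorem PrimB_c0C {m T : α → ℕ} (hm : Primrec m) (hT : Primrec T) :
    Primrec fun a => c0C (m a) (T a) := by
  have h : Primrec₂ fun (a : α) (i : ℕ) => ([(qinv (m a + i), [])] : PCode) :=
    pr_const1 (PrimB_qinv (nat_add.comp (hm.comp fst) snd))
  exact pr_mul (pr_pow (pr_const1 (PrimB_qinv (nat_sub.comp hT (const 1)))) (succ.comp hm))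
    (pr_prodRange (g := fun a i => [(qinv (m a + i), [])]) (succ.comp hm) h)

theorem pr_q0C {n r m : α → ℕ} {P Q : α → PCode} {rows : α → List (List QCode)} (hn : Primrec n)
    (hr : Primrec r) (hm : Primrec m) (hP : Primrec P) (hQ : Primrec Q) (hrows : Primrec rows) :
    Primrec fun a => q0C (n a) (r a) (m a) (P a) (Q a) (rows a) := by
  have he : Primrec fun a => (r a + 1) * (2 * m a + 1) :=
    nat_mul.comp (succ.comp hr) (succ.comp (nat_mul.comp (const 2) hm))
  exact pr_mul (PrimB_c0C hm (pr_t0C hn hr hP hQ hrows))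
    (pr_mul (pr_natv (pr_kC hn hr hP hQ hrows))
      (pr_pcInt (nat_add.comp hn hr) (pr_pow (pr_trunc hn hQ) he)))

private theorem PrimB_n : Primrec fun x : (ℕ × PCode × PCode) × CC => x.1.1 := fst.comp fst

private theorem PrimB_P : Primrec fun x : (ℕ × PCode × PCode) × CC => x.1.2.1 :=
  fst.comp (snd.comp fst)

private theorem PrimB_Q : Primrec fun x : (ℕ × PCode × PCode) × CC => x.1.2.2 :=
  snd.comp (snd.comp fst)

private theorem PrimB_r : Primrec fun x : (ℕ × PCode × PCode) × CC => x.2.1.1.1 :=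
  fst.comp (fst.comp (fst.comp snd))

private theorem PrimB_kap : Primrec fun x : (ℕ × PCode × PCode) × CC => x.2.1.1.2 :=
  snd.comp (fst.comp (fst.comp snd))

private theorem PrimB_K : Primrec fun x : (ℕ × PCode × PCode) × CC => x.2.1.2 :=
  snd.comp (fst.comp snd)

private theorem PrimB_A : Primrec fun x : (ℕ × PCode × PCode) × CC => x.2.2.1.1 :=
  fst.comp (fst.comp (snd.comp snd))

private theorem PrimB_rows : Primrec fun x : (ℕ × PCode × PCode) × CC => x.2.2.1.2 :=
  snd.comp (fst.comp (snd.comp snd))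

private theorem PrimB_gs : Primrec fun x : (ℕ × PCode × PCode) × CC => x.2.2.2 :=
  snd.comp (snd.comp snd)

private theorem PrimB_two : Primrec fun x : (ℕ × PCode × PCode) × CC => 2 * x.2.1.1.2 :=
  nat_mul.comp (const 2) PrimB_kap

private theorem PrimB_nN : Primrec fun x : (ℕ × PCode × PCode) × CC =>
    nN x.2.1.1.1 x.2.1.1.2 :=
  nat_add.comp (nat_mul.comp (succ.comp PrimB_r)
    (succ.comp (nat_mul.comp (const 2) PrimB_two))) PrimB_r

private theorem PrimB_toHC : Primrec fun x : (ℕ × PCode × PCode) × CC =>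
    toHC x.1.1 x.1.2.1 x.1.2.2 x.2 :=
  pair (pair (pair PrimB_r PrimB_nN) PrimB_K)
    (pair (pair PrimB_A (pr_wC PrimB_n PrimB_P PrimB_Q PrimB_rows)) PrimB_gs)

private theorem PrimB_s0 : Primrec fun x : (ℕ × PCode × PCode) × CC =>
    s0C x.1.1 x.2.1.1.1 (2 * x.2.1.1.2) x.1.2.1 x.1.2.2 x.2.2.1.2 :=
  pr_s0C PrimB_n PrimB_r PrimB_two PrimB_P PrimB_Q PrimB_rows

/-- The verification is decidable by a primitive recursive function. -/
theorem primrecPred_cCheck :
    PrimrecPred fun x : (ℕ × PCode × PCode) × CC => cCheck x.1.1 x.1.2.1 x.1.2.2 x.2 := by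
  have h1 : PrimrecPred fun x : (ℕ × PCode × PCode) × CC => 1 ≤ x.2.1.1.2 :=
    nat_le.comp (const 1) PrimB_kap
  have h2 : PrimrecPred fun x : (ℕ × PCode × PCode) × CC =>
      hcCheck x.1.1 x.1.2.1 x.1.2.2 (toHC x.1.1 x.1.2.1 x.1.2.2 x.2) :=
    primrecPred_hcCheck.comp (pair fst PrimB_toHC)
  have h3 : PrimrecPred fun x : (ℕ × PCode × PCode) × CC =>
      mu (s0C x.1.1 x.2.1.1.1 (2 * x.2.1.1.2) x.1.2.1 x.1.2.2 x.2.2.1.2) ≤ x.2.1.1.2 :=
    nat_le.comp (pr_mu PrimB_s0) PrimB_kap
  exact h1.and (h2.and h3)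

theorem partrec_cSearch : Partrec cSearch := by
  have h1 : Primrec fun y : (ℕ × PCode × PCode) × ℕ => Encodable.decode (α := CC) y.2 :=
    Primrec.decode.comp Primrec.snd
  have h2 : PrimrecPred fun y : ((ℕ × PCode × PCode) × ℕ) × CC =>
      cCheck y.1.1.1 y.1.1.2.1 y.1.1.2.2 y.2 :=
    primrecPred_cCheck.comp (Primrec.pair (Primrec.fst.comp Primrec.fst) Primrec.snd)
  have h : Primrec₂ fun (R : ℕ × PCode × PCode) (m : ℕ) =>
      (Encodable.decode (α := CC) m).bind fun c =>
        if cCheck R.1 R.2.1 R.2.2 c then some c else none :=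
    Primrec.option_bind h1
      ((Primrec.ite h2 (Primrec.option_some.comp Primrec.snd) (Primrec.const none)).to₂)
  exact Partrec.rfindOpt h.to_comp

private theorem PrimB_st0 : Primrec₂ st0 :=
  pair (pair (nat_add.comp (succ.comp (nat_add.comp PrimB_n PrimB_r)) PrimB_two) PrimB_s0)
    (pr_q0C PrimB_n PrimB_r PrimB_two PrimB_P PrimB_Q PrimB_rows)

private theorem PrimB_stF : Primrec₂ stF := pr_run PrimB_kap PrimB_st0 PrimB_kap

theorem primrec_cubicOf : Primrec₂ cubicOf :=
  pair (pair (fst.comp (fst.comp PrimB_stF)) (pr_flat (snd.comp (fst.comp PrimB_stF))))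
    (snd.comp PrimB_stF)

end Pool.Agent.Lib.MP_bbe012_lc.CV
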