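import Mathlib
import Pool.Agent.Lib.MP_bbe012_lc.CV.Defs
import Pool.Agent.Lib.MP_bbe012_lc.HC.Dir

/-!
# Volumes and polynomials in `π` are periods
-/

namespace Pool.Agent.Lib.MP_bbe012_lc.CV

open MeasureTheory Set HC

/-- The numerator of the term `t = (q, [e, ...])` of the polynomial in `π`: `2 q ∏ i < e, 2 ∏ e ≤ i < k, (1 + x_i^2) / 2`. -/
def piTerm (k : ℕ) (t : QCode × List ℕ) : PCode :=
  pcMul [(t.1, [])] (pcMul (pcNat 2) (pcProdRange k fun i => if i < t.2.getD 0 0 then pcNat 2 else
    pcMul [(qinv 1, [])] (pcNat 1 ++ pcMul (pcVar i) (pcVar i))))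

/-- The integral over the cube `(-1, 1)^k`, `k = pcDeg a`, with the value `2 a(π)`. -/
def piInt (a : PCode) : IntCode :=
  (pcDeg a, (a.flatMap (piTerm (pcDeg a)), jCode (pcDeg a)), cubeSys (pcDeg a))

/-- One variable: `∫ s in (-1, 1), 2 / (1 + s^2) = π` (`integral_one_div_one_add_sq` or the derivative of `arctan`, `Real.arctan_one`). -/
theorem integral_pi_Ioo : ∫ s in Ioo (-1 : ℝ) 1, 2 / (1 + s ^ 2) = Real.pi := by
  rw [← integral_Ioc_eq_integral_Ioo, ← intervalIntegral.integral_of_le (by norm_num)]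
  have h1 : (fun s : ℝ => 2 / (1 + s ^ 2)) = fun s => 2 * (1 / (1 + s ^ 2)) := by
    funext s; ring
  rw [h1, intervalIntegral.integral_const_mul, integral_one_div_one_add_sq, Real.arctan_neg,
    Real.arctan_one]
  ring

/-- The factor in the variable number `i`. -/
private noncomputable def Fwd_phi (e : ℕ) (i : ℕ) (s : ℝ) : ℝ :=
  if i < e then 2 / (1 + s ^ 2) else 1 / 2

private theorem Fwd_int_phi (e i : ℕ) :
    ∫ s in Ioo (-1 : ℝ) 1, Fwd_phi e i s = if i < e then Real.pi else 1 := by
  unfold Fwd_phi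
  split_ifs
  · exact integral_pi_Ioo
  · rw [setIntegral_const, measureReal_def, Real.volume_Ioo]
    norm_num

private theorem Fwd_j_pos {k : ℕ} (x : Fin k → ℝ) : 0 < pcEval k (jCode k) x := by
  rw [pcEval_j]
  exact Finset.prod_pos fun i _ => by positivity

private theorem Fwd_term (k : ℕ) (t : QCode × List ℕ) (x : Fin k → ℝ) :
    pcEval k (piTerm k t) x / pcEval k (jCode k) x =
      2 * (qval t.1 : ℝ) * ∏ i : Fin k, Fwd_phi (t.2.getD 0 0) i (x i) := by
  have hq : ∀ c : QCode, pcEval k [(c, [])] x = (qval c : ℝ) := by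
    intro c
    rw [pcEval_cons, pcEval_nil]
    simp
  have h1 : ∀ i : Fin k, pcEval k (if (i : ℕ) < t.2.getD 0 0 then pcNat 2 else
      pcMul [(qinv 1, [])] (pcNat 1 ++ pcMul (pcVar i) (pcVar i))) x =
        Fwd_phi (t.2.getD 0 0) i (x i) * (1 + x i ^ 2) := by
    intro i
    have h2 : (1 + x i ^ 2 : ℝ) ≠ 0 := by positivity
    unfold Fwd_phi
    split_ifs
    · rw [pcEval_nat]
      field_simp
      norm_num
    · rw [pcEval_mul, pcEval_append, pcEval_nat, pcEval_mul, pcEval_var i.2, hq]
      have h3 : (qval (qinv 1) : ℝ) = 1 / 2 := by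
        unfold qval qinv
        norm_num
      rw [h3]
      push_cast
      ring
  rw [piTerm, pcEval_mul, pcEval_mul, pcEval_prodRange, hq, pcEval_nat,
    Finset.prod_congr rfl fun i _ => h1 i, Finset.prod_mul_distrib, ← pcEval_j]
  have h4 := (Fwd_j_pos x).ne'
  field_simp
  push_cast
  ring

private theorem Fwd_cont (k : ℕ) (p : PCode) :
    IntegrableOn (fun x => pcEval k p x / pcEval k (jCode k) x) (cube k) := by
  have hc : Continuous fun x : Fin k → ℝ => pcEval k p x / pcEval k (jCode k) x :=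
    (continuous_pcEval k p).div (continuous_pcEval k (jCode k)) fun x => (Fwd_j_pos x).ne'
  have hK : IsCompact (closure (cube k)) := isBounded_cube.isCompact_closure
  exact (hc.continuousOn.integrableOn_compact hK).mono_set subset_closure

private theorem Fwd_intTerm (k : ℕ) (t : QCode × List ℕ) (h : t.2.getD 0 0 ≤ k) :
    ∫ x in cube k, pcEval k (piTerm k t) x / pcEval k (jCode k) x =
      2 * ((qval t.1 : ℝ) * Real.pi ^ t.2.getD 0 0) := by
  have h1 : (fun x : Fin k → ℝ => pcEval k (piTerm k t) x / pcEval k (jCode k) x) =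
      fun x => 2 * (qval t.1 : ℝ) * ∏ i : Fin k, Fwd_phi (t.2.getD 0 0) i (x i) := by
    funext x; exact Fwd_term k t x
  rw [h1, integral_const_mul, integral_cube_prod k fun i s => Fwd_phi (t.2.getD 0 0) i s,
    Finset.prod_congr rfl fun (i : Fin k) _ => Fwd_int_phi (t.2.getD 0 0) i, mul_assoc]
  congr 2
  rw [Fin.prod_univ_eq_prod_range (fun i => if i < t.2.getD 0 0 then Real.pi else 1) k,
    Finset.prod_ite, Finset.prod_const_one, mul_one, Finset.prod_const]
  congr 1
  have h2 : (Finset.range k).filter (fun i => i < t.2.getD 0 0) = Finset.range (t.2.getD 0 0) := by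
    ext i
    simp only [Finset.mem_filter, Finset.mem_range]
    omega
  rw [h2, Finset.card_range]

private theorem Fwd_int (k : ℕ) (a : PCode) (h : ∀ t ∈ a, t.2.getD 0 0 ≤ k) :
    ∫ x in cube k, pcEval k (a.flatMap (piTerm k)) x / pcEval k (jCode k) x =
      2 * pcEval 1 a fun _ => Real.pi := by
  induction a with
  | nil => simp
  | cons t a ih =>
    have h1 : (fun x : Fin k → ℝ => pcEval k ((t :: a).flatMap (piTerm k)) x /
        pcEval k (jCode k) x) = fun x => pcEval k (piTerm k t) x / pcEval k (jCode k) x +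
          pcEval k (a.flatMap (piTerm k)) x / pcEval k (jCode k) x := by
      funext x
      rw [List.flatMap_cons, pcEval_append, add_div]
    rw [h1, integral_add (Fwd_cont k _) (Fwd_cont k _),
      ih fun s hs => h s (List.mem_cons_of_mem _ hs),
      Fwd_intTerm k t (h t List.mem_cons_self), pcEval_cons]
    rw [Fin.prod_univ_one]
    simp only [Fin.val_zero, Fin.isValue]
    ring

private theorem Fwd_deg (a : PCode) : ∀ t ∈ a, t.2.getD 0 0 ≤ pcDeg a := by
  induction a with
  | nil => intro t ht; simp at ht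
  | cons s a ih =>
    intro t ht
    have h1 : pcDeg (s :: a) = max (s.2.foldr max 0) (pcDeg a) := rfl
    rw [h1]
    rcases List.mem_cons.mp ht with h | h
    · rw [h]
      exact le_max_of_le_left (getD_le_foldr_max s.2 0)
    · exact le_max_of_le_right (ih t h)

/-- `mem_cubeSys` (HC/Dir.lean): the domain is the cube. Continuous integrand (denominator `≥ 1`: `pcEval_j` in Bd.lean), so it is integrable on the bounded cube.
Value: sum over the terms (`integral_finsetSum` or induction on `a`), `integral_cube_prod` (HC/LogA.lean): for `e = t.2.getD 0 0 ≤ pcDeg a = k` the value of the term is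
`2 q π^e`, and `pcEval 1 a (fun _ => π) = ∑ q π^e` (`pcEval_cons`). -/
theorem piInt_spec (a : PCode) :
    Admissible (piInt a) ∧ value (piInt a) = 2 * pcEval 1 a fun _ => Real.pi := by
  have hdom : domain (piInt a) = cube (pcDeg a) :=
    Set.ext fun x => mem_cubeSys (pcDeg a) x
  have hf : integrand (piInt a) = fun x : Fin (pcDeg a) → ℝ =>
      pcEval (pcDeg a) (a.flatMap (piTerm (pcDeg a))) x /
        pcEval (pcDeg a) (jCode (pcDeg a)) x := rfl
  refine ⟨⟨?_, ?_⟩, ?_⟩
  · exact pcPoly_ne_zero_of_eval (n := pcDeg a) (p := jCode (pcDeg a)) (x := 0)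
      (Fwd_j_pos (0 : Fin (pcDeg a) → ℝ)).ne'
  · rw [hdom, hf]
    exact Fwd_cont (pcDeg a) _
  · unfold value
    rw [hdom, hf]
    exact Fwd_int (pcDeg a) a (Fwd_deg a)

/-- The pair of periods. -/
def cubicPair (F : (ℕ × PCode) × PCode) : PeriodCode × PeriodCode :=
  ((volCode F.1, constInt (qnat 0)), (piInt F.2, constInt (qnat 0)))

/-- `volCode_spec`, `constInt_spec` (HC/Dir.lean), `piInt_spec`. -/
theorem cubicPair_spec (F : (ℕ × PCode) × PCode) :
    (PeriodAdmissible (cubicPair F).1 ∧ PeriodAdmissible (cubicPair F).2) ∧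
      (period (cubicPair F).1 = period (cubicPair F).2 ↔
        (volume (posCube F.1)).toReal = pcEval 1 F.2 fun _ => Real.pi) := by
  have h0 := constInt_spec (qnat 0)
  have h1 := volCode_spec F.1
  have h2 := piInt_spec F.2
  refine ⟨⟨⟨h1.1, h0.1⟩, ⟨h2.1, h0.1⟩⟩, ?_⟩
  have h3 : period (cubicPair F).1 = ⟨value (volCode F.1), value (constInt (qnat 0))⟩ := rfl
  have h4 : period (cubicPair F).2 = ⟨value (piInt F.2), value (constInt (qnat 0))⟩ := rfl
  rw [h3, h4, h1.2, h2.2, Complex.ext_iff]
  simp only [and_true]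
  constructor
  · intro h
    linarith
  · intro h
    rw [h]

/-- As `primrec_coinPair` in HC/Dir.lean; `pr_prodRange`, `list_flatMap`, `primrec_pcDeg` (Comp.lean). -/
theorem primrec_cubicPair : Primrec cubicPair := by
  have hcs {α : Type} [Primcodable α] {n : α → ℕ} (hn : Primrec n) :
      Primrec fun a => cubeSys (n a) := pr_bdSys hn (Primrec.const [])
  have h1 : Primrec volCode :=
    Primrec.pair Primrec.fst (Primrec.pair (Primrec.const (pcNat 2, pcNat 1))
      (Primrec.list_cons.comp (Primrec.pair (Primrec.const true) Primrec.snd)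
        (hcs Primrec.fst)))
  have hvar : Primrec fun z : ((ℕ × PCode) × (QCode × List ℕ)) × ℕ => pcVar z.2 :=
    pr_var Primrec.snd
  have hA : Primrec fun z : ((ℕ × PCode) × (QCode × List ℕ)) × ℕ =>
      if z.2 < z.1.2.2.getD 0 0 then pcNat 2 else
        pcMul [(qinv 1, [])] (pcNat 1 ++ pcMul (pcVar z.2) (pcVar z.2)) :=
    Primrec.ite (Primrec.nat_lt.comp Primrec.snd ((Primrec.list_getD 0).comp
      (Primrec.snd.comp (Primrec.snd.comp Primrec.fst)) (Primrec.const 0))) (Primrec.const _)
      (pr_mul (Primrec.const _) (pr_append (Primrec.const _) (pr_mul hvar hvar)))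
  have hB : Primrec fun z : (ℕ × PCode) × (QCode × List ℕ) => pcProdRange z.1.1 fun i =>
      if i < z.2.2.getD 0 0 then pcNat 2 else
        pcMul [(qinv 1, [])] (pcNat 1 ++ pcMul (pcVar i) (pcVar i)) :=
    pr_prodRange (g := fun (z : (ℕ × PCode) × (QCode × List ℕ)) i =>
      if i < z.2.2.getD 0 0 then pcNat 2 else
        pcMul [(qinv 1, [])] (pcNat 1 ++ pcMul (pcVar i) (pcVar i)))
      (Primrec.fst.comp Primrec.fst) hA.to₂
  have hC : Primrec₂ fun (z : ℕ × PCode) (t : QCode × List ℕ) => piTerm z.1 t :=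
    (pr_mul (Primrec.list_cons.comp (Primrec.pair (Primrec.fst.comp Primrec.snd)
      (Primrec.const [])) (Primrec.const [])) (pr_mul (Primrec.const _) hB)).to₂
  have hD : Primrec fun z : ℕ × PCode => z.2.flatMap (piTerm z.1) :=
    Primrec.list_flatMap Primrec.snd hC
  have hE : Primrec fun a : PCode => a.flatMap (piTerm (pcDeg a)) :=
    hD.comp (Primrec.pair primrec_pcDeg Primrec.id)
  have hJ : Primrec fun n : ℕ => jCode n :=
    pr_prodRange (g := fun (_ : ℕ) i => pcNat 1 ++ pcMul (pcVar i) (pcVar i)) Primrec.id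
      (pr_append (pr_nat 1) (pr_mul (pr_var Primrec.snd) (pr_var Primrec.snd))).to₂
  have h2 : Primrec piInt :=
    Primrec.pair primrec_pcDeg (Primrec.pair (Primrec.pair hE (hJ.comp primrec_pcDeg))
      (hcs primrec_pcDeg))
  exact Primrec.pair (Primrec.pair (h1.comp Primrec.fst) (Primrec.const (constInt (qnat 0))))
    (Primrec.pair (h2.comp Primrec.snd) (Primrec.const (constInt (qnat 0))))

end Pool.Agent.Lib.MP_bbe012_lc.CV
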