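import Mathlib
import Pool.Agent.Lib.MP_bbe012_lc.CV.StepI

/-!
# The chain of rounds
-/

namespace Pool.Agent.Lib.MP_bbe012_lc.CV

open MeasureTheory Set HC

theorem Lin.refl (v : ℝ) : Lin v v 0 :=
  ⟨0, 1, one_ne_zero, by simp⟩

theorem Lin.trans {v w u : ℝ} {k l : ℕ} (h : Lin v w k) (h' : Lin w u l) : Lin v u (k + l) := by
  obtain ⟨a, b, hb, hv⟩ := h
  obtain ⟨c, d, hd, hw⟩ := h'
  refine ⟨a + Polynomial.C b * Polynomial.X ^ k * c, b * d, mul_ne_zero hb hd, ?_⟩
  rw [hv, hw]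
  simp only [map_add, map_mul, map_pow, Polynomial.aeval_C, Polynomial.aeval_X,
    eq_ratCast, Rat.cast_mul]
  ring

private theorem Run_lin (T Y k : ℕ) (q : ℚ) (hT : 1 ≤ T) (hY : 1 ≤ Y) (v w : ℝ)
    (h : v = Real.pi / ((Y : ℝ) ^ 2 * (k + 1)) *
      (q + Real.pi / ((T : ℝ) ^ 2 * (k + 2)) * w)) : Lin v w 2 := by
  have hT' : (T : ℚ) ≠ 0 := by
    have : T ≠ 0 := by omega
    exact_mod_cast this
  have hY' : (Y : ℚ) ≠ 0 := by
    have : Y ≠ 0 := by omega
    exact_mod_cast this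
  have hk1 : ((k : ℚ) + 1) ≠ 0 := by positivity
  have hk2 : ((k : ℚ) + 2) ≠ 0 := by positivity
  refine ⟨Polynomial.C (q / ((Y : ℚ) ^ 2 * (k + 1))) * Polynomial.X,
    1 / ((Y : ℚ) ^ 2 * (k + 1) * ((T : ℚ) ^ 2 * (k + 2))), ?_, ?_⟩
  · exact one_div_ne_zero (mul_ne_zero (mul_ne_zero (pow_ne_zero _ hY') hk1)
      (mul_ne_zero (pow_ne_zero _ hT') hk2))
  · have hT'' : (T : ℝ) ≠ 0 := by exact_mod_cast hT'
    have hY'' : (Y : ℝ) ≠ 0 := by exact_mod_cast hY'
    have hk1' : ((k : ℝ) + 1) ≠ 0 := by positivity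
    have hk2' : ((k : ℝ) + 2) ≠ 0 := by positivity
    rw [h]
    simp only [map_mul, Polynomial.aeval_C, Polynomial.aeval_X, eq_ratCast]
    push_cast
    field_simp

private theorem Run_value (T Y k : ℕ) (q : ℚ) (hT : 1 ≤ T) (hY : 1 ≤ Y) (v w v' w' : ℝ)
    (h : v = Real.pi / ((Y : ℝ) ^ 2 * (k + 1)) *
      (q + Real.pi / ((T : ℝ) ^ 2 * (k + 2)) * w))
    (h' : v' = Real.pi / ((Y : ℝ) ^ 2 * (k + 1)) *
      (q + Real.pi / ((T : ℝ) ^ 2 * (k + 2)) * w')) : v = v' ↔ w = w' := by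
  have hT'' : (T : ℝ) ≠ 0 := by
    have : T ≠ 0 := by omega
    exact_mod_cast this
  have hY'' : (Y : ℝ) ≠ 0 := by
    have : Y ≠ 0 := by omega
    exact_mod_cast this
  have hk1' : ((k : ℝ) + 1) ≠ 0 := by positivity
  have hk2' : ((k : ℝ) + 2) ≠ 0 := by positivity
  have hA : Real.pi / ((Y : ℝ) ^ 2 * (k + 1)) ≠ 0 :=
    div_ne_zero Real.pi_ne_zero (mul_ne_zero (pow_ne_zero _ hY'') hk1')
  have hB : Real.pi / ((T : ℝ) ^ 2 * (k + 2)) ≠ 0 :=
    div_ne_zero Real.pi_ne_zero (mul_ne_zero (pow_ne_zero _ hT'') hk2')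
  rw [h, h']
  constructor
  · intro h0
    exact mul_left_cancel₀ hB (add_left_cancel (mul_left_cancel₀ hA h0))
  · intro h0
    rw [h0]

/-- `step_integral`. -/
theorem step_lin (k : ℕ) (hk : Even k) (s : St) :
    Lin (II (step k s).1.1 (flat (step k s).1.2) k) (II s.1.1 (flat s.1.2) (k + 2)) 2 := by
  obtain ⟨T, Y, q, hT, hY, h1, -⟩ := step_integral k hk s
  exact Run_lin T Y k q hT hY _ _ h1

/-- `step_integral`; the factors are not zero. -/
theorem step_value (k : ℕ) (hk : Even k) (s : St) :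
    II (step k s).1.1 (flat (step k s).1.2) k = pcEval 1 (step k s).2 (fun _ => Real.pi) ↔
      II s.1.1 (flat s.1.2) (k + 2) = pcEval 1 s.2 fun _ => Real.pi := by
  obtain ⟨T, Y, q, hT, hY, h1, h2⟩ := step_integral k hk s
  exact Run_value T Y k q hT hY _ _ _ _ h1 h2

theorem Run_run_succ (κ : ℕ) (s : St) (j : ℕ) :
    run κ s (j + 1) = step (2 * (κ - 1 - j)) (run κ s j) := rfl

theorem Run_run_zero (κ : ℕ) (s : St) : run κ s 0 = s := rfl

/-- Induction on `j ≤ κ`: the exponent after `j` rounds is `2 (κ - j)`. -/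
theorem run_lin (κ : ℕ) (s : St) (j : ℕ) (hj : j ≤ κ) :
    Lin (II (run κ s j).1.1 (flat (run κ s j).1.2) (2 * (κ - j)))
      (II s.1.1 (flat s.1.2) (2 * κ)) (2 * j) := by
  induction j with
  | zero =>
    rw [Run_run_zero]
    exact Lin.refl _
  | succ j ih =>
    have h1 := ih (by omega)
    have h2 := step_lin (2 * (κ - 1 - j)) (even_two_mul _) (run κ s j)
    have e1 : 2 * (κ - 1 - j) + 2 = 2 * (κ - j) := by omega
    have e2 : κ - (j + 1) = κ - 1 - j := by omega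
    have e3 : 2 * (j + 1) = 2 + 2 * j := by ring
    rw [e1] at h2
    rw [Run_run_succ, e2, e3]
    exact h2.trans h1

theorem run_value (κ : ℕ) (s : St) (j : ℕ) (hj : j ≤ κ) :
    II (run κ s j).1.1 (flat (run κ s j).1.2) (2 * (κ - j)) =
        pcEval 1 (run κ s j).2 (fun _ => Real.pi) ↔
      II s.1.1 (flat s.1.2) (2 * κ) = pcEval 1 s.2 fun _ => Real.pi := by
  induction j with
  | zero =>
    rw [Run_run_zero]
    exact Iff.rfl
  | succ j ih =>
    have h1 := ih (by omega)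
    have h2 := step_value (2 * (κ - 1 - j)) (even_two_mul _) (run κ s j)
    have e1 : 2 * (κ - 1 - j) + 2 = 2 * (κ - j) := by omega
    have e2 : κ - (j + 1) = κ - 1 - j := by omega
    rw [e1] at h2
    rw [Run_run_succ, e2]
    exact h2.trans h1

/-- The exponent zero: `pp 0 a` is `1` for `a > 0` and `0` otherwise; `posCube F` is the set of the points of the cube with `0 < pcEval`
(`integral_indicator`, `setIntegral_const` or `integral_indicator_one`, measurability `measurable_pcEval`). -/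
theorem II_zero (F : ℕ × PCode) : II F.1 F.2 0 = (volume (posCube F)).toReal := by
  have hms : MeasurableSet {x : Fin F.1 → ℝ | 0 < pcEval F.1 F.2 x} :=
    measurableSet_lt measurable_const (measurable_pcEval F.1 F.2)
  have hset : posCube F = cube F.1 ∩ {x : Fin F.1 → ℝ | 0 < pcEval F.1 F.2 x} := rfl
  have hfun : (fun x : Fin F.1 → ℝ => pp 0 (pcEval F.1 F.2 x)) =
      ({x : Fin F.1 → ℝ | 0 < pcEval F.1 F.2 x}).indicator (fun _ => (1 : ℝ)) := by
    funext x
    by_cases hx : 0 < pcEval F.1 F.2 x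
    · rw [indicator_of_mem (by exact hx)]
      simp [pp, hx]
    · rw [indicator_of_notMem (by exact hx)]
      simp [pp, hx]
  unfold II
  rw [hfun, setIntegral_indicator hms, ← hset]
  simp [Measure.real]

end Pool.Agent.Lib.MP_bbe012_lc.CV
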