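import Mathlib
import Pool.Agent.Lib.MP_bbe012_lc.CV.Run
import Pool.Agent.Lib.MP_bbe012_lc.CV.Deg
import Pool.Agent.Lib.MP_bbe012_lc.CV.Top
import Pool.Agent.Lib.MP_bbe012_lc.CV.PrimB
import Pool.Agent.Lib.MP_bbe012_lc.CV.Fwd
import Pool.Agent.Lib.MP_bbe012_lc.HC.Main
import Pool.Agent.Lib.MP_bbe012_lc.HC.Dec

/-!
# The cubic polynomial attached to a certificate
-/

namespace Pool.Agent.Lib.MP_bbe012_lc.CV

open MeasureTheory Set HC

/-- The properties of the cubic polynomial. `mem_cSearch`, `deg_cubicOf`, `st0_spec` for `prepR R` (`prepR_region`, `prepR_integral`), `run_value`, `run_lin` with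
`j = κ`, `II_zero`. -/
theorem cubicOf_spec {R : ℕ × PCode × PCode} (h : ∀ x : Fin R.1 → ℝ, 1 ≤ pcEval R.1 R.2.2 x)
    (hi : Integrable fun x : Fin R.1 → ℝ => pcEval R.1 R.2.1 x / pcEval R.1 R.2.2 x) {c : CC}
    (hc : c ∈ cSearch (prepR R)) :
    (pcPoly (cubicOf (prepR R) c).1.1 (cubicOf (prepR R) c).1.2).totalDegree ≤ 3 ∧
    ((volume (posCube (cubicOf (prepR R) c).1)).toReal =
        pcEval 1 (cubicOf (prepR R) c).2 (fun _ => Real.pi) ↔
      ∫ x : Fin R.1 → ℝ, pcEval R.1 R.2.1 x / pcEval R.1 R.2.2 x = 0) ∧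
    ∃ k : ℕ, Lin (volume (posCube (cubicOf (prepR R) c).1)).toReal
      (∫ x : Fin R.1 → ℝ, pcEval R.1 R.2.1 x / pcEval R.1 R.2.2 x) k := by
  have hcc := mem_cSearch hc
  have hint := prepR_integral R h hi
  obtain ⟨c0, q, hc0, hq, hII⟩ := st0_spec (R := prepR R) hcc (prepR_region R h) hint.1
  have hII' : II (st0 (prepR R) c).1.1 (flat (st0 (prepR R) c).1.2) (2 * c.1.1.2) =
      q + c0 * ∫ x : Fin R.1 → ℝ, pcEval R.1 R.2.1 x / pcEval R.1 R.2.2 x := by
    rw [← hint.2]; exact hII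
  have hz : II (run c.1.1.2 (st0 (prepR R) c) c.1.1.2).1.1
      (flat (run c.1.1.2 (st0 (prepR R) c) c.1.1.2).1.2) (2 * (c.1.1.2 - c.1.1.2)) =
      (volume (posCube (cubicOf (prepR R) c).1)).toReal := by
    rw [Nat.sub_self, Nat.mul_zero]
    exact II_zero (cubicOf (prepR R) c).1
  refine ⟨deg_cubicOf hcc, ?_, 2 * c.1.1.2 + 0, ?_⟩
  · have h1 := run_value c.1.1.2 (st0 (prepR R) c) c.1.1.2 le_rfl
    rw [hz, hII', hq] at h1
    refine h1.trans ?_
    have hc0' : (c0 : ℝ) ≠ 0 := by exact_mod_cast hc0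
    constructor
    · intro h2
      have h3 : (c0 : ℝ) * ∫ x : Fin R.1 → ℝ, pcEval R.1 R.2.1 x / pcEval R.1 R.2.2 x = 0 := by
        linarith
      exact (mul_eq_zero.mp h3).resolve_left hc0'
    · intro h2
      rw [h2, mul_zero, add_zero]
  · have h1 := run_lin c.1.1.2 (st0 (prepR R) c) c.1.1.2 le_rfl
    rw [hz] at h1
    refine h1.trans ⟨Polynomial.C q, c0, hc0, ?_⟩
    rw [hII', pow_zero, mul_one, Polynomial.aeval_C]
    rfl

/-- `dom_cSearch`, as `dom_search` in HC/Main.lean. -/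
theorem dom_search' {R : ℕ × PCode × PCode} (h : ∀ x : Fin R.1 → ℝ, 1 ≤ pcEval R.1 R.2.2 x) :
    (cSearch (prepR R)).Dom :=
  dom_cSearch (pcPoly_ne_zero_of_eval (x := 0) (prepR_pos R h 0 (zero_mem_cube _)).ne')

/-- Every real period is, up to an affine transformation over `ℚ[π, 1/π]`, the volume of a cubic set: `ratOf_pad` (Assemble.lean) with `N = I.1`,
`l = I.2.2.length + I.1`, then `dom_search'` and `cubicOf_spec`. -/
theorem exists_cubic (I : IntCode) (hI : Admissible I) :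
    ∃ (F : ℕ × PCode) (k : ℕ), (pcPoly F.1 F.2).totalDegree ≤ 3 ∧
      Lin (volume (posCube F)).toReal (value I) k := by
  have hr := ratOf_pad (N := I.1) (l := I.2.2.length + I.1) le_rfl le_rfl hI
  set M := I.1 + 1 + ((I.2.2.length + I.1 + 2) + (I.2.2.length + I.1 + 2)) with hM
  set r := ratOf (pad I.1 (I.2.2.length + I.1) I) with hrr
  have h : ∀ x : Fin M → ℝ, 1 ≤ pcEval M r.2 x := hr.one_le
  have hi : Integrable fun x : Fin M → ℝ => pcEval M r.1 x / pcEval M r.2 x := hr.int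
  have hd : (cSearch (prepR (M, r.1, r.2))).Dom := dom_search' (R := (M, r.1, r.2)) h
  obtain ⟨h1, -, k, h2⟩ := cubicOf_spec (R := (M, r.1, r.2)) h hi (Part.get_mem hd)
  refine ⟨_, k + 2 * (I.2.2.length + I.1 + 2), h1, h2.trans ⟨0, 1, one_ne_zero, ?_⟩⟩
  have h3 : ∫ x : Fin M → ℝ, pcEval M r.1 x / pcEval M r.2 x =
      Real.pi ^ (2 * (I.2.2.length + I.1 + 2)) * value I := hr.val
  rw [map_zero, zero_add, Rat.cast_one, one_mul]
  exact h3

end Pool.Agent.Lib.MP_bbe012_lc.CV
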